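import Pool.Agent.Work.MP_8aaf67_al.SR.Main

/-!
# Fusion: a form of Alperin's theorem
-/

set_option autoImplicit false

namespace Pool.Agent.Work.MP_8aaf67_al.SR

open Subgroup
open scoped commutatorElement

section alp

variable {G : Type*} [Group G] {p : ℕ} [hp : Fact p.Prime]

/-- conjugate subgroup -/
def cj (g : G) (D : Subgroup G) : Subgroup G := D.map (MulAut.conj g).toMonoidHom

omit hp in
theorem mem_cj {g x : G} {D : Subgroup G} : x ∈ cj g D ↔ g⁻¹ * x * g ∈ D := by
  constructor
  · rintro ⟨y, hy, rfl⟩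
    have : g⁻¹ * (MulAut.conj g).toMonoidHom y * g = y := by simp; group
    rw [this]; exact hy
  · intro h
    refine ⟨_, h, ?_⟩
    simp; group

omit hp in
theorem conj_mem_cj {g x : G} {D : Subgroup G} (hx : x ∈ D) : g * x * g⁻¹ ∈ cj g D := by
  rw [mem_cj]
  have : g⁻¹ * (g * x * g⁻¹) * g = x := by group
  rwa [this]

omit hp in
theorem cj_cj (a b : G) (D : Subgroup G) : cj a (cj b D) = cj (a * b) D := by
  ext x
  rw [mem_cj, mem_cj, mem_cj]
  have : b⁻¹ * (a⁻¹ * x * a) * b = (a * b)⁻¹ * x * (a * b) := by group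
  rw [this]

omit hp in
theorem cj_mono {g : G} {D E : Subgroup G} (h : D ≤ E) : cj g D ≤ cj g E := map_mono h

omit hp in
theorem cj_one (D : Subgroup G) : cj 1 D = D := by
  ext x; rw [mem_cj]; simp

omit hp in
theorem card_cj (g : G) (D : Subgroup G) : Nat.card (cj g D) = Nat.card D :=
  card_map_of_injective (MulAut.conj g).injective

omit hp in
theorem mem_norm {n : G} {D : Subgroup G} : n ∈ normalizer (D : Set G) ↔ cj n D = D := by
  constructor
  · intro h
    ext x
    rw [mem_cj]
    have h1 := ((inv_mem h : n⁻¹ ∈ normalizer (D : Set G)) x)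
    rw [inv_inv] at h1
    exact h1.symm
  · intro h x
    rw [SetLike.mem_coe, SetLike.mem_coe]
    conv_rhs => rw [← h]
    rw [mem_cj]
    have : n⁻¹ * (n * x * n⁻¹) * n = x := by group
    rw [this]

omit hp in
theorem norm_cj (g : G) (D : Subgroup G) :
    normalizer (cj g D : Set G) = cj g (normalizer (D : Set G)) := by
  ext x
  rw [mem_norm, mem_cj, mem_norm, cj_cj]
  constructor
  · intro h
    have h1 := congrArg (cj g⁻¹) h
    rw [cj_cj, cj_cj, inv_mul_cancel, cj_one] at h1
    rw [← h1]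
    congr 1
    group
  · intro h
    have h1 := congrArg (cj g) h
    rw [cj_cj] at h1
    rw [← h1]
    congr 1
    group

theorem exists_full [Finite G] (S : Sylow p G) {D : Subgroup G} (hD : D ≤ (S : Subgroup G)) :
    ∃ k : G, cj k D ≤ (S : Subgroup G) ∧
      IsSyl p ((S : Subgroup G) ⊓ normalizer (cj k D : Set G)) (normalizer (cj k D : Set G)) := by
  obtain ⟨N, hN⟩ : ∃ N, N = normalizer (D : Set G) := ⟨_, rfl⟩
  obtain ⟨P⟩ : Nonempty (Sylow p N) := inferInstance
  obtain ⟨T, hT⟩ := (P.isPGroup'.map N.subtype).exists_le_sylow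
  obtain ⟨k, hk⟩ := MulAction.exists_smul_eq G T S
  have hk' : (S : Subgroup G) = cj k (T : Subgroup G) := by rw [← hk]; rfl
  have hDN : D ≤ N := by rw [hN]; exact le_normalizer
  have hDP : D ≤ (P : Subgroup N).map N.subtype := by
    have h1 : (D.subgroupOf N).Normal := by
      rw [hN]; exact normal_in_normalizer
    have h2 : IsPGroup p (D.subgroupOf N) := (S.isPGroup'.to_le hD).comap_subtype
    have h3 := h2.le_sylow_of_normal P
    intro x hx
    exact ⟨⟨x, hDN hx⟩, h3 hx, rfl⟩
  have h4 : cj k D ≤ (S : Subgroup G) := by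
    rw [hk']; exact cj_mono (hDP.trans hT)
  have hsP : IsSyl p ((P : Subgroup N).map N.subtype) N := by
    refine ⟨map_subtype_le _, P.isPGroup'.map _, ?_⟩
    have h5 := (isSyl_top P).map N.subtype
    rw [← MonoidHom.range_eq_map, range_subtype] at h5
    exact h5.2.2
  have hsP2 : IsSyl p (cj k ((P : Subgroup N).map N.subtype)) (cj k N) :=
    hsP.map (MulAut.conj k).toMonoidHom
  refine ⟨k, h4, ?_⟩
  rw [norm_cj, ← hN]
  have h6 : (S : Subgroup G) ⊓ cj k N = cj k ((P : Subgroup N).map N.subtype) := by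
    refine hsP2.eq_of_le (S.isPGroup'.to_le inf_le_left) (le_inf ?_ hsP2.1) inf_le_right
    rw [hk']; exact cj_mono hT
  rw [h6]
  exact hsP2

theorem extend [Finite G] (S : Sylow p G) {D' Ds : Subgroup G} {a : G} (ha : cj a D' = Ds)
    (hs : IsSyl p ((S : Subgroup G) ⊓ normalizer (Ds : Set G)) (normalizer (Ds : Set G))) :
    ∃ a' : G, cj a' D' = Ds ∧
      cj a' ((S : Subgroup G) ⊓ normalizer (D' : Set G)) ≤ (S : Subgroup G) := by
  obtain ⟨N, hN⟩ : ∃ N, N = normalizer (Ds : Set G) := ⟨_, rfl⟩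
  rw [← hN] at hs
  obtain ⟨X, hX⟩ : ∃ X, X = cj a ((S : Subgroup G) ⊓ normalizer (D' : Set G)) := ⟨_, rfl⟩
  have hXN : X ≤ N := by
    rw [hX, hN, ← ha, norm_cj]
    exact cj_mono inf_le_right
  have hXp : IsPGroup p X := by
    rw [hX]
    exact (S.isPGroup'.to_le inf_le_left).map _
  obtain ⟨T, hT⟩ : ∃ T : Sylow p N, (T : Subgroup N) = ((S : Subgroup G) ⊓ N).subgroupOf N :=
    ⟨(hs.2.1.comap_subtype).toSylow (by exact hs.2.2), by simp⟩
  obtain ⟨R, hR⟩ := (hXp.comap_subtype (K := N)).exists_le_sylow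
  obtain ⟨n, hn⟩ := MulAction.exists_smul_eq N R T
  have hnX : cj (n : G) X ≤ (S : Subgroup G) := by
    intro x hx
    rw [mem_cj] at hx
    have h1 : (⟨_, hXN hx⟩ : N) ∈ (R : Subgroup N) := hR hx
    have h2 : n * ⟨_, hXN hx⟩ * n⁻¹ ∈ (T : Subgroup N) := by
      rw [← hn]
      exact ⟨_, h1, rfl⟩
    rw [hT, mem_subgroupOf] at h2
    have h3 : ((n * ⟨_, hXN hx⟩ * n⁻¹ : N) : G) = x := by
      push_cast
      group
    rw [h3] at h2
    exact h2.1
  refine ⟨n * a, ?_, ?_⟩
  · rw [← cj_cj, ha]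
    exact mem_norm.1 (hN.le n.2)
  · rw [← cj_cj, ← hX]
    exact hnX

theorem norm_grow [Finite G] (S : Sylow p G) {D : Subgroup G} (hD : D < (S : Subgroup G)) :
    D < (S : Subgroup G) ⊓ normalizer (D : Set G) := by
  refine lt_of_le_of_ne (le_inf hD.le le_normalizer) fun he => ?_
  have hnil : Group.IsNilpotent (S : Subgroup G) := S.isPGroup'.isNilpotent
  have hnc := normalizerCondition_of_isNilpotent (G := (S : Subgroup G))
  have h1 : D.subgroupOf (S : Subgroup G) < ⊤ := by
    rw [lt_top_iff_ne_top]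
    intro h
    rw [subgroupOf_eq_top] at h
    exact not_le_of_gt hD h
  have h2 := hnc _ h1
  obtain ⟨y, hy1, hy2⟩ := SetLike.exists_of_lt h2
  apply hy2
  rw [mem_subgroupOf, he]
  refine ⟨y.2, ?_⟩
  intro n
  rw [SetLike.mem_coe, SetLike.mem_coe]
  constructor
  · intro hn
    exact (hy1 ⟨n, hD.le hn⟩).1 hn
  · intro hn
    have h3 : n ∈ (S : Subgroup G) := by
      have h4 : n = (y : G)⁻¹ * (y * n * (y : G)⁻¹) * y := by group
      rw [h4]
      exact (S : Subgroup G).mul_mem ((S : Subgroup G).mul_mem ((S : Subgroup G).inv_mem y.2)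
        (hD.le hn)) y.2
    exact (hy1 ⟨n, h3⟩).2 hn

/-- A form of Alperin's fusion theorem. -/
theorem alperin [Finite G] (S : Sylow p G) {A : Type*} (f : G → A)
    (h : ∀ R : Subgroup G, R ≤ (S : Subgroup G) →
      IsSyl p ((S : Subgroup G) ⊓ normalizer (R : Set G)) (normalizer (R : Set G)) →
      ∀ n ∈ normalizer (R : Set G), ∀ x ∈ R, f (n * x * n⁻¹) = f x) :
    ∀ g : G, ∀ x ∈ (S : Subgroup G), g * x * g⁻¹ ∈ (S : Subgroup G) → f (g * x * g⁻¹) = f x := by
  have key : ∀ k : ℕ, ∀ D : Subgroup G, D ≤ (S : Subgroup G) →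
      Nat.card (S : Subgroup G) - Nat.card D = k → ∀ g : G, cj g D ≤ (S : Subgroup G) →
      ∀ x ∈ D, f (g * x * g⁻¹) = f x := by
    intro k
    induction k using Nat.strong_induction_on with
    | _ k ih =>
      intro D hDS hk g hg x hx
      rcases eq_or_lt_of_le hDS with hDe | hDlt
      · -- `D = S`
        have h1 : cj g D = D := by
          apply eq_of_le_of_card_ge
          · rw [hDe] at hg ⊢; exact hg
          · rw [card_cj]
        refine h D hDS ?_ g (mem_norm.2 h1) x hx
        rw [hDe]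
        have h2 : (S : Subgroup G) ⊓ normalizer ((S : Subgroup G) : Set G) = (S : Subgroup G) :=
          inf_eq_left.2 le_normalizer
        rw [h2]
        refine ⟨le_normalizer, S.isPGroup', fun hd => S.not_dvd_index ?_⟩
        exact hd.trans (relIndex_dvd_index_of_le le_normalizer)
      · have hup : ∀ E : Subgroup G, E < (S : Subgroup G) → Nat.card E = Nat.card D →
            ∀ b : G, cj b ((S : Subgroup G) ⊓ normalizer (E : Set G)) ≤ (S : Subgroup G) →
            ∀ y ∈ E, f (b * y * b⁻¹) = f y := by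
          intro E hE hEc b hb y hy
          have h1 := norm_grow S hE
          have h2 : Nat.card E < Nat.card ((S : Subgroup G) ⊓ normalizer (E : Set G) :
              Subgroup G) := by
            refine lt_of_le_of_ne (card_le_of_le h1.le) fun he => ?_
            exact h1.ne (eq_of_le_of_card_ge h1.le he.ge)
          have h3 : Nat.card ((S : Subgroup G) ⊓ normalizer (E : Set G) : Subgroup G) ≤
              Nat.card (S : Subgroup G) := card_le_of_le inf_le_left
          exact ih _ (by omega) _ inf_le_left rfl b hb y (h1.le hy)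
        obtain ⟨c, hc1, hc2⟩ := exists_full S hDS
        obtain ⟨a, ha1, ha2⟩ := extend S (rfl : cj c D = cj c D) hc2
        have hgD : cj (c * g⁻¹) (cj g D) = cj c D := by
          rw [cj_cj]; congr 1; group
        obtain ⟨b, hb1, hb2⟩ := extend S hgD hc2
        have hlt2 : cj g D < (S : Subgroup G) := by
          refine lt_of_le_of_ne hg fun he => hDlt.ne ?_
          apply eq_of_le_of_card_ge hDS
          rw [← he, card_cj]
        have e1 := hup D hDlt rfl a ha2 x hx
        have e2 := hup (cj g D) hlt2 (card_cj g D) b hb2 (g * x * g⁻¹) (conj_mem_cj hx)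
        have hm : b * g * a⁻¹ ∈ normalizer (cj c D : Set G) := by
          rw [mem_norm]
          conv_lhs => rw [← ha1]
          rw [cj_cj, ← hb1, cj_cj]
          congr 1; group
        have hy : a * x * a⁻¹ ∈ cj c D := by
          rw [← ha1]; exact conj_mem_cj hx
        have e3 := h (cj c D) hc1 hc2 _ hm _ hy
        have e4 : b * g * a⁻¹ * (a * x * a⁻¹) * (b * g * a⁻¹)⁻¹ = b * (g * x * g⁻¹) * b⁻¹ := by
          group
        rw [e4] at e3
        rw [← e2, e3, e1]
  intro g x hx hgx
  refine key _ (zpowers x) ((zpowers_le).2 hx) rfl g ?_ x (mem_zpowers x)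
  rw [cj, MonoidHom.map_zpowers, zpowers_le]
  exact hgx

end alp

end Pool.Agent.Work.MP_8aaf67_al.SR
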