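import Pool.Agent.Work.MP_8aaf67_al.SR.Syl

/-!
# From words in the free group to shapes
-/

set_option autoImplicit false

namespace Pool.Agent.Work.MP_8aaf67_al.SR

open Subgroup
open scoped commutatorElement

/-- `w` is a multilinear commutator word in the variables `A`. -/
def MLC (w : FreeGroup ℕ) : Prop :=
  ∃ A : Finset ℕ, ∀ S : Set (FreeGroup ℕ × Finset ℕ),
      (∀ i : ℕ, (FreeGroup.of i, ({i} : Finset ℕ)) ∈ S) →
      (∀ u v : FreeGroup ℕ, ∀ B C : Finset ℕ, (u, B) ∈ S → (v, C) ∈ S →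
          Disjoint B C → (u * v * u⁻¹ * v⁻¹, B ∪ C) ∈ S) →
      (w, A) ∈ S

/-- The values of `w` in `G`. -/
def wv (G : Type) [Group G] (w : FreeGroup ℕ) : Set G :=
  {x : G | ∃ g : ℕ → G, (FreeGroup.lift g : FreeGroup ℕ →* G) w = x}

theorem shape (w : FreeGroup ℕ) (hw : MLC w) : ∃ τ : MW, ∀ (G : Type) [Group G],
    wv G w = val G τ := by
  obtain ⟨A, hA⟩ := hw
  have h := hA {q | (∀ (G : Type) [Group G] (g g' : ℕ → G), (∀ i ∈ q.2, g i = g' i) →
      (FreeGroup.lift g : FreeGroup ℕ →* G) q.1 = (FreeGroup.lift g' : FreeGroup ℕ →* G) q.1) ∧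
      ∃ τ : MW, ∀ (G : Type) [Group G], wv G q.1 = val G τ} ?_ ?_
  · exact h.2
  · intro i
    refine ⟨?_, .var, ?_⟩
    · intro G _ g g' hg
      simpa using hg i (Finset.mem_singleton_self i)
    · intro G _
      ext x
      refine ⟨fun _ => Set.mem_univ _, fun _ => ⟨fun _ => x, ?_⟩⟩
      simp
  · rintro u v B C ⟨hu1, τ, hu2⟩ ⟨hv1, σ, hv2⟩ hBC
    have key : ∀ (G : Type) [Group G] (g : ℕ → G),
        (FreeGroup.lift g : FreeGroup ℕ →* G) (u * v * u⁻¹ * v⁻¹) =
        ⁅(FreeGroup.lift g : FreeGroup ℕ →* G) u, (FreeGroup.lift g : FreeGroup ℕ →* G) v⁆ := by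
      intro G _ g
      rw [commutatorElement_def, map_mul, map_mul, map_mul, map_inv, map_inv]
    refine ⟨?_, .comm τ σ, ?_⟩
    · intro G _ g g' hg
      show (FreeGroup.lift g : FreeGroup ℕ →* G) (u * v * u⁻¹ * v⁻¹) =
        (FreeGroup.lift g' : FreeGroup ℕ →* G) (u * v * u⁻¹ * v⁻¹)
      rw [key, key, hu1 G g g' fun i hi => hg i (Finset.mem_union_left C hi),
        hv1 G g g' fun i hi => hg i (Finset.mem_union_right B hi)]
    · intro G _
      ext x
      constructor
      · rintro ⟨g, hg⟩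
        change (FreeGroup.lift g : FreeGroup ℕ →* G) (u * v * u⁻¹ * v⁻¹) = x at hg
        rw [key] at hg
        refine ⟨_, ?_, _, ?_, hg.symm⟩
        · rw [← hu2 G]; exact ⟨g, rfl⟩
        · rw [← hv2 G]; exact ⟨g, rfl⟩
      · rintro ⟨a, ha, b, hb, rfl⟩
        rw [← hu2 G] at ha
        rw [← hv2 G] at hb
        obtain ⟨g1, rfl⟩ := ha
        obtain ⟨g2, rfl⟩ := hb
        classical
        refine ⟨fun i => if i ∈ B then g1 i else g2 i, ?_⟩
        change (FreeGroup.lift (fun i => if i ∈ B then g1 i else g2 i) : FreeGroup ℕ →* G)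
          (u * v * u⁻¹ * v⁻¹) = _
        rw [key]
        have h1 : (FreeGroup.lift (fun i => if i ∈ B then g1 i else g2 i) : FreeGroup ℕ →* G) u =
            (FreeGroup.lift g1 : FreeGroup ℕ →* G) u := hu1 G _ _ fun i hi => if_pos hi
        have h2 : (FreeGroup.lift (fun i => if i ∈ B then g1 i else g2 i) : FreeGroup ℕ →* G) v =
            (FreeGroup.lift g2 : FreeGroup ℕ →* G) v := hv1 G _ _ fun i hi =>
          if_neg fun hi' => Finset.disjoint_left.1 hBC hi' hi
        rw [h1, h2]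

/-- Every Sylow `p`-subgroup of `w(G)` is generated by `w`-values. -/
def SylGen (p : ℕ) (G : Type) [Group G] (w : FreeGroup ℕ) : Prop :=
  ∀ H : Subgroup G, H = Subgroup.closure (wv G w) →
    ∀ P : Sylow p H,
      Subgroup.map H.subtype (P : Subgroup H) =
        Subgroup.closure {x : G | x ∈ Subgroup.map H.subtype (P : Subgroup H) ∧ x ∈ wv G w}

theorem sylgen_of_good {p : ℕ} {G : Type} [Group G] [Finite G] {w : FreeGroup ℕ} {τ : MW}
    (hτ : wv G w = val G τ) (hg : Good p G τ) : SylGen p G w := by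
  intro H hH P
  rw [hτ] at hH ⊢
  subst hH
  obtain ⟨Q, hQ⟩ : ∃ Q, Q = (P : Subgroup (closure (val G τ))).map (closure (val G τ)).subtype :=
    ⟨_, rfl⟩
  rw [← hQ]
  have hQp : IsPGroup p Q := by
    rw [hQ]; exact P.isPGroup'.map _
  obtain ⟨S, hS⟩ := hQp.exists_le_sylow
  have hSQ : (S : Subgroup G) ⊓ closure (val G τ) = Q := by
    apply le_antisymm
    · intro x hx
      have h1 : IsPGroup p (((S : Subgroup G) ⊓ closure (val G τ)).subgroupOf
          (closure (val G τ))) :=
        (S.isPGroup'.to_le inf_le_left).comap_of_injective _ (subtype_injective _)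
      have h2 : ((S : Subgroup G) ⊓ closure (val G τ)).subgroupOf (closure (val G τ)) =
          (P : Subgroup (closure (val G τ))) := by
        apply P.is_maximal' h1
        intro y hy
        rw [mem_subgroupOf]
        refine ⟨hS ?_, y.2⟩
        rw [hQ]
        exact mem_map_of_mem _ hy
      rw [hQ]
      refine ⟨⟨x, hx.2⟩, ?_, rfl⟩
      rw [← h2]
      exact hx
    · refine le_inf hS ?_
      rw [hQ]
      exact map_subtype_le _
  apply le_antisymm
  · have h1 := hg S
    rw [ver, hSQ] at h1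
    refine h1.trans ?_
    rw [Qs]
    apply Subgroup.closure_mono
    rintro x ⟨hx1, hx2⟩
    refine ⟨?_, hx1⟩
    rw [← hSQ]
    exact ⟨hx2, Subgroup.subset_closure hx1⟩
  · rw [closure_le]
    rintro x ⟨hx, -⟩
    exact hx

end Pool.Agent.Work.MP_8aaf67_al.SR
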