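import Pool.Agent.Work.MP_8aaf67_al.SR.Syl

/-!
# The core theorem
-/

set_option autoImplicit false

namespace Pool.Agent.Work.MP_8aaf67_al.SR

open Subgroup
open scoped commutatorElement

section core

variable {G : Type*} [Group G] {p : ℕ} [hp : Fact p.Prime]

/-- A commutator map into a central `p`-subgroup which is trivial on a Sylow subgroup. -/
theorem comm_sylow [Finite G] {U P X : Subgroup G} (b : G) (hP : IsPGroup p P) (hPU : P ≤ U)
    (h1 : ∀ a ∈ U, ⁅a, b⁆ ∈ P) (h2 : ∀ x ∈ P, ∀ y ∈ U, x * y = y * x) (hX : IsSyl p X U)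
    (h3 : ∀ a ∈ X, ⁅a, b⁆ = 1) : ∀ a ∈ U, ⁅a, b⁆ = 1 := by
  have hmul : ∀ a a' : U, ⁅((a * a' : U) : G), b⁆ = ⁅(a : G), b⁆ * ⁅(a' : G), b⁆ := by
    intro a a'
    have e1 : ⁅((a * a' : U) : G), b⁆ = a * ⁅(a' : G), b⁆ * (a : G)⁻¹ * ⁅(a : G), b⁆ := by
      push_cast
      simp only [commutatorElement_def]
      group
    rw [e1, ← h2 _ (h1 a' a'.2) a a.2, mul_assoc _ (a : G), mul_inv_cancel, mul_one]
    exact h2 _ (h1 a' a'.2) _ (hPU (h1 a a.2))
  obtain ⟨f, hf⟩ : ∃ f : U →* G, ∀ a : U, f a = ⁅(a : G), b⁆ :=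
    ⟨MonoidHom.mk' (fun a : U => ⁅(a : G), b⁆) hmul, fun a => rfl⟩
  have hr : f.range ≤ P := by
    rintro _ ⟨a, rfl⟩
    rw [hf]; exact h1 a a.2
  obtain ⟨n, hn⟩ := IsPGroup.iff_card.1 (hP.to_le hr)
  have hi : f.ker.index = p ^ n := by rw [index_ker, hn]
  have hXk : X.subgroupOf U ≤ f.ker := by
    intro a ha
    rw [MonoidHom.mem_ker, hf]
    exact h3 a ha
  have hd : f.ker.index ∣ X.relIndex U := index_dvd_of_le hXk
  have hn0 : n = 0 := by
    by_contra hn0
    apply hX.2.2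
    rw [hi] at hd
    exact (dvd_pow_self p hn0).trans hd
  rw [hn0, pow_zero, index_eq_one] at hi
  intro a ha
  have : (⟨a, ha⟩ : U) ∈ f.ker := by rw [hi]; exact mem_top _
  rw [MonoidHom.mem_ker, hf] at this
  exact this

theorem fin_lemma [Finite G] {U V P : Subgroup G} [hU : U.Normal] [hV : V.Normal] (S : Sylow p G)
    (hP : IsPGroup p P) (hPU : P ≤ U) (hPV : P ≤ V) (h1 : ⁅U, V⁆ ≤ P)
    (h2 : ∀ x ∈ P, ∀ y ∈ U, x * y = y * x) (h3 : ∀ x ∈ P, ∀ y ∈ V, x * y = y * x)
    (h4 : ∀ x ∈ U, x ∈ (S : Subgroup G) → ∀ y ∈ V, y ∈ (S : Subgroup G) → ⁅x, y⁆ = 1) :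
    ⁅U, V⁆ = ⊥ := by
  have sU : IsSyl p ((S : Subgroup G) ⊓ U) U := (isSyl_top S).inf_normal hU le_top
  have sV : IsSyl p ((S : Subgroup G) ⊓ V) V := (isSyl_top S).inf_normal hV le_top
  have h5 : ∀ y ∈ V, y ∈ (S : Subgroup G) → ∀ x ∈ U, ⁅x, y⁆ = 1 := by
    intro y hy hyS
    exact comm_sylow y hP hPU (fun a ha => h1 (commutator_mem_commutator ha hy)) h2 sU
      fun a ha => h4 a ha.2 ha.1 y hy hyS
  rw [eq_bot_iff, commutator_le]
  intro x hx y hy
  rw [mem_bot]
  have h6 : ∀ a ∈ V, ⁅a, x⁆ = 1 := by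
    refine comm_sylow x hP hPV (fun a ha => ?_) h3 sV fun a ha => ?_
    · rw [← commutatorElement_inv]
      exact inv_mem (h1 (commutator_mem_commutator hx ha))
    · rw [← commutatorElement_inv, h5 a ha.2 ha.1 x hx, inv_one]
  rw [← commutatorElement_inv, h6 y hy, inv_one]

/-- `u(G)` centralises `P`. -/
theorem cent [Finite G] {u v : MW} (S : Sylow p G) (P : Subgroup G) [hPn : P.Normal]
    (hPS : P ≤ (S : Subgroup G)) (hPV : P ≤ ver G v)
    (h0 : ∀ a ∈ val G u, ∀ b ∈ val G v, ⁅a, b⁆ ∈ (S : Subgroup G) → ⁅a, b⁆ = 1)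
    (hmin : ∀ D : Subgroup G, D.Normal → D ≤ P → D = ⊥ ∨ D = P)
    (hv : (S : Subgroup G) ⊓ ver G v ≤ Qs v (S : Subgroup G)) :
    ∀ x ∈ ver G u, ∀ y ∈ P, x * y = y * x := by
  have key : ver G u ≤ centralizer (P : Set G) := by
    rw [ver, closure_le]
    intro g hg
    rw [SetLike.mem_coe, mem_centralizer_iff]
    rcases hmin _ (inter_normal v P) ((closure_le _).2 Set.inter_subset_right) with hD | hD
    · -- `v(G)` centralises `P`
      have hVP : ∀ x ∈ ver G v, ∀ y ∈ P, ⁅y, x⁆ = 1 := by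
        intro x hx y hy
        have := marg v P (commutator_mem_commutator hy hx)
        rw [hD] at this
        exact mem_bot.1 this
      have sV : IsSyl p ((S : Subgroup G) ⊓ ver G v) (ver G v) :=
        (isSyl_top S).inf_normal (ver_normal v) le_top
      obtain ⟨N, hN⟩ : ∃ N, N = normalizer (((S : Subgroup G) ⊓ ver G v : Subgroup G) : Set G) :=
        ⟨_, rfl⟩
      have hF : N ⊔ ver G v = ⊤ := by rw [hN]; exact sV.frattini
      obtain ⟨φ, hφ⟩ : ∃ φ : N →* G ⧸ ver G v, φ = (QuotientGroup.mk' (ver G v)).comp N.subtype :=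
        ⟨_, rfl⟩
      have hφs : Function.Surjective φ := by
        intro y
        obtain ⟨x, rfl⟩ := QuotientGroup.mk'_surjective (ver G v) y
        have hx : x ∈ N ⊔ ver G v := hF ▸ mem_top x
        rw [mem_sup_of_normal_right] at hx
        obtain ⟨n, hn, m, hm, rfl⟩ := hx
        refine ⟨⟨n, hn⟩, ?_⟩
        have : QuotientGroup.mk' (ver G v) m = 1 := (QuotientGroup.eq_one_iff m).2 hm
        rw [map_mul, this, mul_one, hφ]
        rfl
      obtain ⟨g0, hg0, hg0e⟩ := val_surj φ hφs u _ (val_map (QuotientGroup.mk' (ver G v)) u g hg)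
      have hg0' : (g0 : G) ∈ val G u := val_map N.subtype u g0 hg0
      have hg0V : (g0 : G)⁻¹ * g ∈ ver G v := by
        rw [← QuotientGroup.eq]
        rw [hφ] at hg0e
        exact hg0e
      have hg0c : ∀ y ∈ Qs v (S : Subgroup G), y * g0 = g0 * y := by
        have : Qs v (S : Subgroup G) ≤ centralizer {(g0 : G)} := by
          rw [Qs, closure_le]
          rintro c ⟨hc1, hc2⟩
          rw [SetLike.mem_coe, mem_centralizer_iff]
          rintro _ rfl
          have hcV : c ∈ ((S : Subgroup G) ⊓ ver G v : Subgroup G) := ⟨hc2, val_le_ver hc1⟩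
          have h1 : (g0 : G) * c * (g0 : G)⁻¹ ∈ ((S : Subgroup G) ⊓ ver G v : Subgroup G) := by
            have := hN.le g0.2
            exact (this c).1 hcV
          have h2 : ⁅(g0 : G), c⁆ ∈ (S : Subgroup G) := by
            rw [commutatorElement_def]
            exact (S : Subgroup G).mul_mem h1.1 ((S : Subgroup G).inv_mem hc2)
          exact (commutatorElement_eq_one_iff_mul_comm.1 (h0 _ hg0' c hc1 h2))
        intro y hy
        exact ((mem_centralizer_iff.1 (this hy)) _ rfl).symm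
      intro y hy
      have h1 : y * g0 = g0 * y := hg0c y (hv ⟨hPS hy, hPV hy⟩)
      have h2 : y * ((g0 : G)⁻¹ * g) = ((g0 : G)⁻¹ * g) * y :=
        commutatorElement_eq_one_iff_mul_comm.1 (hVP _ hg0V y hy)
      calc y * g = y * g0 * ((g0 : G)⁻¹ * g) := by group
        _ = g0 * (y * ((g0 : G)⁻¹ * g)) := by rw [h1, mul_assoc]
        _ = g * y := by rw [h2]; group
    · -- `P` is generated by `v`-values
      have h1 : closure (val G v ∩ P) ≤ centralizer {g} := by
        rw [closure_le]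
        rintro c ⟨hc1, hc2⟩
        rw [SetLike.mem_coe, mem_centralizer_iff]
        intro g' hg'
        rw [Set.mem_singleton_iff.1 hg']
        have h2 : ⁅g, c⁆ ∈ P := by
          rw [commutatorElement_def]
          exact P.mul_mem (hPn.conj_mem c hc2 g) (P.inv_mem hc2)
        exact commutatorElement_eq_one_iff_mul_comm.1 (h0 g hg c hc1 (hPS h2))
      rw [hD] at h1
      intro y hy
      exact ((mem_centralizer_iff.1 (h1 hy)) _ rfl).symm
  intro x hx y hy
  exact ((mem_centralizer_iff.1 (key hx)) y hy).symm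

/-- Every normal subgroup `L < W` is properly contained in a normal subgroup `M ≤ W` such that
`M / L` is a `p`-group or a `p'`-group. -/
def PSer (p : ℕ) {G : Type*} [Group G] (W : Subgroup G) : Prop :=
  ∀ L : Subgroup G, L.Normal → L < W → ∃ M : Subgroup G, M.Normal ∧ L < M ∧ M ≤ W ∧
    ((∃ k : ℕ, L.relIndex M = p ^ k) ∨ ¬ p ∣ L.relIndex M)

theorem pgroup_inf [Finite G] {A B : Subgroup G} (hA : IsPGroup p A) (hB : ¬ p ∣ Nat.card B) :
    A ⊓ B = ⊥ := by
  obtain ⟨n, hn⟩ := IsPGroup.iff_card.1 hA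
  rw [← disjoint_iff]
  apply disjoint_of_coprime_natCard
  rw [hn]
  exact Nat.Coprime.pow_left n ((Nat.Prime.coprime_iff_not_dvd hp.out).2 hB)

omit hp in
theorem pow_card_one (A : Subgroup G) {x : G} (hx : x ∈ A) : x ^ Nat.card A = 1 := by
  have h : (⟨x, hx⟩ : A) ^ Nat.card A = 1 := pow_card_eq_one'
  exact congrArg (fun z : A => (z : G)) h

/-- The core theorem. -/
theorem core [Finite G] {u v : MW}
    (hq : ∀ D : Subgroup G, ∀ _ : D.Normal, IsPGroup p D → D ≠ ⊥ → Good p (G ⧸ D) (.comm u v))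
    (hs : ∀ K : Subgroup G, K ≠ ⊤ → Good p K (.comm u v)) (hu : Good p G u) (hv : Good p G v)
    (hW : PSer p (ver G (.comm u v))) : Good p G (.comm u v) := by
  obtain ⟨w, hw⟩ : ∃ w, w = MW.comm u v := ⟨_, rfl⟩
  obtain ⟨W, hWe⟩ : ∃ W, W = ver G w := ⟨_, rfl⟩
  have hWn : W.Normal := by rw [hWe]; infer_instance
  rw [← hw] at hq hs hW ⊢
  rw [← hWe] at hW
  by_contra hng
  have hno : ∀ S : Sylow p G, ¬ ((S : Subgroup G) ⊓ W ≤ Qs w (S : Subgroup G)) :=
    fun S h => hng (good_of_exists ⟨S, hWe ▸ h⟩)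
  obtain ⟨S⟩ : Nonempty (Sylow p G) := inferInstance
  -- (A)
  have hA : ∀ D : Subgroup G, D.Normal → IsPGroup p D → D ≤ Qs w (S : Subgroup G) → D = ⊥ := by
    intro D hDn hDp hDQ
    by_contra hD
    have h1 := quot D hDp (hq D hDn hDp hD) S
    rw [sup_eq_left.2 hDQ, ← hWe] at h1
    exact hno S h1
  -- (B)
  have hB : ∀ D : Subgroup G, D.Normal → IsPGroup p D → ∀ x ∈ val G w, x ∈ D → x = 1 := by
    intro D hDn hDp x hx hxD
    have hle : closure (val G w ∩ D) ≤ D := (closure_le _).2 Set.inter_subset_right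
    have h1 := hA (closure (val G w ∩ D)) (inter_normal w D) (hDp.to_le hle)
      (Subgroup.closure_mono (Set.inter_subset_inter_right _ (hDp.le_sylow_of_normal S)))
    have h2 : x ∈ closure (val G w ∩ D) := Subgroup.subset_closure ⟨hx, hxD⟩
    rw [h1] at h2
    exact mem_bot.1 h2
  -- (C)
  have hC : ∀ D : Subgroup G, D.Normal → IsPGroup p D → ∀ x ∈ D, ∀ y ∈ W, x * y = y * x := by
    intro D hDn hDp x hx y hy
    have h1 := marg w D (commutator_mem_commutator hx (hWe.le hy))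
    have h2 : closure (val G w ∩ D) ≤ ⊥ := by
      rw [closure_le]
      rintro z ⟨hz1, hz2⟩
      exact hB D hDn hDp z hz1 hz2
    exact commutatorElement_eq_one_iff_mul_comm.1 (mem_bot.1 (h2 h1))
  -- (D)
  have hD : ∀ B : Subgroup G, B.Normal → ¬ p ∣ Nat.card B → ∀ K : Subgroup G, B ⊔ K = ⊤ →
      K = ⊤ := by
    intro B hBn hBp K hBK
    by_contra hK
    obtain ⟨S', hS'⟩ := supp B K hBK (hs K hK)
    rw [pgroup_inf S'.isPGroup' hBp, sup_bot_eq, ← hWe] at hS'
    exact hno S' hS'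
  -- (E) the choice of `B` and `L`
  obtain ⟨B, ⟨hBn, hBW, hBp⟩, hBmax⟩ : ∃ B : Subgroup G, (B.Normal ∧ B ≤ W ∧ ¬ p ∣ Nat.card B) ∧
      ∀ B' : Subgroup G, B'.Normal ∧ B' ≤ W ∧ ¬ p ∣ Nat.card B' → B ≤ B' → B' ≤ B := by
    obtain ⟨B, hB⟩ := (Set.toFinite {B : Subgroup G | B.Normal ∧ B ≤ W ∧
      ¬ p ∣ Nat.card B}).exists_maximal ⟨⊥, by infer_instance, bot_le, by
        rw [card_bot]; exact hp.out.one_lt.ne' ∘ Nat.dvd_one.1⟩
    exact ⟨B, hB.1, fun B' h1 h2 => hB.2 h1 h2⟩
  obtain ⟨L, ⟨hLn, hBL, hLW, hLp⟩, hLmax⟩ : ∃ L : Subgroup G, (L.Normal ∧ B ≤ L ∧ L ≤ W ∧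
      ∃ k : ℕ, B.relIndex L = p ^ k) ∧ ∀ L' : Subgroup G, (L'.Normal ∧ B ≤ L' ∧ L' ≤ W ∧
      ∃ k : ℕ, B.relIndex L' = p ^ k) → L ≤ L' → L' ≤ L := by
    obtain ⟨L, hL⟩ := (Set.toFinite {L : Subgroup G | L.Normal ∧ B ≤ L ∧ L ≤ W ∧
      ∃ k : ℕ, B.relIndex L = p ^ k}).exists_maximal ⟨B, hBn, le_rfl, hBW, 0, by simp⟩
    exact ⟨L, hL.1, fun L' h1 h2 => hL.2 h1 h2⟩
  obtain ⟨P, hP⟩ : ∃ P : Subgroup G, P = (S : Subgroup G) ⊓ L := ⟨_, rfl⟩
  have sP : IsSyl p P L := by rw [hP]; exact (isSyl_top S).inf_normal hLn le_top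
  have hPp : IsPGroup p P := sP.2.1
  have hLBP : L ≤ B ⊔ P := by
    rw [← relIndex_eq_one]
    obtain ⟨k, hk⟩ := hLp
    have h1 : (B ⊔ P).relIndex L ∣ p ^ k := hk ▸ relIndex_dvd_of_le_left L le_sup_left
    have h2 : (B ⊔ P).relIndex L ∣ P.relIndex L := relIndex_dvd_of_le_left L le_sup_right
    exact Nat.eq_one_of_dvd_coprimes (Nat.Coprime.pow_left k
      ((Nat.Prime.coprime_iff_not_dvd hp.out).2 sP.2.2)) h1 h2
  have hPn : P.Normal := by
    have h1 := sP.frattini
    have h2 : B ⊔ normalizer (P : Set G) = ⊤ := by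
      rw [eq_top_iff, ← h1]
      refine sup_le le_sup_right (hLBP.trans (sup_le le_sup_left ?_))
      exact le_normalizer.trans le_sup_right
    have h3 := hD B hBn hBp _ h2
    exact normalizer_eq_top_iff.1 h3
  have hPW : ∀ x ∈ P, ∀ y ∈ W, x * y = y * x := hC P hPn hPp
  have hLeq : L = W := by
    by_contra hLne
    obtain ⟨M, hMn, hLM, hMW, hM⟩ := hW L hLn (lt_of_le_of_ne hLW hLne)
    rcases hM with ⟨j, hj⟩ | hM
    · obtain ⟨k, hk⟩ := hLp
      refine absurd (hLmax M ⟨hMn, hBL.trans hLM.le, hMW, k + j, ?_⟩ hLM.le) (not_le_of_gt hLM)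
      rw [← relIndex_mul_relIndex B L M hBL hLM.le, hk, hj, pow_add]
    · have hPL : P ≤ L := sP.1
      have hPM : P ≤ M := hPL.trans hLM.le
      have hPMp : ¬ p ∣ P.relIndex M := by
        rw [← relIndex_mul_relIndex P L M hPL hLM.le]
        intro h
        rcases hp.out.dvd_mul.1 h with h | h
        · exact sP.2.2 h
        · exact hM h
      obtain ⟨n, hn⟩ := IsPGroup.iff_card.1 hPp
      have hPMn : (P.subgroupOf M).Normal := hPn.subgroupOf M
      have hcard : Nat.card (P.subgroupOf M) = p ^ n := by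
        rw [← hn]
        exact Nat.card_congr (subgroupOfEquivOfLe hPM).toEquiv
      obtain ⟨K, hK⟩ := exists_right_complement'_of_coprime (N := P.subgroupOf M) (by
        rw [hcard]
        exact Nat.Coprime.pow_left n ((Nat.Prime.coprime_iff_not_dvd hp.out).2 hPMp))
      have hKcard : Nat.card K = P.relIndex M := by
        have := hK.symm.index_eq_card
        rw [← this]; rfl
      have hKp : ¬ p ∣ Nat.card K := by rw [hKcard]; exact hPMp
      -- description of the elements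
      have hel : ∀ x : G, x ∈ K.map M.subtype ↔ (x ∈ M ∧ ∃ m : ℕ, ¬ p ∣ m ∧ x ^ m = 1) := by
        intro x
        constructor
        · rintro ⟨k, hk, rfl⟩
          refine ⟨k.2, Nat.card K, hKp, ?_⟩
          exact congrArg (fun z : M => (z : G)) (pow_card_one K hk)
        · rintro ⟨hxM, m, hm, hxm⟩
          obtain ⟨⟨z, k⟩, hzk⟩ := (hK.existsUnique ⟨x, hxM⟩).exists
          have hx : x = ((z : M) : G) * ((k : M) : G) := by
            have := congrArg (fun z : M => (z : G)) hzk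
            simpa using this.symm
          have hzP : ((z : M) : G) ∈ P := z.2
          have hc : Commute ((z : M) : G) ((k : M) : G) :=
            hPW _ hzP _ (hMW (k : M).2)
          have hk1 : ((k : M) : G) ^ Nat.card K = 1 := by
            exact congrArg (fun z : M => (z : G)) (pow_card_one K k.2)
          have hz1 : ((z : M) : G) ^ (m * Nat.card K) = 1 := by
            have h3 : x ^ (m * Nat.card K) = 1 := by rw [pow_mul, hxm, one_pow]
            rw [hx, hc.mul_pow, mul_comm m, pow_mul ((k : M) : G), hk1, one_pow, mul_one] at h3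
            rw [mul_comm m]; exact h3
          have hz2 : ((z : M) : G) ^ (p ^ n) = 1 := by
            rw [← hn]
            exact pow_card_one P hzP
          have hz : ((z : M) : G) = 1 := by
            rw [← orderOf_eq_one_iff]
            refine Nat.eq_one_of_dvd_coprimes (Nat.Coprime.pow_left n
              ((Nat.Prime.coprime_iff_not_dvd hp.out).2 ?_)) (orderOf_dvd_of_pow_eq_one hz2)
              (orderOf_dvd_of_pow_eq_one hz1)
            intro h
            rcases hp.out.dvd_mul.1 h with h | h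
            · exact hm h
            · exact hKp h
          refine ⟨k, k.2, ?_⟩
          rw [hx, hz, one_mul]; rfl
      have hB1n : (K.map M.subtype).Normal := by
        constructor
        intro x hx g
        rw [hel] at hx ⊢
        obtain ⟨hxM, m, hm, hxm⟩ := hx
        refine ⟨hMn.conj_mem x hxM g, m, hm, ?_⟩
        rw [conj_pow, hxm]; simp
      have hB1c : Nat.card (K.map M.subtype) = Nat.card K :=
        card_map_of_injective M.subtype_injective
      have hBB1 : B ≤ K.map M.subtype := by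
        intro x hx
        rw [hel]
        refine ⟨hLM.le (hBL hx), Nat.card B, hBp, ?_⟩
        exact pow_card_one B hx
      have hB1W : K.map M.subtype ≤ W := by
        rintro _ ⟨k, _, rfl⟩
        exact hMW k.2
      have h1 := hBmax _ ⟨hB1n, hB1W, by rw [hB1c]; exact hKp⟩ hBB1
      apply not_le_of_gt hLM
      intro x hx
      obtain ⟨⟨z, k⟩, hzk⟩ := (hK.existsUnique ⟨x, hx⟩).exists
      have hx : x = ((z : M) : G) * ((k : M) : G) := by
        have := congrArg (fun z : M => (z : G)) hzk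
        simpa using this.symm
      rw [hx]
      exact L.mul_mem (hPL z.2) (hBL (h1 ⟨k, k.2, rfl⟩))
  rw [hLeq] at hP sP hLBP
  -- (F)
  have hF : ∀ x ∈ val G w, x ∈ (S : Subgroup G) → x = 1 := by
    intro x hx hxS
    refine hB P hPn hPp x hx ?_
    rw [hP]
    exact ⟨hxS, hWe ▸ val_le_ver hx⟩
  have hQ : Qs w (S : Subgroup G) = ⊥ := by
    rw [eq_bot_iff, Qs, closure_le]
    rintro x ⟨hx1, hx2⟩
    exact hF x hx1 hx2
  have hP0 : P ≠ ⊥ := by
    intro h0
    apply hno S
    rw [← hP, h0]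
    exact bot_le
  -- (G)
  have hmin : ∀ D : Subgroup G, D.Normal → D ≤ P → D = ⊥ ∨ D = P := by
    intro D hDn hDP
    by_cases h0 : D = ⊥
    · exact Or.inl h0
    · right
      refine le_antisymm hDP ?_
      have h1 := quot D (hPp.to_le hDP) (hq D hDn (hPp.to_le hDP) h0) S
      rw [hQ, bot_sup_eq, ← hWe, ← hP] at h1
      exact h1
  have hPS : P ≤ (S : Subgroup G) := by rw [hP]; exact inf_le_left
  have hWuv : W = ⁅ver G u, ver G v⁆ := by rw [hWe, hw, ver_comm]
  have hPW' : P ≤ W := by rw [hP]; exact inf_le_right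
  have hPu : P ≤ ver G u := hPW'.trans (hWuv ▸ commutator_le_left _ _)
  have hPv : P ≤ ver G v := hPW'.trans (hWuv ▸ commutator_le_right _ _)
  -- (H)
  have hU : ∀ x ∈ ver G u, ∀ y ∈ P, x * y = y * x :=
    cent S P hPS hPv (fun a ha b hb hab => hF _ (by rw [hw]; exact ⟨a, ha, b, hb, rfl⟩) hab)
      hmin (hv S)
  have hV : ∀ x ∈ ver G v, ∀ y ∈ P, x * y = y * x := by
    refine cent S P hPS hPu (fun a ha b hb hab => ?_) hmin (hu S)
    rw [← commutatorElement_inv] at hab ⊢
    rw [hF ⁅b, a⁆ (by rw [hw]; exact ⟨b, hb, a, ha, rfl⟩) (by simpa using inv_mem hab), inv_one]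
  -- (I)
  obtain ⟨π, hπ⟩ : ∃ π, π = QuotientGroup.mk' B := ⟨_, rfl⟩
  have hπs : Function.Surjective π := by rw [hπ]; exact QuotientGroup.mk'_surjective B
  have hπk : π.ker = B := by rw [hπ]; exact QuotientGroup.ker_mk' B
  have n1 : ((ver G u).map π).Normal := (ver_normal u).map π hπs
  have n2 : ((ver G v).map π).Normal := (ver_normal v).map π hπs
  have hWP : W.map π = P.map π := by
    apply le_antisymm
    · refine (map_mono hLBP).trans ?_
      rw [Subgroup.map_sup, (Subgroup.map_eq_bot_iff B).2 (hπk.ge), bot_sup_eq]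
    · exact map_mono hPW'
  have hfin : ⁅(ver G u).map π, (ver G v).map π⁆ = ⊥ := by
    refine fin_lemma (S.mapSurjective hπs) (P := P.map π) (hPp.map π) (map_mono hPu)
      (map_mono hPv) ?_ ?_ ?_ ?_
    · rw [← map_commutator, ← hWuv, hWP]
    · rintro _ ⟨x, hx, rfl⟩ _ ⟨y, hy, rfl⟩
      rw [← map_mul, ← map_mul, hU y hy x hx]
    · rintro _ ⟨x, hx, rfl⟩ _ ⟨y, hy, rfl⟩
      rw [← map_mul, ← map_mul, hV y hy x hx]
    · intro x hx hxS y hy hyS
      rw [Sylow.coe_mapSurjective] at hxS hyS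
      have h1 : x ∈ ((S : Subgroup G) ⊓ ver G u).map π := by rw [map_inf]; exact ⟨hxS, hx⟩
      have h2 : y ∈ ((S : Subgroup G) ⊓ ver G v).map π := by rw [map_inf]; exact ⟨hyS, hy⟩
      obtain ⟨a, ha, rfl⟩ := h1
      obtain ⟨b, hb, rfl⟩ := h2
      rw [← map_commutatorElement]
      have h3 : ⁅Qs u (S : Subgroup G), Qs v (S : Subgroup G)⁆ ≤ (⊥ : Subgroup G) := by
        apply closure_comm
        rintro a ⟨ha1, ha2⟩ b ⟨hb1, hb2⟩
        rw [mem_bot]
        refine hF _ (by rw [hw]; exact ⟨a, ha1, b, hb1, rfl⟩) ?_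
        exact commutator_le_self (S : Subgroup G) (commutator_mem_commutator ha2 hb2)
      rw [mem_bot.1 (h3 (commutator_mem_commutator (hu S ha) (hv S hb))), map_one]
  rw [← map_commutator, ← hWuv, Subgroup.map_eq_bot_iff, hπk] at hfin
  apply hP0
  rw [← pgroup_inf hPp hBp]
  exact (inf_eq_left.2 (hPW'.trans hfin)).symm

end core

end Pool.Agent.Work.MP_8aaf67_al.SR
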