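import Pool.Agent.Work.MP_8aaf67_al.SR.Red

/-!
# The reduction theorem
-/

set_option autoImplicit false

namespace Pool.Agent.Work.MP_8aaf67_al.SR

open Subgroup
open scoped commutatorElement

/-- The groups to which the problem is reduced. -/
structure Base (p : ℕ) (E : Type*) [Group E] : Prop where
  perfect : commutator E = ⊤
  simple : IsSimpleGroup (E ⧸ frattini E)
  dvd : p ∣ Nat.card (E ⧸ frattini E)
  coprime : ¬ p ∣ Nat.card (frattini E)

section main

variable {G : Type*} [Group G] {p : ℕ} [hp : Fact p.Prime]

omit hp in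
theorem DS_stab [Finite G] (M : Subgroup G) : ∃ n, ⁅DS M n, DS M n⁆ = DS M n := by
  by_contra hcon
  push Not at hcon
  have hle : ∀ n, DS M (n + 1) ≤ DS M n := by
    intro n
    rw [DS]; exact commutator_le_self _
  have h : ∀ n, Nat.card (DS M n) + n ≤ Nat.card G := by
    intro n
    induction n with
    | zero => exact card_le_card_group _
    | succ n ih =>
      have h1 : Nat.card (DS M (n + 1)) < Nat.card (DS M n) := by
        have h2 : Nat.card (DS M (n + 1)) ≤ Nat.card (DS M n) := card_le_of_le (hle n)
        refine lt_of_le_of_ne h2 fun he => hcon n ?_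
        exact eq_of_le_of_card_ge (hle n) he.ge
      omega
  have := h (Nat.card G + 1)
  omega

theorem perf_base [Finite G] [Nontrivial G] {w : MW} (hG : commutator G = ⊤)
    (hs : ∀ K : Subgroup G, K ≠ ⊤ → Good p K w)
    (hno : ∀ D : Subgroup G, D.Normal → IsPGroup p D → D = ⊥) (hng : ¬ Good p G w) :
    Base p G := by
  obtain ⟨S⟩ : Nonempty (Sylow p G) := inferInstance
  have hB : ∀ B : Subgroup G, B.Normal → ¬ p ∣ Nat.card B → B ≤ frattini G := by
    intro B hBn hBp
    rw [frattini, Order.radical]
    refine le_iInf₂ fun K hK => ?_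
    by_contra hBK
    have hBK' : B ⊔ K = ⊤ := by
      apply hK.2
      exact lt_of_le_of_ne le_sup_right fun he => hBK (he ▸ le_sup_left)
    obtain ⟨S', hS'⟩ := supp B K hBK' (hs K hK.1)
    rw [pgroup_inf S'.isPGroup' hBp, sup_bot_eq] at hS'
    exact hng (good_of_exists ⟨S', hS'⟩)
  have hnon : ∀ K : Subgroup G, K ⊔ frattini G = ⊤ → K = ⊤ := fun K hK =>
    frattini_nongenerating hK
  have hΦp : ¬ p ∣ Nat.card (frattini G) := by
    have sP : IsSyl p ((S : Subgroup G) ⊓ frattini G) (frattini G) :=
      (isSyl_top S).inf_normal inferInstance le_top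
    have h1 := hnon _ sP.frattini
    have h2 := hno _ (normalizer_eq_top_iff.1 h1) sP.2.1
    have h3 := sP.2.2
    rwa [h2, relIndex_bot_left] at h3
  have hM : ∀ M : Subgroup G, M.Normal → ¬ M ≤ frattini G → M = ⊤ := by
    intro M hMn hMΦ
    by_contra hM1
    by_cases hsol : Group.IsSolvable M
    · obtain ⟨N, hNn, hLN, hNM, hN⟩ := solv_pser (p := p) M hsol (M ⊓ frattini G)
        inferInstance (lt_of_le_of_ne inf_le_left fun he => hMΦ (he ▸ inf_le_right))
      have hNΦ : ¬ N ≤ frattini G := fun h => not_le_of_gt hLN (le_inf hNM h)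
      rcases hN with ⟨k, hk⟩ | hN
      · have sP : IsSyl p ((S : Subgroup G) ⊓ N) N := (isSyl_top S).inf_normal hNn le_top
        have hNLP : N ≤ (M ⊓ frattini G) ⊔ ((S : Subgroup G) ⊓ N) := by
          rw [← relIndex_eq_one]
          have h1 := hk ▸ relIndex_dvd_of_le_left N
            (le_sup_left : (M ⊓ frattini G) ≤ (M ⊓ frattini G) ⊔ ((S : Subgroup G) ⊓ N))
          have h2 := relIndex_dvd_of_le_left N
            (le_sup_right : ((S : Subgroup G) ⊓ N) ≤ (M ⊓ frattini G) ⊔ ((S : Subgroup G) ⊓ N))
          exact Nat.eq_one_of_dvd_coprimes (Nat.Coprime.pow_left k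
            ((Nat.Prime.coprime_iff_not_dvd hp.out).2 sP.2.2)) h1 h2
        have h2 : normalizer (((S : Subgroup G) ⊓ N : Subgroup G) : Set G) ⊔ frattini G = ⊤ := by
          rw [eq_top_iff, ← sP.frattini]
          refine sup_le le_sup_left (hNLP.trans (sup_le ?_ ?_))
          · exact inf_le_right.trans le_sup_right
          · exact le_normalizer.trans le_sup_left
        have h3 := hno _ (normalizer_eq_top_iff.1 (hnon _ h2)) sP.2.1
        rw [h3, sup_bot_eq] at hNLP
        exact not_le_of_gt hLN hNLP
      · apply hNΦ
        apply hB N hNn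
        have h1 : Nat.card N = Nat.card (M ⊓ frattini G : Subgroup G) *
            (M ⊓ frattini G).relIndex N := by
          rw [← relIndex_bot_left, ← relIndex_bot_left, relIndex_mul_relIndex _ _ _ bot_le hLN.le]
        rw [h1]
        intro h
        rcases hp.out.dvd_mul.1 h with h | h
        · exact hΦp (h.trans (card_dvd_of_le inf_le_right))
        · exact hN h
    · obtain ⟨n, hn⟩ := DS_stab M
      have := DS_normal M n
      apply hng
      refine perf_normal hs (DS M n) hn ?_ ?_
      · intro h0
        apply hsol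
        refine ⟨n, ?_⟩
        rw [DS_eq] at h0
        exact map_injective M.subtype_injective (by rw [h0, Subgroup.map_bot])
      · intro h1
        apply hM1
        rw [eq_top_iff, ← h1]
        exact DS_le M n
  refine ⟨hG, ?_, ?_, hΦp⟩
  · have hne : frattini G ≠ ⊤ := by
      intro h
      have h1 := hnon ⊥ (by rw [h, bot_sup_eq])
      exact bot_ne_top h1
    have hnt : Nontrivial (G ⧸ frattini G) := QuotientGroup.nontrivial_iff.2 hne
    refine { toNontrivial := hnt, eq_bot_or_eq_top_of_normal := ?_ }
    intro H hH
    have hs' := QuotientGroup.mk'_surjective (frattini G)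
    by_cases hle : H.comap (QuotientGroup.mk' (frattini G)) ≤ frattini G
    · left
      rw [eq_bot_iff]
      intro z hz
      obtain ⟨x, rfl⟩ := hs' z
      have h1 : x ∈ frattini G := hle hz
      rw [mem_bot]
      exact (QuotientGroup.eq_one_iff x).2 h1
    · right
      have h1 := hM _ (hH.comap _) hle
      rw [eq_top_iff]
      intro z _
      obtain ⟨x, rfl⟩ := hs' z
      have : x ∈ H.comap (QuotientGroup.mk' (frattini G)) := h1 ▸ mem_top x
      exact this
  · by_contra hnd
    apply hng
    refine good_of_exists ⟨S, ?_⟩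
    have h1 : ¬ p ∣ Nat.card G := by
      rw [card_eq_card_quotient_mul_card_subgroup (frattini G)]
      intro h
      rcases hp.out.dvd_mul.1 h with h | h
      · exact hnd h
      · exact hΦp h
    have h2 : (S : Subgroup G) = ⊥ := by
      have := pgroup_inf (A := (S : Subgroup G)) (B := (⊤ : Subgroup G)) S.isPGroup'
        (by rwa [card_top])
      rwa [inf_top_eq] at this
    rw [h2, bot_inf_eq]
    exact bot_le

end main

/-- **The reduction theorem.** -/
theorem reduction {p : ℕ} [hp : Fact p.Prime] (C : ∀ (G : Type) [Group G], Prop)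
    (hsub : ∀ (G : Type) [Group G] (K : Subgroup G), C G → C K)
    (hquot : ∀ (G : Type) [Group G] (N : Subgroup G) [N.Normal], C G → C (G ⧸ N))
    (hbase : ∀ (E : Type) [Group E] [Finite E], C E → Base p E → ∀ w, Good p E w) :
    ∀ (w : MW) (n : ℕ) (G : Type) [Group G] [Finite G], C G → Nat.card G = n → Good p G w := by
  intro w
  induction w with
  | var =>
    intro n G _ _ _ _ S x hx
    exact Subgroup.subset_closure ⟨Set.mem_univ _, hx.1⟩
  | comm u v hu hv =>
    intro n
    induction n using Nat.strong_induction_on with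
    | _ n ih =>
      intro G _ _ hG hn
      have hq : ∀ D : Subgroup G, ∀ _ : D.Normal, IsPGroup p D → D ≠ ⊥ →
          Good p (G ⧸ D) (.comm u v) := by
        intro D hD hDp hD0
        refine ih _ ?_ (G ⧸ D) (hquot G D hG) rfl
        have h1 := card_mul_index D
        have h2 : 1 < Nat.card D := by
          have : Nat.card D ≠ 1 := fun h => hD0 ((card_eq_one).1 h)
          have := Nat.card_pos (α := D)
          omega
        have h3 : Nat.card (G ⧸ D) = D.index := rfl
        have h4 : 0 < D.index := Nat.pos_of_ne_zero index_ne_zero_of_finite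
        rw [h3, ← hn, ← h1]
        nlinarith
      have hs : ∀ K : Subgroup G, K ≠ ⊤ → Good p K (.comm u v) := by
        intro K hK
        refine ih _ ?_ K (hsub G K hG) rfl
        rw [← hn]
        exact lt_of_le_of_ne (card_le_card_group K) fun h => hK (card_eq_iff_eq_top K |>.1 h)
      by_cases hsol : Group.IsSolvable G
      · exact core hq hs (hu _ G hG rfl) (hv _ G hG rfl) (solv_pser _ inferInstance)
      have hDS : ∀ n, DS (⊤ : Subgroup G) n = derivedSeries G n := by
        intro n
        induction n with
        | zero => rfl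
        | succ n ih => rw [DS, ih, derivedSeries_succ]
      obtain ⟨m, hm⟩ := DS_stab (⊤ : Subgroup G)
      have hmn := DS_normal (⊤ : Subgroup G) m
      have hR0 : DS (⊤ : Subgroup G) m ≠ ⊥ := by
        intro h0
        rw [hDS] at h0
        exact hsol ⟨m, h0⟩
      by_cases hR1 : DS (⊤ : Subgroup G) m = ⊤
      · rw [hR1] at hm hR0
        have hperf : commutator G = ⊤ := hm
        have hnt : Nontrivial G := by
          by_contra hcon
          rw [not_nontrivial_iff_subsingleton] at hcon
          exact hR0 (Subsingleton.elim _ _)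
        by_cases hD : ∃ D : Subgroup G, D.Normal ∧ IsPGroup p D ∧ D ≠ ⊥
        · obtain ⟨D, hDn, hDp, hD0⟩ := hD
          exact perf_pnormal hperf hq D hDp hD0
        · push Not at hD
          by_contra hng
          exact hng (hbase G hG (perf_base hperf hs hD hng) _)
      · exact perf_normal hs _ hm hR0 hR1

end Pool.Agent.Work.MP_8aaf67_al.SR
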