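import Pool.Agent.Work.MP_8aaf67_al.SR.Gamma
import Pool.Agent.Work.MP_8aaf67_al.SR.Main

/-!
# Simple groups whose elements are commutators of generating pairs
-/

set_option autoImplicit false

namespace Pool.Agent.Work.MP_8aaf67_al.SR

open Subgroup
open scoped commutatorElement

/-- Values of the word obtained from generating pairs modulo the kernel of `π`. -/
def NV {E T : Type*} [Group E] [Group T] (π : E →* T) (Y : Set T) : MW → Set E
  | .var => {x | π x ∈ Y}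
  | .comm u v => {x | ∃ a ∈ NV π Y u, ∃ b ∈ NV π Y v, closure {π a, π b} = ⊤ ∧ x = ⁅a, b⁆}

section nv

variable {E T : Type*} [Group E] [Group T]

theorem NV_val (π : E →* T) (Y : Set T) (w : MW) : ∀ x ∈ NV π Y w, x ∈ val E w := by
  induction w with
  | var => intro x _; exact Set.mem_univ _
  | comm u v hu hv =>
    rintro x ⟨a, ha, b, hb, -, rfl⟩
    exact ⟨a, hu a ha, b, hv b hb, rfl⟩

theorem NV_surj (π : E →* T) (hπ : Function.Surjective π) (Y : Set T)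
    (hY : ∀ t ∈ Y, ∃ a ∈ Y, ∃ b ∈ Y, closure {a, b} = ⊤ ∧ t = ⁅a, b⁆) (w : MW) :
    ∀ t ∈ Y, ∃ x ∈ NV π Y w, π x = t := by
  induction w with
  | var =>
    intro t ht
    obtain ⟨x, rfl⟩ := hπ t
    exact ⟨x, ht, rfl⟩
  | comm u v hu hv =>
    intro t ht
    obtain ⟨a, ha, b, hb, hab, rfl⟩ := hY t ht
    obtain ⟨a', ha', rfl⟩ := hu a ha
    obtain ⟨b', hb', rfl⟩ := hv b hb
    exact ⟨⁅a', b'⁆, ⟨a', ha', b', hb', hab, rfl⟩, map_commutatorElement π a' b'⟩

theorem NV_lift {E' : Type*} [Group E'] (π : E →* T) (π' : E' →* T) (ρ : E →* E')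
    (hρ : Function.Surjective ρ) (h : ∀ x, π' (ρ x) = π x) (Y : Set T) (w : MW) :
    ∀ y ∈ NV π' Y w, ∃ x ∈ NV π Y w, ρ x = y := by
  induction w with
  | var =>
    intro y hy
    obtain ⟨x, rfl⟩ := hρ y
    refine ⟨x, ?_, rfl⟩
    change π' (ρ x) ∈ Y at hy
    rw [h] at hy
    exact hy
  | comm u v hu hv =>
    rintro y ⟨a, ha, b, hb, hab, rfl⟩
    obtain ⟨a', ha', rfl⟩ := hu a ha
    obtain ⟨b', hb', rfl⟩ := hv b hb
    rw [h, h] at hab
    exact ⟨⁅a', b'⁆, ⟨a', ha', b', hb', hab, rfl⟩, map_commutatorElement ρ a' b'⟩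

/-- Commutators of generating pairs fill cosets of noncentral minimal normal subgroups. -/
theorem fill (C : Subgroup E) [hC : C.Normal] (hab : ∀ x ∈ C, ∀ y ∈ C, x * y = y * x)
    (hmin : ∀ M : Subgroup E, M.Normal → M ≤ C → M = ⊥ ∨ M = C)
    (hnc : ∃ x ∈ C, ∃ y : E, x * y ≠ y * x) (a b : E) (hE : closure {a, b} = ⊤) :
    ∀ c ∈ C, ∃ c₁ ∈ C, ∃ c₂ ∈ C, c * ⁅a, b⁆ = ⁅a * c₁, b * c₂⁆ := by
  have hcj : ∀ g : E, ∀ c ∈ C, g * c * g⁻¹ ∈ C := fun g c hc => hC.conj_mem c hc g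
  have hcj' : ∀ g : E, ∀ c ∈ C, g⁻¹ * c * g ∈ C := by
    intro g c hc
    have := hC.conj_mem c hc g⁻¹
    rwa [inv_inv] at this
  have hmem : ∀ g : E, ∀ c ∈ C, ⁅c, g⁆ ∈ C := by
    intro g c hc
    have h1 : ⁅c, g⁆ = c * (g * c⁻¹ * g⁻¹) := by rw [commutatorElement_def]; group
    rw [h1]
    exact C.mul_mem hc (hcj g _ (C.inv_mem hc))
  have hmul : ∀ g : E, ∀ c ∈ C, ∀ d ∈ C, ⁅c * d, g⁆ = ⁅c, g⁆ * ⁅d, g⁆ := by
    intro g c hc d hd
    have h1 : ⁅c * d, g⁆ = c * ⁅d, g⁆ * (g * c⁻¹ * g⁻¹) := by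
      simp only [commutatorElement_def]; group
    rw [h1, mul_assoc, hab _ (hmem g d hd) _ (hcj g _ (C.inv_mem hc)), ← mul_assoc]
    simp only [commutatorElement_def]; group
  have hinv : ∀ g : E, ∀ c ∈ C, ⁅c⁻¹, g⁆ = ⁅c, g⁆⁻¹ := by
    intro g c hc
    rw [eq_inv_iff_mul_eq_one, ← hmul g _ (C.inv_mem hc) _ hc]
    simp
  obtain ⟨M, hM⟩ : ∃ M : Subgroup E, ∀ m, m ∈ M ↔ ∃ c₁ ∈ C, ∃ c₂ ∈ C, m = ⁅c₁, b⁻¹⁆ * ⁅c₂, a⁻¹⁆ :=
    ⟨{ carrier := {m | ∃ c₁ ∈ C, ∃ c₂ ∈ C, m = ⁅c₁, b⁻¹⁆ * ⁅c₂, a⁻¹⁆}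
       mul_mem' := by
         rintro _ _ ⟨c₁, h1, c₂, h2, rfl⟩ ⟨d₁, k1, d₂, k2, rfl⟩
         refine ⟨c₁ * d₁, C.mul_mem h1 k1, c₂ * d₂, C.mul_mem h2 k2, ?_⟩
         rw [hmul _ _ h1 _ k1, hmul _ _ h2 _ k2]
         have := hab _ (hmem b⁻¹ d₁ k1) _ (hmem a⁻¹ c₂ h2)
         rw [mul_assoc, mul_assoc, ← mul_assoc ⁅c₂, a⁻¹⁆, ← mul_assoc ⁅d₁, b⁻¹⁆, this]
       one_mem' := ⟨1, C.one_mem, 1, C.one_mem, by simp⟩
       inv_mem' := by
         rintro _ ⟨c₁, h1, c₂, h2, rfl⟩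
         refine ⟨c₁⁻¹, C.inv_mem h1, c₂⁻¹, C.inv_mem h2, ?_⟩
         rw [hinv _ _ h1, hinv _ _ h2, mul_inv_rev,
           hab _ (C.inv_mem (hmem _ _ h2)) _ (C.inv_mem (hmem _ _ h1))] }, fun _ => Iff.rfl⟩
  have hMC : M ≤ C := by
    intro m hm
    obtain ⟨c₁, h1, c₂, h2, rfl⟩ := (hM m).1 hm
    exact C.mul_mem (hmem _ _ h1) (hmem _ _ h2)
  have hb1 : ∀ c ∈ C, ⁅c, b⁻¹⁆ ∈ M := fun c hc => (hM _).2 ⟨c, hc, 1, C.one_mem, by simp⟩
  have ha1 : ∀ c ∈ C, ⁅c, a⁻¹⁆ ∈ M := fun c hc => (hM _).2 ⟨1, C.one_mem, c, hc, by simp⟩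
  have hflip : ∀ g : E, (∀ c ∈ C, ⁅c, g⁻¹⁆ ∈ M) → ∀ c ∈ C, ⁅c, g⁆ ∈ M := by
    intro g hg c hc
    have h1 := hg (g * c⁻¹ * g⁻¹) (hcj g _ (C.inv_mem hc))
    have h2 : ⁅g * c⁻¹ * g⁻¹, g⁻¹⁆ = (g * c⁻¹ * g⁻¹) * c := by
      simp only [commutatorElement_def]; group
    rw [h2, hab _ (hcj g _ (C.inv_mem hc)) _ hc] at h1
    have h3 : ⁅c, g⁆ = c * (g * c⁻¹ * g⁻¹) := by rw [commutatorElement_def]; group
    rw [h3]; exact h1
  have hcomm : ∀ g : E, ∀ c ∈ C, ⁅c, g⁆ ∈ M := by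
    obtain ⟨L, hL⟩ : ∃ L : Subgroup E, ∀ g, g ∈ L ↔ ∀ c ∈ C, ⁅c, g⁆ ∈ M :=
      ⟨{ carrier := {g | ∀ c ∈ C, ⁅c, g⁆ ∈ M}
         mul_mem' := by
           intro g h hg hh c hc
           have h1 : ⁅c, g * h⁆ = ⁅c, g⁆ * ⁅g * c * g⁻¹, g * h * g⁻¹⁆ := by
             simp only [commutatorElement_def]; group
           have h2 : ⁅c, g * h⁆ = ⁅c, g⁆ * ((g * c * g⁻¹) * (g * (h * c⁻¹ * h⁻¹) * g⁻¹)) := by
             simp only [commutatorElement_def]; group
           have h3 : ⁅c, g * h⁆ = ⁅c, g⁆ * (⁅c, h⁆ * ⁅⁅c, h⁆⁻¹, g⁆) := by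
             simp only [commutatorElement_def]; group
           rw [h3]
           exact M.mul_mem (hg c hc) (M.mul_mem (hh c hc) (hg _ (C.inv_mem (hmem h c hc))))
         one_mem' := by
           intro c _
           simp
         inv_mem' := by
           intro g hg
           exact hflip g⁻¹ (by rw [inv_inv]; exact hg) }, fun _ => Iff.rfl⟩
    have hLt : L = ⊤ := by
      rw [← top_le_iff, ← hE, closure_le]
      rintro g (rfl | hg)
      · exact (hL _).2 (hflip _ ha1)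
      · rw [Set.mem_singleton_iff] at hg
        rw [hg]
        exact (hL _).2 (hflip _ hb1)
    intro g
    rw [← hL, hLt]
    exact mem_top g
  have hMn : M.Normal := by
    constructor
    intro m hm g
    have h1 : g * m * g⁻¹ = m * ⁅m⁻¹, g⁆ := by simp only [commutatorElement_def]; group
    rw [h1]
    exact M.mul_mem hm (hcomm g _ (C.inv_mem (hMC hm)))
  rcases hmin M hMn hMC with h0 | h0
  · exfalso
    obtain ⟨x, hx, y, hxy⟩ := hnc
    have := hcomm y x hx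
    rw [h0, mem_bot, commutatorElement_eq_one_iff_mul_comm] at this
    exact hxy this
  · intro c hc
    have h1 : (a * b)⁻¹ * c * (a * b) ∈ M := by
      rw [h0]; exact hcj' _ c hc
    obtain ⟨c₁, k1, c₂, k2, hk⟩ := (hM _).1 h1
    refine ⟨c₁⁻¹, C.inv_mem k1, c₂, k2, ?_⟩
    have h2 : c = (a * b) * (⁅c₁, b⁻¹⁆ * ⁅c₂, a⁻¹⁆) * (a * b)⁻¹ := by
      rw [← hk]; group
    have h3 := hab _ k1 _ k2
    have h4 : ⁅a * c₁⁻¹, b * c₂⁆ = a * c₁⁻¹ * b * (c₂ * c₁) * a⁻¹ * c₂⁻¹ * b⁻¹ := by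
      simp only [commutatorElement_def]; group
    rw [h4, ← h3, h2]
    have h5 := hab _ (hcj b⁻¹ _ (C.inv_mem k1)) _ k1
    simp only [inv_inv] at h5
    have h6 : ⁅c₁, b⁻¹⁆ = b⁻¹ * c₁⁻¹ * b * c₁ := by
      rw [h5, commutatorElement_def]; group
    rw [h6]
    simp only [commutatorElement_def]; group

theorem NV_mul [Finite E] (π : E →* T) (hK : π.ker ≤ frattini E) (Y : Set T)
    (C : Subgroup E) [hC : C.Normal] (hCK : C ≤ π.ker) (hab : ∀ x ∈ C, ∀ y ∈ C, x * y = y * x)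
    (hmin : ∀ M : Subgroup E, M.Normal → M ≤ C → M = ⊥ ∨ M = C)
    (hnc : ∃ x ∈ C, ∃ y : E, x * y ≠ y * x) (w : MW) :
    ∀ x ∈ NV π Y w, ∀ c ∈ C, c * x ∈ NV π Y w := by
  induction w with
  | var =>
    intro x hx c hc
    change π (c * x) ∈ Y
    rw [map_mul, hCK hc, one_mul]
    exact hx
  | comm u v hu hv =>
    rintro x ⟨a, ha, b, hb, hT, rfl⟩ c hc
    have hE : closure {a, b} = ⊤ := by
      apply frattini_nongenerating
      rw [← top_le_iff]
      have h1 : (closure {a, b}).map π = ⊤ := by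
        rw [MonoidHom.map_closure, Set.image_pair, hT]
      intro x _
      have h2 : π x ∈ (closure {a, b}).map π := by rw [h1]; exact mem_top _
      obtain ⟨y, hy, hyx⟩ := h2
      have h3 : y⁻¹ * x ∈ π.ker := by
        rw [MonoidHom.mem_ker, map_mul, map_inv, hyx, inv_mul_cancel]
      have h4 : x = y * (y⁻¹ * x) := by group
      rw [h4]
      exact mul_mem_sup hy (hK h3)
    obtain ⟨c₁, k1, c₂, k2, hk⟩ := fill C hab hmin hnc a b hE c hc
    have e1 : a * c₁ = (a * c₁ * a⁻¹) * a := by group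
    have e2 : b * c₂ = (b * c₂ * b⁻¹) * b := by group
    refine ⟨a * c₁, ?_, b * c₂, ?_, ?_, hk⟩
    · rw [e1]; exact hu a ha _ (hC.conj_mem _ k1 a)
    · rw [e2]; exact hv b hb _ (hC.conj_mem _ k2 b)
    · rw [map_mul, map_mul, hCK k1, hCK k2, mul_one, mul_one, hT]

end nv

section norm

variable {p : ℕ} [hp : Fact p.Prime]

/-- Conjugacy of Sylow subgroups of a subgroup. -/
theorem IsSyl.conj {G : Type*} [Group G] [Finite G] {P Q M : Subgroup G} (hP : IsSyl p P M)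
    (hQ : IsSyl p Q M) : ∃ y ∈ M, ∀ x, x ∈ P → y * x * y⁻¹ ∈ Q := by
  obtain ⟨S, hS⟩ : ∃ S : Sylow p M, (S : Subgroup M) = P.subgroupOf M :=
    ⟨(hP.2.1.comap_subtype : IsPGroup p (P.subgroupOf M)).toSylow (by exact hP.2.2), by simp⟩
  obtain ⟨T, hT⟩ : ∃ T : Sylow p M, (T : Subgroup M) = Q.subgroupOf M :=
    ⟨(hQ.2.1.comap_subtype : IsPGroup p (Q.subgroupOf M)).toSylow (by exact hQ.2.2), by simp⟩
  obtain ⟨g, hg⟩ := MulAction.exists_smul_eq M S T
  refine ⟨g, g.2, fun x hx => ?_⟩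
  have h1 : (⟨x, hP.1 hx⟩ : M) ∈ (S : Subgroup M) := by rw [hS]; exact hx
  have h2 : g * ⟨x, hP.1 hx⟩ * g⁻¹ ∈ ((g • S : Sylow p M) : Subgroup M) := by
    refine ⟨⟨x, hP.1 hx⟩, h1, ?_⟩
    rfl
  rw [hg, hT] at h2
  exact h2

/-- A subgroup with a conjugate inside it normalises. -/
theorem norm_of_le {G : Type*} [Group G] [Finite G] {R : Subgroup G} {g : G}
    (h : ∀ x ∈ R, g * x * g⁻¹ ∈ R) : g ∈ normalizer (R : Set G) := by
  have h1 : R.map (MulAut.conj g).toMonoidHom = R := by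
    apply Subgroup.eq_of_le_of_card_ge
    · rintro _ ⟨x, hx, rfl⟩
      exact h x hx
    · rw [Nat.card_congr (R.equivMapOfInjective (MulAut.conj g).toMonoidHom
        (MulAut.conj g).injective).toEquiv]
  rw [mem_normalizer_iff]
  intro x
  refine ⟨h x, fun hx => ?_⟩
  rw [← h1] at hx
  obtain ⟨y, hy, hyx⟩ := hx
  have h2 : g * y * g⁻¹ = g * x * g⁻¹ := hyx
  have h3 : y = x := by
    have := congrArg (fun z => g⁻¹ * z * g) h2
    simpa [mul_assoc] using this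
  rw [← h3]; exact hy

/-- The Frattini argument. -/
theorem adj {E : Type*} [Group E] [Finite E] {R C : Subgroup E} [hCn : C.Normal]
    (hR : IsPGroup p R) (hpC : ¬ p ∣ Nat.card C) (x : E)
    (hx1 : ∀ r ∈ R, x * r * x⁻¹ ∈ R ⊔ C) : ∃ c ∈ C, ∀ r ∈ R, (c * x) * r * (c * x)⁻¹ ∈ R := by
  have hRs : IsSyl p R (R ⊔ C) := by
    refine ⟨le_sup_left, hR, ?_⟩
    have h1 := relIndex_mul_relIndex (R ⊓ C) C (R ⊔ C) inf_le_right le_sup_right
    have h2 := relIndex_mul_relIndex (R ⊓ C) R (R ⊔ C) inf_le_left le_sup_left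
    rw [inf_relIndex_left] at h2
    rw [relIndex_sup_right] at h1
    have h3 : C.relIndex R ≠ 0 := by
      have := relIndex_dvd_card C R
      intro h0
      rw [h0, zero_dvd_iff] at this
      exact Nat.card_pos.ne' this
    have h4 : (R ⊓ C).relIndex C = R.relIndex (R ⊔ C) := by
      apply Nat.eq_of_mul_eq_mul_right (Nat.pos_of_ne_zero h3)
      rw [h1, ← h2, mul_comm]
    rw [← h4]
    exact fun h => hpC (h.trans (relIndex_dvd_card _ _))
  obtain ⟨R', hR'⟩ : ∃ R' : Subgroup E, R' = R.map (MulAut.conj x).toMonoidHom := ⟨_, rfl⟩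
  have hRs' : IsSyl p R' (R ⊔ C) := by
    refine ⟨?_, ?_, ?_⟩
    · rw [hR']
      rintro _ ⟨r, hr, rfl⟩
      exact hx1 r hr
    · rw [hR']; exact hR.map _
    · have h1 : Nat.card R' = Nat.card R := by
        rw [hR', ← Nat.card_congr (R.equivMapOfInjective (MulAut.conj x).toMonoidHom
          (MulAut.conj x).injective).toEquiv]
      have h2 : R' ≤ R ⊔ C := by
        rw [hR']
        rintro _ ⟨r, hr, rfl⟩
        exact hx1 r hr
      have h3 : R'.relIndex (R ⊔ C) = R.relIndex (R ⊔ C) := by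
        have h4 := card_mul_index (R'.subgroupOf (R ⊔ C))
        have h5 := card_mul_index (R.subgroupOf (R ⊔ C))
        rw [Nat.card_congr (subgroupOfEquivOfLe h2).toEquiv, h1] at h4
        rw [Nat.card_congr (subgroupOfEquivOfLe (le_sup_left : R ≤ R ⊔ C)).toEquiv, ← h4] at h5
        exact Nat.eq_of_mul_eq_mul_left Nat.card_pos h5.symm
      rw [h3]
      exact hRs.2.2
  obtain ⟨y, hy, hyR⟩ := hRs'.conj hRs
  have hyx : ∀ r ∈ R, (y * x) * r * (y * x)⁻¹ ∈ R := by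
    intro r hr
    have h1 := hyR (x * r * x⁻¹) (by rw [hR']; exact ⟨r, hr, rfl⟩)
    have h2 : (y * x) * r * (y * x)⁻¹ = y * (x * r * x⁻¹) * y⁻¹ := by group
    rw [h2]; exact h1
  rw [mem_sup_of_normal_right] at hy
  obtain ⟨s, hs, c, hc, rfl⟩ := hy
  refine ⟨c, hc, fun r hr => ?_⟩
  have h1 := hyx r hr
  have h2 : (c * x) * r * (c * x)⁻¹ = s⁻¹ * ((s * c * x) * r * (s * c * x)⁻¹) * s := by group
  rw [h2]
  exact R.mul_mem (R.mul_mem (R.inv_mem hs) h1) hs

theorem NV_norm {T : Type} [Group T] (Y : Set T)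
    (hY : ∀ t ∈ Y, ∃ a ∈ Y, ∃ b ∈ Y, closure {a, b} = ⊤ ∧ t = ⁅a, b⁆) (w : MW) :
    ∀ n : ℕ, ∀ (E : Type) [Group E] [Finite E] (π : E →* T), Function.Surjective π →
      π.ker ≤ frattini E → ¬ p ∣ Nat.card π.ker → Nat.card π.ker = n →
      ∀ R : Subgroup E, IsPGroup p R → ∀ h ∈ normalizer (R : Set E), π h ∈ Y →
      ∃ x ∈ NV π Y w, x ∈ normalizer (R : Set E) ∧ π x = π h := by
  intro n
  induction n using Nat.strong_induction_on with
  | _ n ih =>
    intro E _ _ π hπ hK hpK hn R hR h hh hhY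
    by_cases hker : π.ker = ⊥
    · obtain ⟨x, hx, hxh⟩ := NV_surj π hπ Y hY w _ hhY
      have h1 : x = h := (MonoidHom.ker_eq_bot_iff π).1 hker hxh
      exact ⟨x, hx, h1 ▸ hh, hxh⟩
    -- a minimal normal subgroup in the kernel
    obtain ⟨C, ⟨hCn, hCK, hC0⟩, hCmin⟩ : ∃ C : Subgroup E, (C.Normal ∧ C ≤ π.ker ∧ C ≠ ⊥) ∧
        ∀ M : Subgroup E, (M.Normal ∧ M ≤ π.ker ∧ M ≠ ⊥) → M ≤ C → C ≤ M := by
      obtain ⟨C, hC⟩ := (Set.toFinite {C : Subgroup E | C.Normal ∧ C ≤ π.ker ∧ C ≠ ⊥}).exists_minimal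
        ⟨π.ker, inferInstance, le_rfl, hker⟩
      exact ⟨C, hC.prop, fun M hM hMC => hC.le_of_le hM hMC⟩
    have hmin : ∀ M : Subgroup E, M.Normal → M ≤ C → M = ⊥ ∨ M = C := by
      intro M hM hMC
      by_cases h0 : M = ⊥
      · exact Or.inl h0
      · exact Or.inr (le_antisymm hMC (hCmin M ⟨hM, hMC.trans hCK, h0⟩ hMC))
    -- it is abelian
    have hCab : ⁅C, C⁆ = ⊥ := by
      rcases hmin ⁅C, C⁆ inferInstance (commutator_le_self C) with h0 | h0
      · exact h0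
      · exfalso
        have : Group.IsNilpotent (frattini E) := frattini_nilpotent
        have hs : Group.IsSolvable (frattini E) := inferInstance
        have hsC : Group.IsSolvable C :=
          Group.isSolvable_of_isSolvable_injective (f := inclusion (hCK.trans hK))
            (inclusion_injective (hCK.trans hK))
        have hnt : Nontrivial C := (nontrivial_iff_ne_bot C).2 hC0
        have h1 := Group.IsSolvable.commutator_lt_top_of_nontrivial C
        apply h1.ne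
        have h2 : (commutator C).map C.subtype = ⁅C, C⁆ := map_subtype_commutator C
        rw [h0] at h2
        apply map_injective C.subtype_injective
        rw [h2, ← MonoidHom.range_eq_map, range_subtype]
    have hab : ∀ x ∈ C, ∀ y ∈ C, x * y = y * x := by
      intro x hx y hy
      have h1 := commutator_mem_commutator hx hy
      rw [hCab, mem_bot, commutatorElement_eq_one_iff_mul_comm] at h1
      exact h1
    -- the quotient
    obtain ⟨ρ, hρ⟩ : ∃ ρ : E →* E ⧸ C, ρ = QuotientGroup.mk' C := ⟨_, rfl⟩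
    have hρs : Function.Surjective ρ := by rw [hρ]; exact QuotientGroup.mk'_surjective C
    have hρk : ∀ x, ρ x = 1 ↔ x ∈ C := by
      intro x; rw [hρ]; exact QuotientGroup.eq_one_iff x
    obtain ⟨π', hπ'⟩ : ∃ π' : E ⧸ C →* T, ∀ x, π' (ρ x) = π x :=
      ⟨QuotientGroup.lift C π fun x hx => hCK hx, fun x => by rw [hρ]; rfl⟩
    have hπ's : Function.Surjective π' := by
      intro t
      obtain ⟨x, rfl⟩ := hπ t
      exact ⟨ρ x, hπ' x⟩
    have hk' : π'.ker = π.ker.map ρ := by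
      ext y
      obtain ⟨x, rfl⟩ := hρs y
      rw [MonoidHom.mem_ker, hπ']
      constructor
      · intro hx; exact mem_map_of_mem ρ hx
      · rintro ⟨z, hz, hzx⟩
        rw [← hπ', ← hzx, hπ']; exact hz
    have hcC : 1 < Nat.card C := by
      have h1 : Nat.card C ≠ 1 := fun h => hC0 ((card_eq_one).1 h)
      have := Nat.card_pos (α := C)
      omega
    have hcard : Nat.card π'.ker < Nat.card π.ker := by
      have h1 := card_mul_index π.ker
      have h2 := card_mul_index π'.ker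
      have h3 := card_mul_index C
      have h4 : Nat.card (E ⧸ C) = C.index := rfl
      have h5 : π.ker.index = π'.ker.index := by
        rw [index_ker, index_ker, MonoidHom.range_eq_top.2 hπ, MonoidHom.range_eq_top.2 hπ's]
      have h6 : 0 < π'.ker.index := Nat.pos_of_ne_zero index_ne_zero_of_finite
      have h7 : 0 < Nat.card π'.ker := Nat.card_pos
      rw [h5] at h1
      rw [h4] at h2
      rw [← h3, ← h2] at h1
      by_contra hcon
      push Not at hcon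
      have h8 : Nat.card π.ker * π'.ker.index ≤ Nat.card π'.ker * π'.ker.index :=
        Nat.mul_le_mul_right _ hcon
      rw [h1] at h8
      nlinarith [Nat.mul_pos h7 h6]
    have hpC : ¬ p ∣ Nat.card C := fun h => hpK (h.trans (card_dvd_of_le hCK))
    obtain ⟨x', hx', hx'n, hx'h⟩ := ih (Nat.card π'.ker) (hn ▸ hcard) (E ⧸ C) π' hπ's
      (by
        rw [hk', map_le_iff_le_comap]
        exact hK.trans (frattini_le_comap_frattini_of_surjective hρs))
      (fun h => hpK (h.trans (by rw [hk']; exact card_map_dvd _ ρ))) rfl (R.map ρ) (hR.map ρ)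
      (ρ h) (by
        apply norm_of_le
        rintro _ ⟨r, hr, rfl⟩
        exact ⟨h * r * h⁻¹, (hh r).1 hr, by simp⟩) (by rw [hπ']; exact hhY)
    rw [hπ'] at hx'h
    obtain ⟨x, hx, rfl⟩ := NV_lift π π' ρ hρs hπ' Y w x' hx'
    rw [hπ'] at hx'h
    -- `x` normalises `R ⊔ C`
    have hx1 : ∀ r ∈ R, x * r * x⁻¹ ∈ R ⊔ C := by
      intro r hr
      have h1 : ρ x * ρ r * (ρ x)⁻¹ ∈ R.map ρ := (hx'n _).1 (mem_map_of_mem ρ hr)
      obtain ⟨s, hs, hse⟩ := h1
      have h2 : s⁻¹ * (x * r * x⁻¹) ∈ C := by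
        rw [← hρk, map_mul, map_inv, hse, map_mul, map_mul, map_inv, inv_mul_cancel]
      have h3 : x * r * x⁻¹ = s * (s⁻¹ * (x * r * x⁻¹)) := by group
      rw [h3]
      exact mul_mem_sup hs h2
    obtain ⟨c, hc, hcx⟩ := adj hR hpC x hx1
    by_cases hcen : ∃ x ∈ C, ∃ y : E, x * y ≠ y * x
    · refine ⟨c * x, NV_mul π hK Y C hCK hab hmin hcen w x hx c hc, norm_of_le hcx, ?_⟩
      rw [map_mul, hCK hc, one_mul, hx'h]
    · push Not at hcen
      refine ⟨x, hx, norm_of_le fun r hr => ?_, hx'h⟩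
      have h1 := hcx r hr
      have h2 : (c * x) * r * (c * x)⁻¹ = c * (x * r * x⁻¹) * c⁻¹ := by group
      rw [h2, hcen c hc, mul_assoc, mul_inv_cancel, mul_one] at h1
      exact h1

/-- The elements `x` of a `p`-subgroup `R` (contained in `S`) which are left normed commutators
`[r, t, ..., t]` of every length, for some `t ∈ Y` normalising `R`. -/
def XX {T : Type*} [Group T] (Y : Set T) (S : Subgroup T) : Set T :=
  {x | ∃ R : Subgroup T, R ≤ S ∧ x ∈ R ∧ ∃ t ∈ Y, t ∈ normalizer (R : Set T) ∧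
    ∀ d : ℕ, ∃ r ∈ R, (fun y : T => ⁅y, t⁆)^[d] r = x}

/-- There is a set `Y` all of whose elements are commutators of generating pairs from `Y`, and
the Sylow `p`-subgroups are generated by the elements of `XX`. -/
def BP (p : ℕ) (T : Type*) [Group T] : Prop :=
  ∃ Y : Set T, (∀ t ∈ Y, ∃ a ∈ Y, ∃ b ∈ Y, closure {a, b} = ⊤ ∧ t = ⁅a, b⁆) ∧
    ∀ S : Sylow p T, (S : Subgroup T) ≤ closure (XX Y (S : Subgroup T))

theorem bp_good {E T : Type} [Group E] [Group T] [Finite E] (hE : commutator E = ⊤)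
    (π : E →* T) (hπ : Function.Surjective π) (hK : π.ker ≤ frattini E)
    (hpK : ¬ p ∣ Nat.card π.ker) (hT : BP p T) (w : MW) : Good p E w := by
  obtain ⟨Y, hY, hS⟩ := hT
  intro S
  rw [ver_perfect E hE, inf_top_eq]
  have hinj : ∀ x ∈ (S : Subgroup E), π x = 1 → x = 1 := by
    intro x hx hx1
    have h1 : orderOf x ∣ Nat.card π.ker := Subgroup.orderOf_dvd_natCard _ hx1
    obtain ⟨k, hk⟩ := S.isPGroup' ⟨x, hx⟩
    have h2 : x ^ p ^ k = 1 := congrArg (fun z : (S : Subgroup E) => (z : E)) hk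
    rw [← orderOf_eq_one_iff]
    exact Nat.eq_one_of_dvd_coprimes (Nat.Coprime.pow_left k
      ((Nat.Prime.coprime_iff_not_dvd hp.out).2 hpK)) (orderOf_dvd_of_pow_eq_one h2) h1
  have hinj2 : ∀ x ∈ (S : Subgroup E), ∀ y ∈ (S : Subgroup E), π x = π y → x = y := by
    intro x hx y hy hxy
    have := hinj (x * y⁻¹) ((S : Subgroup E).mul_mem hx ((S : Subgroup E).inv_mem hy))
      (by rw [map_mul, map_inv, hxy, mul_inv_cancel])
    rwa [mul_inv_eq_one] at this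
  have hS1 := hS (S.mapSurjective hπ)
  rw [Sylow.coe_mapSurjective] at hS1
  have key : XX Y ((S : Subgroup E).map π) ⊆ (Qs w (S : Subgroup E)).map π := by
    rintro x' ⟨R', hR'S, hxR', t, htY, htR', hd⟩
    obtain ⟨R, hR⟩ : ∃ R : Subgroup E, R = (S : Subgroup E) ⊓ R'.comap π := ⟨_, rfl⟩
    have hRS : R ≤ (S : Subgroup E) := by rw [hR]; exact inf_le_left
    have hRp : IsPGroup p R := S.isPGroup'.to_le hRS
    have hRR' : ∀ r ∈ R, π r ∈ R' := by
      intro r hr; rw [hR] at hr; exact hr.2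
    have hlift : ∀ r' ∈ R', ∃ r ∈ R, π r = r' := by
      intro r' hr'
      obtain ⟨s, hs, rfl⟩ := hR'S hr'
      exact ⟨s, by rw [hR]; exact ⟨hs, hr'⟩, rfl⟩
    -- a preimage of `t` normalising `R`
    obtain ⟨e, he⟩ := hπ t
    obtain ⟨c, hc, hce⟩ := adj (C := π.ker) hRp hpK e (by
      intro r hr
      have h1 : π (e * r * e⁻¹) ∈ R' := by
        rw [map_mul, map_mul, map_inv, he]
        exact (htR' _).1 (hRR' r hr)
      obtain ⟨s, hs, hse⟩ := hlift _ h1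
      have h2 : s⁻¹ * (e * r * e⁻¹) ∈ π.ker := by
        rw [MonoidHom.mem_ker, map_mul, map_inv, hse, inv_mul_cancel]
      have h3 : e * r * e⁻¹ = s * (s⁻¹ * (e * r * e⁻¹)) := by group
      rw [h3]
      exact mul_mem_sup hs h2)
    obtain ⟨h, hh⟩ : ∃ h, h = c * e := ⟨_, rfl⟩
    rw [← hh] at hce
    have hπh : π h = t := by rw [hh, map_mul, hc, one_mul, he]
    have hhn := norm_of_le hce
    -- values acting as `h`
    have hv : ∀ v : MW, ∃ g ∈ val E v, ∀ y ∈ R, ⁅y, g⁆ = ⁅y, h⁆ := by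
      intro v
      obtain ⟨g, hg, hgn, hgh⟩ := NV_norm (p := p) Y hY v _ E π hπ hK hpK rfl R hRp h hhn
        (hπh ▸ htY)
      refine ⟨g, NV_val π Y v g hg, fun y hy => ?_⟩
      have e1 : ∀ z : E, z ∈ normalizer (R : Set E) → ⁅y, z⁆ ∈ R := by
        intro z hz
        have h1 : ⁅y, z⁆ = y * (z * y⁻¹ * z⁻¹) := by rw [commutatorElement_def]; group
        rw [h1]
        exact R.mul_mem hy ((hz _).1 (R.inv_mem hy))
      apply hinj2 _ (hRS (e1 g hgn)) _ (hRS (e1 h hhn))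
      rw [map_commutatorElement, map_commutatorElement, hgh]
    have hw : ∀ w : MW, ∃ d : ℕ, ∀ r ∈ R, (fun y : E => ⁅y, h⁆)^[d] r ∈ val E w ∧
        (fun y : E => ⁅y, h⁆)^[d] r ∈ R := by
      intro w
      induction w with
      | var => exact ⟨0, fun r hr => ⟨Set.mem_univ _, hr⟩⟩
      | comm u v hu _ =>
        obtain ⟨d, hd⟩ := hu
        obtain ⟨g, hg, hgR⟩ := hv v
        refine ⟨d + 1, fun r hr => ?_⟩
        obtain ⟨h1, h2⟩ := hd r hr
        rw [Function.iterate_succ_apply']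
        constructor
        · exact ⟨_, h1, g, hg, (hgR _ h2).symm⟩
        · have h3 : ⁅(fun y : E => ⁅y, h⁆)^[d] r, h⁆ = (fun y : E => ⁅y, h⁆)^[d] r *
              (h * ((fun y : E => ⁅y, h⁆)^[d] r)⁻¹ * h⁻¹) := by
            rw [commutatorElement_def]; group
          show ⁅(fun y : E => ⁅y, h⁆)^[d] r, h⁆ ∈ R
          rw [h3]
          exact R.mul_mem h2 ((hhn _).1 (R.inv_mem h2))
    obtain ⟨d, hdw⟩ := hw w
    obtain ⟨r', hr', hr'x⟩ := hd d
    obtain ⟨r, hr, rfl⟩ := hlift r' hr'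
    have hit : ∀ k, π ((fun y : E => ⁅y, h⁆)^[k] r) = (fun y : T => ⁅y, t⁆)^[k] (π r) := by
      intro k
      induction k with
      | zero => rfl
      | succ k ih =>
        rw [Function.iterate_succ_apply', Function.iterate_succ_apply', ← ih,
          map_commutatorElement, hπh]
    obtain ⟨h1, h2⟩ := hdw r hr
    refine ⟨_, subset_closure ⟨h1, hRS h2⟩, ?_⟩
    rw [hit, hr'x]
  intro x hx
  have h1 : π x ∈ (Qs w (S : Subgroup E)).map π :=
    ((hS1.trans ((closure_le _).2 key)) (mem_map_of_mem π hx))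
  obtain ⟨y, hy, hyx⟩ := h1
  rw [← hinj2 y (Qs_le w _ hy) x hx hyx]
  exact hy

/-- `BP` for perfect groups, from the `p'`-elements acting nontrivially on `p`-subgroups. -/
theorem bp_of {T : Type*} [Group T] [Finite T] (hT : commutator T = ⊤) (Y : Set T)
    (hY : ∀ t ∈ Y, ∃ a ∈ Y, ∃ b ∈ Y, closure {a, b} = ⊤ ∧ t = ⁅a, b⁆)
    (h : ∀ R : Subgroup T, IsPGroup p R → ∀ t ∈ normalizer (R : Set T),
      (∃ m : ℕ, ¬ p ∣ m ∧ t ^ m = 1) → (∃ x ∈ R, x * t ≠ t * x) → t ∈ Y) : BP p T := by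
  obtain ⟨Z, hZ⟩ : ∃ Z : Set T, Z = {x | ∃ g : T, ∃ t ∈ Y, x = g * t * g⁻¹} := ⟨_, rfl⟩
  have hYZ : Y ⊆ Z := fun t ht => by rw [hZ]; exact ⟨1, t, ht, by simp⟩
  have hZc : ∀ g : T, ∀ t ∈ Z, g * t * g⁻¹ ∈ Z := by
    intro g t ht
    rw [hZ] at ht ⊢
    obtain ⟨k, t, ht, rfl⟩ := ht
    exact ⟨g * k, t, ht, by group⟩
  refine ⟨Z, ?_, fun S => ?_⟩
  · intro t ht
    rw [hZ] at ht
    obtain ⟨g, t, ht, rfl⟩ := ht
    obtain ⟨a, ha, b, hb, hab, rfl⟩ := hY t ht
    refine ⟨g * a * g⁻¹, hZc g a (hYZ ha), g * b * g⁻¹, hZc g b (hYZ hb), ?_, ?_⟩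
    · have h1 := MonoidHom.map_closure (MulAut.conj g).toMonoidHom {a, b}
      rw [hab, Set.image_pair, ← MonoidHom.range_eq_map,
        MonoidHom.range_eq_top.2 (MulAut.conj g).surjective] at h1
      exact h1.symm
    · simp only [commutatorElement_def]; group
  have h1 := perf_gen hT S (XX Z (S : Subgroup T) ∪ {1}) ?_ ?_
  · refine h1.trans ?_
    rw [closure_le]
    rintro x ⟨hx | hx, -⟩
    · exact Subgroup.subset_closure hx
    · rw [Set.mem_singleton_iff] at hx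
      rw [hx]; exact Subgroup.one_mem _
  · rintro s hs x (hx | hx)
    · left
      obtain ⟨R, hRS, hxR, t, ht, htR, hd⟩ := hx
      refine ⟨R.map (MulAut.conj s).toMonoidHom, ?_, mem_map_of_mem _ hxR, s * t * s⁻¹,
        hZc s t ht, ?_, ?_⟩
      · rintro _ ⟨r, hr, rfl⟩
        exact (S : Subgroup T).mul_mem ((S : Subgroup T).mul_mem hs (hRS hr))
          ((S : Subgroup T).inv_mem hs)
      · apply norm_of_le
        rintro _ ⟨r, hr, rfl⟩
        refine ⟨t * r * t⁻¹, (htR r).1 hr, ?_⟩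
        show s * (t * r * t⁻¹) * s⁻¹ = (s * t * s⁻¹) * (s * r * s⁻¹) * (s * t * s⁻¹)⁻¹
        group
      · intro d
        obtain ⟨r, hr, hrx⟩ := hd d
        refine ⟨s * r * s⁻¹, ⟨r, hr, rfl⟩, ?_⟩
        have h2 : ∀ k, (fun y : T => ⁅y, s * t * s⁻¹⁆)^[k] (s * r * s⁻¹) =
            s * ((fun y : T => ⁅y, t⁆)^[k] r) * s⁻¹ := by
          intro k
          induction k with
          | zero => rfl
          | succ k ih =>
            rw [Function.iterate_succ_apply', Function.iterate_succ_apply', ih]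
            simp only [commutatorElement_def]; group
        rw [h2, hrx]
    · right
      rw [Set.mem_singleton_iff] at hx ⊢
      rw [hx]; simp
  · intro R hR t ht hm
    by_cases hcen : ∃ x ∈ R, x * t ≠ t * x
    · have htZ : t ∈ Z := hYZ (h R (S.isPGroup'.to_le hR) t ht hm hcen)
      obtain ⟨D, hD⟩ : ∃ D : ℕ → Set T, ∀ k, D k = (fun y : T => ⁅y, t⁆)^[k] '' R :=
        ⟨_, fun _ => rfl⟩
      have hcR : ∀ x ∈ R, ⁅x, t⁆ ∈ R := by
        intro x hx
        have h1 : ⁅x, t⁆ = x * (t * x⁻¹ * t⁻¹) := by rw [commutatorElement_def]; group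
        rw [h1]
        exact R.mul_mem hx ((ht _).1 (R.inv_mem hx))
      have hit : ∀ k, ∀ x ∈ R, (fun y : T => ⁅y, t⁆)^[k] x ∈ R := by
        intro k
        induction k with
        | zero => exact fun x hx => hx
        | succ k ih =>
          intro x hx
          rw [Function.iterate_succ_apply]
          exact ih _ (hcR x hx)
      have hDm : ∀ k l, k ≤ l → D l ⊆ D k := by
        intro k l hkl
        obtain ⟨j, rfl⟩ := Nat.exists_eq_add_of_le hkl
        rw [hD, hD]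
        rintro _ ⟨r, hr, rfl⟩
        refine ⟨(fun y : T => ⁅y, t⁆)^[j] r, hit j r hr, ?_⟩
        rw [← Function.iterate_add_apply]
      obtain ⟨n, hn⟩ : ∃ n, ∀ m, (D n).ncard ≤ (D m).ncard := by
        obtain ⟨n, hn⟩ := exists_minimal_of_wellFoundedLT (fun c => ∃ k, (D k).ncard = c)
          ⟨_, 0, rfl⟩
        obtain ⟨k, hk⟩ := hn.prop
        refine ⟨k, fun m => ?_⟩
        rw [hk]
        exact not_lt.1 fun hlt => hn.not_prop_of_lt hlt ⟨m, rfl⟩
      refine ⟨n, fun x hx => Or.inl ⟨R, hR, hit n x hx, t, htZ, ht, fun d => ?_⟩⟩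
      have hxD : (fun y : T => ⁅y, t⁆)^[n] x ∈ D n := by rw [hD]; exact ⟨x, hx, rfl⟩
      have hdD : (fun y : T => ⁅y, t⁆)^[n] x ∈ D d := by
        rcases le_total d n with hdn | hdn
        · exact hDm d n hdn hxD
        · rw [Set.eq_of_subset_of_ncard_le (hDm n d hdn) (hn d) (Set.toFinite _)]
          exact hxD
      rw [hD] at hdD
      exact hdD
    · push Not at hcen
      refine ⟨1, fun x hx => Or.inr ?_⟩
      rw [Set.mem_singleton_iff]
      show ⁅x, t⁆ = 1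
      rw [commutatorElement_eq_one_iff_mul_comm]
      exact hcen x hx

end norm

end Pool.Agent.Work.MP_8aaf67_al.SR
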