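import Pool.Agent.Work.MP_8aaf67_al.SR.Core

/-!
# `p`-soluble groups
-/

set_option autoImplicit false

namespace Pool.Agent.Work.MP_8aaf67_al.SR

open Subgroup
open scoped commutatorElement

/-- `G` has a finite series of normal subgroups whose factors are `p`-groups or `p'`-groups. -/
def IsPSol (p : ℕ) (G : Type*) [Group G] : Prop :=
  ∃ (n : ℕ) (f : ℕ → Subgroup G), f 0 = ⊥ ∧ f n = ⊤ ∧ (∀ i, (f i).Normal) ∧
    ∀ i, i < n → f i ≤ f (i + 1) ∧
      ((∃ k : ℕ, (f i).relIndex (f (i + 1)) = p ^ k) ∨ ¬ p ∣ (f i).relIndex (f (i + 1)))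

section psol

variable {G : Type*} [Group G] {p : ℕ} [hp : Fact p.Prime]

/-- Divisors of indices. -/
theorem type_dvd {a b : ℕ} (hab : a ∣ b) (h : (∃ k : ℕ, b = p ^ k) ∨ ¬ p ∣ b) :
    (∃ k : ℕ, a = p ^ k) ∨ ¬ p ∣ a := by
  rcases h with ⟨k, rfl⟩ | h
  · obtain ⟨j, -, hj⟩ := (Nat.dvd_prime_pow hp.out).1 hab
    exact Or.inl ⟨j, hj⟩
  · exact Or.inr fun h' => h (h'.trans hab)

omit hp in
theorem relIndex_dvd_of_inf {N L A B : Subgroup G} [hN : N.Normal] (h1 : N ⊓ A ≤ L) (h2 : A ≤ B) :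
    L.relIndex A ∣ N.relIndex B := by
  have e1 : L.relIndex A ∣ N.relIndex A := by
    rw [← inf_relIndex_right N A]
    exact relIndex_dvd_of_le_left A h1
  refine e1.trans ?_
  have h3 : (N.subgroupOf B).relIndex (A.subgroupOf B) ∣ (N.subgroupOf B).index := by
    have : (N.subgroupOf B).Normal := hN.subgroupOf B
    exact relIndex_dvd_index_of_normal _ _
  rw [relIndex_subgroupOf h2] at h3
  exact h3

theorem IsPSol.pser (h : IsPSol p G) (W : Subgroup G) [hW : W.Normal] : PSer p W := by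
  classical
  obtain ⟨n, f, h0, hn, hf, hs⟩ := h
  intro L hL hLW
  have hex : ∃ i, ¬ (f i ⊓ W ≤ L) := ⟨n, by rw [hn, top_inf_eq]; exact not_le_of_gt hLW⟩
  obtain ⟨i, hi⟩ : ∃ i, i = Nat.find hex := ⟨_, rfl⟩
  have hi1 : ¬ (f i ⊓ W ≤ L) := hi ▸ Nat.find_spec hex
  have hi0 : i ≠ 0 := by
    rintro h
    apply hi1
    rw [h, h0, bot_inf_eq]
    exact bot_le
  obtain ⟨j, rfl⟩ := Nat.exists_eq_succ_of_ne_zero hi0
  have hj : f j ⊓ W ≤ L := by
    by_contra hcon
    have := Nat.find_min' hex hcon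
    omega
  have hjn : j < n := by
    by_contra hcon
    have := Nat.find_min' hex (m := n) (by rw [hn, top_inf_eq]; exact not_le_of_gt hLW)
    omega
  obtain ⟨hs1, hs2⟩ := hs j hjn
  have n1 := hf j
  have n2 := hf (j + 1)
  refine ⟨L ⊔ (f (j + 1) ⊓ W), inferInstance, ?_, sup_le hLW.le inf_le_right, ?_⟩
  · refine lt_of_le_of_ne le_sup_left fun he => hi1 ?_
    rw [he]; exact le_sup_right
  · rw [relIndex_sup_left]
    refine type_dvd (relIndex_dvd_of_inf (N := f j) ?_ inf_le_left) hs2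
    rw [← inf_assoc, inf_eq_left.2 hs1]
    exact hj

omit hp in
theorem isPSol_sub_aux (hp' : Fact p.Prime) (h : IsPSol p G) (K : Subgroup G) : IsPSol p K := by
  obtain ⟨n, f, h0, hn, hf, hs⟩ := h
  refine ⟨n, fun i => (f i).subgroupOf K, ?_, ?_, fun i => (hf i).subgroupOf K, ?_⟩
  · simp [h0]
  · simp [hn]
  · intro i hi
    obtain ⟨h1, h2⟩ := hs i hi
    have := hf i
    refine ⟨fun x hx => h1 hx, type_dvd ?_ h2⟩
    have e : ((f i).subgroupOf K).relIndex ((f (i + 1)).subgroupOf K) =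
        (f i).relIndex (f (i + 1) ⊓ K) := by
      rw [show (f i).subgroupOf K = (f i).comap K.subtype from rfl, relIndex_comap,
        subgroupOf_map_subtype]
    rw [e]
    exact relIndex_dvd_of_inf inf_le_left inf_le_left

theorem IsPSol.sub (h : IsPSol p G) (K : Subgroup G) : IsPSol p K := isPSol_sub_aux hp h K

theorem IsPSol.quot (h : IsPSol p G) (N : Subgroup G) [hN : N.Normal] : IsPSol p (G ⧸ N) := by
  obtain ⟨n, f, h0, hn, hf, hs⟩ := h
  have hs' := QuotientGroup.mk'_surjective N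
  refine ⟨n, fun i => (f i).map (QuotientGroup.mk' N), ?_, ?_, fun i => (hf i).map _ hs', ?_⟩
  · simp [h0]
  · simp only [hn, ← MonoidHom.range_eq_map]
    exact MonoidHom.range_eq_top.2 hs'
  · intro i hi
    obtain ⟨h1, h2⟩ := hs i hi
    refine ⟨map_mono h1, type_dvd ?_ h2⟩
    rw [← relIndex_comap]
    exact relIndex_dvd_of_le_left _ (le_comap_map _ _)

/-- **Theorem for `p`-soluble groups.** -/
theorem good_psol : ∀ (w : MW) (n : ℕ) (G : Type) [Group G] [Finite G], IsPSol p G →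
    Nat.card G = n → Good p G w := by
  intro w
  induction w with
  | var =>
    intro n G _ _ _ _ S x hx
    exact Subgroup.subset_closure ⟨Set.mem_univ _, hx.1⟩
  | comm u v hu hv =>
    intro n
    induction n using Nat.strong_induction_on with
    | _ n ih =>
      intro G _ _ hG hn
      refine core ?_ ?_ (hu _ G hG rfl) (hv _ G hG rfl) (hG.pser _)
      · intro D hD hDp hD0
        refine ih _ ?_ (G ⧸ D) (hG.quot D) rfl
        have h1 := card_mul_index D
        have h2 : 1 < Nat.card D := by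
          have : Nat.card D ≠ 1 := fun h => hD0 ((card_eq_one).1 h)
          have := Nat.card_pos (α := D)
          omega
        have h3 : Nat.card (G ⧸ D) = D.index := rfl
        have h4 : 0 < D.index := Nat.pos_of_ne_zero index_ne_zero_of_finite
        rw [h3, ← hn, ← h1]
        nlinarith
      · intro K hK
        refine ih _ ?_ K (hG.sub K) rfl
        rw [← hn]
        exact lt_of_le_of_ne (card_le_card_group K) fun h => hK (card_eq_iff_eq_top K |>.1 h)

end psol

end Pool.Agent.Work.MP_8aaf67_al.SR
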