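import Pool.Agent.Work.MP_8aaf67_al.SR.Crit
import Pool.Agent.Work.MP_8aaf67_al.SR.Bridge
import Pool.Agent.Work.MP_8aaf67_al.SR.Psol

/-!
# The criterion
-/

set_option autoImplicit false

namespace Pool.Agent.Work.MP_8aaf67_al.SR

open Subgroup
open scoped commutatorElement

/-- Every nonabelian simple section of `G` of order divisible by `p` has the property `BP`. -/
def CC (p : ℕ) (G : Type) [Group G] : Prop :=
  ∀ (K : Subgroup G) (T : Type) [Group T] (f : K →* T), Function.Surjective f →
    IsSimpleGroup T → (∃ x y : T, x * y ≠ y * x) → p ∣ Nat.card T → BP p T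

theorem CC_sub {p : ℕ} (G : Type) [Group G] (K : Subgroup G) (h : CC p G) : CC p K := by
  intro L T _ f hf h1 h2 h3
  obtain ⟨e⟩ : Nonempty (L.map K.subtype ≃* L) :=
    ⟨(L.equivMapOfInjective K.subtype K.subtype_injective).symm⟩
  exact h (L.map K.subtype) T (f.comp e.toMonoidHom) (hf.comp e.surjective) h1 h2 h3

theorem CC_quot {p : ℕ} (G : Type) [Group G] (N : Subgroup G) [N.Normal] (h : CC p G) :
    CC p (G ⧸ N) := by
  intro L T _ f hf h1 h2 h3
  exact h (L.comap (QuotientGroup.mk' N)) T (f.comp ((QuotientGroup.mk' N).subgroupComap L))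
    (hf.comp (MonoidHom.subgroupComap_surjective_of_surjective _ _
      (QuotientGroup.mk'_surjective N))) h1 h2 h3

theorem crit {p : ℕ} [hp : Fact p.Prime] (w : MW) (n : ℕ) (G : Type) [Group G] [Finite G]
    (hG : CC p G) (hn : Nat.card G = n) : Good p G w := by
  refine reduction (CC p) (fun G _ K h => CC_sub G K h) (fun G _ N _ h => CC_quot G N h) ?_
    w n G hG hn
  intro E _ _ hE hB w
  have hk : (QuotientGroup.mk' (frattini E)).ker = frattini E := QuotientGroup.ker_mk' _
  have hs := hB.simple
  refine bp_good hB.perfect (QuotientGroup.mk' (frattini E)) (QuotientGroup.mk'_surjective _)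
    (by rw [hk]) (by rw [hk]; exact hB.coprime) ?_ w
  refine hE ⊤ (E ⧸ frattini E) ((QuotientGroup.mk' (frattini E)).comp (⊤ : Subgroup E).subtype)
    ?_ hs ?_ hB.dvd
  · intro x
    obtain ⟨y, rfl⟩ := QuotientGroup.mk'_surjective _ x
    exact ⟨⟨y, mem_top y⟩, rfl⟩
  · by_contra hcon
    push Not at hcon
    have h1 : commutator (E ⧸ frattini E) = ⊥ := by
      rw [eq_bot_iff, commutator_def, commutator_le]
      intro x _ y _
      rw [mem_bot, commutatorElement_eq_one_iff_mul_comm]
      exact hcon x y
    have h2 : (commutator E).map (QuotientGroup.mk' (frattini E)) = commutator (E ⧸ frattini E) := by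
      rw [commutator_def, map_commutator, ← MonoidHom.range_eq_map,
        MonoidHom.range_eq_top.2 (QuotientGroup.mk'_surjective _), commutator_def]
    rw [hB.perfect, h1, ← MonoidHom.range_eq_map,
      MonoidHom.range_eq_top.2 (QuotientGroup.mk'_surjective _)] at h2
    exact top_ne_bot h2

end Pool.Agent.Work.MP_8aaf67_al.SR
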