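import Pool.Agent.Work.MP_8aaf67_al.SR.Alp

/-!
# Lower central words, all finite groups
-/

set_option autoImplicit false

namespace Pool.Agent.Work.MP_8aaf67_al.SR

open Subgroup
open scoped commutatorElement

/-- The lower central words. -/
def lc : ℕ → MW
  | 0 => .var
  | n + 1 => .comm (lc n) .var

section gamma

variable {G : Type*} [Group G] {p : ℕ} [hp : Fact p.Prime]

omit hp in
/-- Coprime action on homomorphisms into an abelian group. -/
theorem cop {R A : Type*} [Group R] [CommGroup A] (c : R → R) (m : ℕ) (hcm : ∀ x, c^[m] x = x)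
    (hA : ∀ a : A, a ^ m = 1 → a = 1) (ψ : ℕ → R → A)
    (hψ : ∀ k x, ψ (k + 1) x = ψ k x * (ψ k (c x))⁻¹) :
    ∀ k, (∀ x, ψ (k + 1) x = 1) → ∀ x, ψ 1 x = 1 := by
  intro k
  induction k with
  | zero => exact fun h => h
  | succ k ih =>
    intro h
    apply ih
    have h1 : ∀ x, ψ (k + 1) (c x) = ψ (k + 1) x := by
      intro x
      have := h x
      rw [hψ, mul_inv_eq_one] at this
      exact this.symm
    have h2 : ∀ j x, ψ (k + 1) (c^[j] x) = ψ (k + 1) x := by
      intro j
      induction j with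
      | zero => intro x; rfl
      | succ j ihj => intro x; rw [Function.iterate_succ_apply', h1, ihj]
    intro x
    apply hA
    have h3 : ∀ j, ψ k (c^[j] x) = ψ k x * (ψ (k + 1) x)⁻¹ ^ j := by
      intro j
      induction j with
      | zero => simp
      | succ j ihj =>
        have h4 := hψ k (c^[j] x)
        rw [h2, ← Function.iterate_succ_apply' c j x, ihj] at h4
        rw [eq_mul_inv_iff_mul_eq] at h4
        rw [pow_succ, ← mul_assoc, ← h4, mul_inv_cancel_comm]
    have h5 := h3 m
    rw [hcm, left_eq_mul, inv_pow, inv_eq_one] at h5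
    exact h5

omit hp in
theorem iter_val (h : G) (k : ℕ) (x : G) : (fun y : G => ⁅y, h⁆)^[k] x ∈ val G (lc k) := by
  induction k with
  | zero => exact Set.mem_univ _
  | succ k ih =>
    rw [Function.iterate_succ_apply']
    exact ⟨_, ih, h, Set.mem_univ _, rfl⟩

/-- Generation by a Sylow subgroup and the `p'`-elements. -/
theorem gen_syl [Finite G] {N X K : Subgroup G} (hX : IsSyl p X N) (hXK : X ≤ K)
    (hK : ∀ n ∈ N, (∃ m : ℕ, ¬ p ∣ m ∧ n ^ m = 1) → n ∈ K) : N ≤ K := by
  obtain ⟨s, hs⟩ : ∃ s : Set N, s = {n : N | ∃ m : ℕ, ¬ p ∣ m ∧ n ^ m = 1} := ⟨_, rfl⟩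
  have hn : (closure s).Normal := by
    apply closure_normal
    rw [hs]
    rintro g x ⟨m, hm, hx⟩
    exact ⟨m, hm, by rw [conj_pow, hx]; simp⟩
  have hle : closure s ≤ K.subgroupOf N := by
    rw [closure_le, hs]
    rintro x ⟨m, hm, hx⟩
    rw [SetLike.mem_coe, mem_subgroupOf]
    exact hK x x.2 ⟨m, hm, congrArg (fun z : N => (z : G)) hx⟩
  have hpg : IsPGroup p (N ⧸ closure s) := by
    intro z
    obtain ⟨n, rfl⟩ := QuotientGroup.mk_surjective z
    obtain ⟨k, m, hm, hkm⟩ := Nat.exists_eq_pow_mul_and_not_dvd (orderOf_pos n).ne' p hp.out.ne_one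
    refine ⟨k, ?_⟩
    rw [← QuotientGroup.mk_pow, QuotientGroup.eq_one_iff]
    apply Subgroup.subset_closure
    rw [hs]
    refine ⟨m, hm, ?_⟩
    rw [← pow_mul, ← hkm, pow_orderOf_eq_one]
  obtain ⟨k, hk⟩ := IsPGroup.iff_card.1 hpg
  have h1 : K.relIndex N ∣ p ^ k := by
    rw [← hk]
    exact index_dvd_of_le hle
  have h2 : K.relIndex N ∣ X.relIndex N := relIndex_dvd_of_le_left N hXK
  rw [← relIndex_eq_one]
  exact Nat.eq_one_of_dvd_coprimes (Nat.Coprime.pow_left k
    ((Nat.Prime.coprime_iff_not_dvd hp.out).2 hX.2.2)) h1 h2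

/-- Generation of the Sylow subgroups of perfect groups. -/
theorem perf_gen [Finite G] (hG : commutator G = ⊤) (S : Sylow p G) (X : Set G)
    (hX : ∀ s ∈ (S : Subgroup G), ∀ x ∈ X, s * x * s⁻¹ ∈ X)
    (hRX : ∀ R : Subgroup G, R ≤ (S : Subgroup G) → ∀ h ∈ normalizer (R : Set G),
      (∃ m : ℕ, ¬ p ∣ m ∧ h ^ m = 1) → ∃ n : ℕ, ∀ x ∈ R, (fun y : G => ⁅y, h⁆)^[n] x ∈ X) :
    (S : Subgroup G) ≤ closure (X ∩ (S : Subgroup G)) := by
  obtain ⟨Q, hQ⟩ : ∃ Q : Subgroup (S : Subgroup G), Q = (closure
    (X ∩ (S : Subgroup G))).subgroupOf (S : Subgroup G) := ⟨_, rfl⟩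
  have hQn : Q.Normal := by
    constructor
    intro x hx g
    rw [hQ, mem_subgroupOf] at hx ⊢
    have h1 : (closure (X ∩ (S : Subgroup G))).map (MulAut.conj (g : G)).toMonoidHom ≤
        closure (X ∩ (S : Subgroup G)) := by
      rw [MonoidHom.map_closure, closure_le]
      rintro _ ⟨y, ⟨hy1, hy2⟩, rfl⟩
      apply Subgroup.subset_closure
      refine ⟨hX _ g.2 y hy1, ?_⟩
      exact (S : Subgroup G).mul_mem ((S : Subgroup G).mul_mem g.2 hy2)
        ((S : Subgroup G).inv_mem g.2)
    exact h1 ⟨_, hx, rfl⟩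
  -- the homomorphism
  obtain ⟨φ, hφ⟩ : ∃ φ : (S : Subgroup G) →* Abelianization ((S : Subgroup G) ⧸ Q),
    φ = Abelianization.of.comp (QuotientGroup.mk' Q) := ⟨_, rfl⟩
  have hφs : Function.Surjective φ := by
    rw [hφ]
    exact (QuotientGroup.mk_surjective).comp (QuotientGroup.mk'_surjective Q)
  have hAp : ∀ a : Abelianization ((S : Subgroup G) ⧸ Q), ∀ m : ℕ, ¬ p ∣ m → a ^ m = 1 →
      a = 1 := by
    intro a m hm ha
    obtain ⟨s, rfl⟩ := hφs a
    obtain ⟨k, hk⟩ := S.isPGroup' s
    have h1 : (φ s) ^ (p ^ k) = 1 := by rw [← map_pow, hk, map_one]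
    rw [← orderOf_eq_one_iff]
    exact Nat.eq_one_of_dvd_coprimes (Nat.Coprime.pow_left k
      ((Nat.Prime.coprime_iff_not_dvd hp.out).2 hm)) (orderOf_dvd_of_pow_eq_one h1)
      (orderOf_dvd_of_pow_eq_one ha)
  classical
  obtain ⟨f, hf⟩ : ∃ f : G → Abelianization ((S : Subgroup G) ⧸ Q), ∀ x (hx : x ∈ (S : Subgroup G)),
      f x = φ ⟨x, hx⟩ :=
    ⟨fun x => if hx : x ∈ (S : Subgroup G) then φ ⟨x, hx⟩ else 1, fun x hx => dif_pos hx⟩
  have hfm : ∀ x ∈ (S : Subgroup G), ∀ y ∈ (S : Subgroup G), f (x * y) = f x * f y := by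
    intro x hx y hy
    rw [hf x hx, hf y hy, hf _ ((S : Subgroup G).mul_mem hx hy), ← map_mul]
    rfl
  have hfi : ∀ x ∈ (S : Subgroup G), f x⁻¹ = (f x)⁻¹ := by
    intro x hx
    rw [hf x hx, hf _ ((S : Subgroup G).inv_mem hx), ← map_inv]
    rfl
  have hfQ : ∀ x ∈ (S : Subgroup G), x ∈ X → f x = 1 := by
    intro x hx hxv
    rw [hf x hx, hφ]
    have : QuotientGroup.mk' Q ⟨x, hx⟩ = 1 := by
      refine (QuotientGroup.eq_one_iff _).2 ?_
      rw [hQ, mem_subgroupOf]
      exact Subgroup.subset_closure ⟨hxv, hx⟩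
    rw [MonoidHom.comp_apply, this, map_one]
  -- invariance
  have hstab := alperin S f (by
    intro R hR hsyl
    obtain ⟨N, hN⟩ : ∃ N, N = normalizer (R : Set G) := ⟨_, rfl⟩
    rw [← hN] at hsyl ⊢
    have hconj : ∀ g ∈ N, ∀ x ∈ R, g * x * g⁻¹ ∈ R := by
      intro g hg x hx
      rw [hN] at hg
      exact (hg x).1 hx
    obtain ⟨K, hK⟩ : ∃ K : Subgroup G, ∀ g, g ∈ K ↔ (g ∈ N ∧ ∀ x ∈ R, f (g * x * g⁻¹) = f x) :=
      ⟨{ carrier := {g | g ∈ N ∧ ∀ x ∈ R, f (g * x * g⁻¹) = f x}
         mul_mem' := by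
           rintro a b ⟨ha1, ha2⟩ ⟨hb1, hb2⟩
           refine ⟨N.mul_mem ha1 hb1, fun x hx => ?_⟩
           have h1 := ha2 _ (hconj b hb1 x hx)
           rw [hb2 x hx] at h1
           rw [← h1]
           congr 1; group
         one_mem' := ⟨N.one_mem, fun x _ => by simp⟩
         inv_mem' := by
           rintro a ⟨ha1, ha2⟩
           refine ⟨N.inv_mem ha1, fun x hx => ?_⟩
           have h1 := ha2 _ (hconj a⁻¹ (N.inv_mem ha1) x hx)
           rw [← h1]
           congr 1; group }, fun g => Iff.rfl⟩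
    have hNK : N ≤ K := by
      refine gen_syl hsyl ?_ ?_
      · rintro s ⟨hs1, hs2⟩
        rw [hK]
        refine ⟨hs2, fun x hx => ?_⟩
        rw [hfm _ ((S : Subgroup G).mul_mem hs1 (hR hx)) _ ((S : Subgroup G).inv_mem hs1),
          hfm s hs1 x (hR hx), hfi s hs1, mul_comm (f s), mul_assoc, mul_inv_cancel, mul_one]
      · rintro h hh ⟨m, hm, hhm⟩
        obtain ⟨n, hn⟩ := hRX R hR h (hN ▸ hh) ⟨m, hm, hhm⟩
        rw [hK]
        refine ⟨hh, ?_⟩
        -- coprime action
        have hcR : ∀ x : R, ⁅(x : G), h⁆ ∈ R := by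
          intro x
          rw [commutatorElement_def]
          have h1 := hconj h hh _ (R.inv_mem x.2)
          have h2 : (x : G) * h * (x : G)⁻¹ * h⁻¹ = x * (h * (x : G)⁻¹ * h⁻¹) := by group
          rw [h2]
          exact R.mul_mem x.2 h1
        obtain ⟨c, hc⟩ : ∃ c : R → R, ∀ x : R, ((c x : R) : G) = h * x * h⁻¹ :=
          ⟨fun x => ⟨h * x * h⁻¹, hconj h hh x x.2⟩, fun x => rfl⟩
        obtain ⟨d, hd⟩ : ∃ d : R → R, ∀ x : R, ((d x : R) : G) = ⁅(x : G), h⁆ :=
          ⟨fun x => ⟨⁅(x : G), h⁆, hcR x⟩, fun x => rfl⟩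
        have hdi : ∀ k (x : R), ((d^[k] x : R) : G) = (fun y : G => ⁅y, h⁆)^[k] x := by
          intro k
          induction k with
          | zero => intro x; rfl
          | succ k ih =>
            intro x
            rw [Function.iterate_succ_apply, Function.iterate_succ_apply, ih, hd]
        have hcj : ∀ j (x : R), ((c^[j] x : R) : G) = h ^ j * x * (h ^ j)⁻¹ := by
          intro j
          induction j with
          | zero => intro x; simp
          | succ j ih =>
            intro x
            rw [Function.iterate_succ_apply', hc, ih, pow_succ']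
            group
        have hcm : ∀ x : R, c^[m] x = x := by
          intro x
          apply Subtype.ext
          rw [hcj, hhm]; simp
        have hmul : ∀ k (x y : R), f ((d^[k] (x * y) : R) : G) =
            f ((d^[k] x : R) : G) * f ((d^[k] y : R) : G) := by
          intro k
          induction k with
          | zero => intro x y; exact hfm _ (hR x.2) _ (hR y.2)
          | succ k ih =>
            intro x y
            rw [Function.iterate_succ_apply, Function.iterate_succ_apply,
              Function.iterate_succ_apply]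
            have h1 : d (x * y) = x * d y * x⁻¹ * d x := by
              apply Subtype.ext
              push_cast
              rw [hd, hd, hd]
              push_cast
              simp only [commutatorElement_def]
              group
            have h2 : f ((d^[k] x⁻¹ : R) : G) = (f ((d^[k] x : R) : G))⁻¹ := by
              have h3 := ih x x⁻¹
              have h4 := ih 1 1
              rw [mul_one, left_eq_mul] at h4
              rw [mul_inv_cancel, h4] at h3
              exact eq_inv_of_mul_eq_one_right h3.symm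
            rw [h1, ih, ih, ih, h2, mul_comm (f ((d^[k] x : R) : G)) (f ((d^[k] (d y) : R) : G)),
              mul_assoc (f ((d^[k] (d y) : R) : G)), mul_inv_cancel, mul_one, mul_comm]
        have hψ : ∀ k (x : R), f ((d^[k + 1] x : R) : G) =
            f ((d^[k] x : R) : G) * (f ((d^[k] (c x) : R) : G))⁻¹ := by
          intro k x
          rw [Function.iterate_succ_apply, eq_mul_inv_iff_mul_eq, ← hmul]
          congr 3
          apply Subtype.ext
          push_cast
          rw [hd, hc, commutatorElement_def]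
          group
        have hlast : ∀ x : R, f ((d^[n + 1] x : R) : G) = 1 := by
          intro x
          rw [Function.iterate_succ_apply]
          apply hfQ _ (hR (d^[n] (d x)).2)
          rw [hdi]
          exact hn _ (d x).2
        have h1 := cop c m hcm (fun a ha => hAp a m hm ha)
          (fun k x => f ((d^[k] x : R) : G)) hψ n hlast
        intro x hx
        have h2 := h1 ⟨x, hx⟩
        have h3 := hψ 0 ⟨x, hx⟩
        rw [Function.iterate_zero, id, id] at h3
        have h4 : f ((d^[1] ⟨x, hx⟩ : R) : G) = 1 := h2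
        rw [show (0 + 1) = 1 from rfl, h4, eq_comm, mul_inv_eq_one, hc] at h3
        exact h3.symm
    intro g hg x hx
    exact ((hK g).1 (hNK hg)).2 x hx)
  -- focal subgroup theorem
  have hfoc := Subgroup.commutator_inf_eq_focalSubgroup S
  rw [hG, top_inf_eq] at hfoc
  have hf1 : f 1 = 1 := by
    have h1 := hfm 1 ((S : Subgroup G).one_mem) 1 ((S : Subgroup G).one_mem)
    rw [mul_one, left_eq_mul] at h1
    exact h1
  have hone : ∀ x ∈ (S : Subgroup G), f x = 1 := by
    intro x hx
    rw [hfoc] at hx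
    have : x ∈ (S : Subgroup G) ∧ f x = 1 := by
      refine Subgroup.closure_induction (p := fun y _ => y ∈ (S : Subgroup G) ∧ f y = 1)
        ?_ ?_ ?_ ?_ hx
      · rintro _ ⟨hy, z, hz, u, rfl⟩
        refine ⟨hy, ?_⟩
        rw [commutatorElement_def] at hy ⊢
        have h1 : u * z⁻¹ * u⁻¹ ∈ (S : Subgroup G) := by
          have h2 := (S : Subgroup G).mul_mem ((S : Subgroup G).inv_mem hz) hy
          have h3 : z⁻¹ * (z * u * z⁻¹ * u⁻¹) = u * z⁻¹ * u⁻¹ := by group
          rwa [h3] at h2
        have h4 : z * u * z⁻¹ * u⁻¹ = z * (u * z⁻¹ * u⁻¹) := by group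
        rw [h4, hfm z hz _ h1, hstab u z⁻¹ ((S : Subgroup G).inv_mem hz) h1, hfi z hz,
          mul_inv_cancel]
      · exact ⟨(S : Subgroup G).one_mem, hf1⟩
      · rintro a b _ _ ⟨ha, ha'⟩ ⟨hb, hb'⟩
        exact ⟨(S : Subgroup G).mul_mem ha hb, by rw [hfm a ha b hb, ha', hb', mul_one]⟩
      · rintro a _ ⟨ha, ha'⟩
        exact ⟨(S : Subgroup G).inv_mem ha, by rw [hfi a ha, ha', inv_one]⟩
    exact this.2
  have hφ1 : ∀ s : (S : Subgroup G), φ s = 1 := by
    intro s
    rw [← hone s s.2, hf s s.2]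
  have hab : ∀ a : Abelianization ((S : Subgroup G) ⧸ Q), a = 1 := by
    intro a
    obtain ⟨s, rfl⟩ := hφs a
    exact hφ1 s
  have hperf : commutator ((S : Subgroup G) ⧸ Q) = ⊤ := by
    rw [eq_top_iff]
    intro z _
    rw [← Abelianization.ker_of, MonoidHom.mem_ker]
    exact hab _
  have hpq : IsPGroup p ((S : Subgroup G) ⧸ Q) := S.isPGroup'.to_quotient Q
  have : Group.IsNilpotent ((S : Subgroup G) ⧸ Q) := hpq.isNilpotent
  have : Group.IsSolvable ((S : Subgroup G) ⧸ Q) := inferInstance
  rcases subsingleton_or_nontrivial ((S : Subgroup G) ⧸ Q) with hs | hs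
  · intro x hx
    have h1 : (QuotientGroup.mk ⟨x, hx⟩ : (S : Subgroup G) ⧸ Q) = 1 := Subsingleton.elim _ _
    rw [QuotientGroup.eq_one_iff, hQ, mem_subgroupOf] at h1
    exact h1
  · exact absurd hperf (Group.IsSolvable.commutator_lt_top_of_nontrivial
      ((S : Subgroup G) ⧸ Q)).ne

/-- Perfect groups. -/
theorem gamma_perfect [Finite G] (hG : commutator G = ⊤) (n : ℕ) : Good p G (lc n) := by
  intro S
  rw [ver_perfect G hG, inf_top_eq]
  exact perf_gen hG S _ (fun s _ x hx => val_conj _ s x hx)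
    fun R _ h _ _ => ⟨n, fun x _ => iter_val h n x⟩

end gamma

/-- **Lower central words**: all finite groups. -/
theorem gamma {p : ℕ} [hp : Fact p.Prime] (c n : ℕ) (G : Type) [Group G] [Finite G]
    (hn : Nat.card G = n) : Good p G (lc c) := by
  induction c generalizing n G with
  | zero =>
    intro S x hx
    exact Subgroup.subset_closure ⟨Set.mem_univ _, hx.1⟩
  | succ c hu =>
    induction n using Nat.strong_induction_on generalizing G with
    | _ n ih =>
      have hq : ∀ D : Subgroup G, ∀ _ : D.Normal, IsPGroup p D → D ≠ ⊥ →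
          Good p (G ⧸ D) (lc (c + 1)) := by
        intro D hD hDp hD0
        refine ih _ ?_ (G ⧸ D) rfl
        have h1 := card_mul_index D
        have h2 : 1 < Nat.card D := by
          have : Nat.card D ≠ 1 := fun h => hD0 ((card_eq_one).1 h)
          have := Nat.card_pos (α := D)
          omega
        have h3 : Nat.card (G ⧸ D) = D.index := rfl
        have h4 : 0 < D.index := Nat.pos_of_ne_zero index_ne_zero_of_finite
        rw [h3, ← hn, ← h1]
        nlinarith
      have hs : ∀ K : Subgroup G, K ≠ ⊤ → Good p K (lc (c + 1)) := by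
        intro K hK
        refine ih _ ?_ K rfl
        rw [← hn]
        exact lt_of_le_of_ne (card_le_card_group K) fun h => hK (card_eq_iff_eq_top K |>.1 h)
      by_cases hsol : Group.IsSolvable G
      · refine core hq hs (hu _ G rfl) ?_ (solv_pser _ inferInstance)
        intro S x hx
        exact Subgroup.subset_closure ⟨Set.mem_univ _, hx.1⟩
      have hDS : ∀ n, DS (⊤ : Subgroup G) n = derivedSeries G n := by
        intro n
        induction n with
        | zero => rfl
        | succ n ih => rw [DS, ih, derivedSeries_succ]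
      obtain ⟨m, hm⟩ := DS_stab (⊤ : Subgroup G)
      have hmn := DS_normal (⊤ : Subgroup G) m
      have hR0 : DS (⊤ : Subgroup G) m ≠ ⊥ := by
        intro h0
        rw [hDS] at h0
        exact hsol ⟨m, h0⟩
      by_cases hR1 : DS (⊤ : Subgroup G) m = ⊤
      · rw [hR1] at hm
        exact gamma_perfect hm _
      · exact perf_normal hs _ hm hR0 hR1

end Pool.Agent.Work.MP_8aaf67_al.SR
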