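import Pool.Agent.Work.MP_8aaf67_al.SR.Strong
import Pool.Agent.Work.MP_8aaf67_al.SR.Final

/-!
# The strong reduction: conclusion
-/

set_option autoImplicit false

namespace Pool.Agent.Work.MP_8aaf67_al.SR

open Subgroup
open scoped commutatorElement

/-- `R ≤ U` implies `Fil`. -/
theorem fil_of_le {p : ℕ} [hp : Fact p.Prime] {T : Type} [Group T] (R U : Subgroup T)
    (hR : IsPGroup p R) [Finite R] (hRU : R ≤ U) : Fil p R U := by
  intro M _ _ _ hM _ _ m
  classical
  have : Fintype R := Fintype.ofFinite R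
  obtain ⟨n, hn⟩ := IsPGroup.iff_card.1 hR
  have hco : Nat.Coprime (p ^ n) (Nat.card M) :=
    Nat.Coprime.pow_left n ((Nat.Prime.coprime_iff_not_dvd hp.out).2 hM)
  -- an inverse of `|R|`
  obtain ⟨k, hk⟩ : ∃ k : ℤ, ∀ x : M, k • ((p ^ n : ℕ) • x) = x := by
    obtain ⟨a, b, hab⟩ : ∃ a b : ℤ, (p ^ n : ℕ) * a + (Nat.card M : ℤ) * b = 1 :=
      ⟨_, _, (Nat.gcd_eq_gcd_ab (p ^ n) (Nat.card M)).symm.trans (by rw [hco.gcd_eq_one]; rfl)⟩
    refine ⟨a, fun x => ?_⟩
    have h1 : (Nat.card M) • x = 0 := card_nsmul_eq_zero'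
    have h2 : ((p ^ n : ℕ) * a + (Nat.card M : ℤ) * b) • x = x := by rw [hab, one_smul]
    rw [add_smul, mul_comm (Nat.card M : ℤ) b, mul_smul b, natCast_zsmul, h1, smul_zero, add_zero,
      mul_comm, mul_smul, natCast_zsmul] at h2
    exact h2
  refine ⟨k • ∑ r : R, (m - (r : T) • m), ?_, k • ∑ r : R, (r : T) • m, ?_, ?_⟩
  · apply AddSubgroup.zsmul_mem
    apply AddSubgroup.sum_mem
    intro r _
    rw [← neg_sub]
    exact AddSubgroup.neg_mem _ (AddSubgroup.subset_closure ⟨r, hRU r.2, m, rfl⟩)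
  · intro s hs
    have h1 : s • ∑ r : R, (r : T) • m = ∑ r : R, (r : T) • m := by
      rw [Finset.smul_sum]
      refine Fintype.sum_equiv (Equiv.mulLeft (⟨s, hs⟩ : R)) _ _ fun r => ?_
      rw [smul_smul]; rfl
    rw [smul_comm s k, h1]
  · rw [← smul_add, ← Finset.sum_add_distrib]
    simp only [sub_add_cancel, Finset.sum_const, Finset.card_univ]
    rw [← Nat.card_eq_fintype_card, hn, hk]

theorem good_solv {p : ℕ} [hp : Fact p.Prime] (w : MW) (G : Type) [Group G] [Finite G]
    (hG : Group.IsSolvable G) : Good p G w := by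
  refine reduction (fun G _ => Group.IsSolvable G) ?_ ?_ ?_ w _ G hG rfl
  · intro G _ K h
    exact inferInstanceAs (Group.IsSolvable K)
  · intro G _ N _ h
    exact inferInstanceAs (Group.IsSolvable (G ⧸ N))
  · intro E _ _ hE hB
    exfalso
    have hs := hB.simple
    have : Nontrivial E := by
      obtain ⟨x, y, hxy⟩ := hs.exists_pair_ne
      obtain ⟨a, rfl⟩ := QuotientGroup.mk_surjective x
      obtain ⟨b, rfl⟩ := QuotientGroup.mk_surjective y
      exact ⟨a, b, fun h => hxy (by rw [h])⟩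
    exact (Group.IsSolvable.commutator_lt_top_of_nontrivial E).ne hB.perfect

/-- The reduction theorem, keeping the information on proper subgroups. -/
theorem reduction3 {p : ℕ} [hp : Fact p.Prime] (w : MW) (C : ∀ (G : Type) [Group G], Prop)
    (hsub : ∀ (G : Type) [Group G] (K : Subgroup G), C G → C K)
    (hquot : ∀ (G : Type) [Group G] (N : Subgroup G) [N.Normal], C G → C (G ⧸ N))
    (hbase : ∀ (E : Type) [Group E] [Finite E], C E → Base p E →
      (∀ K : Subgroup E, K ≠ ⊤ → Good p K w) → Good p E w) :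
    ∀ (n : ℕ) (G : Type) [Group G] [Finite G], C G → Nat.card G = n → Good p G w := by
  intro n
  induction n using Nat.strong_induction_on with
  | _ n ih =>
    intro G _ _ hG hn
    by_cases hsol : Group.IsSolvable G
    · exact good_solv w G hsol
    have hq : ∀ D : Subgroup G, ∀ _ : D.Normal, IsPGroup p D → D ≠ ⊥ → Good p (G ⧸ D) w := by
      intro D hD hDp hD0
      refine ih _ ?_ (G ⧸ D) (hquot G D hG) rfl
      have h1 := card_mul_index D
      have h2 : 1 < Nat.card D := by
        have : Nat.card D ≠ 1 := fun h => hD0 ((card_eq_one).1 h)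
        have := Nat.card_pos (α := D)
        omega
      have h3 : Nat.card (G ⧸ D) = D.index := rfl
      have h4 : 0 < D.index := Nat.pos_of_ne_zero index_ne_zero_of_finite
      rw [h3, ← hn, ← h1]
      nlinarith
    have hs : ∀ K : Subgroup G, K ≠ ⊤ → Good p K w := by
      intro K hK
      refine ih _ ?_ K (hsub G K hG) rfl
      rw [← hn]
      exact lt_of_le_of_ne (card_le_card_group K) fun h => hK (card_eq_iff_eq_top K |>.1 h)
    have hDS : ∀ n, DS (⊤ : Subgroup G) n = derivedSeries G n := by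
      intro n
      induction n with
      | zero => rfl
      | succ n ih => rw [DS, ih, derivedSeries_succ]
    obtain ⟨m, hm⟩ := DS_stab (⊤ : Subgroup G)
    have hmn := DS_normal (⊤ : Subgroup G) m
    have hR0 : DS (⊤ : Subgroup G) m ≠ ⊥ := by
      intro h0
      rw [hDS] at h0
      exact hsol ⟨m, h0⟩
    by_cases hR1 : DS (⊤ : Subgroup G) m = ⊤
    · rw [hR1] at hm hR0
      have hperf : commutator G = ⊤ := hm
      have hnt : Nontrivial G := by
        by_contra hcon
        rw [not_nontrivial_iff_subsingleton] at hcon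
        exact hR0 (Subsingleton.elim _ _)
      by_cases hD : ∃ D : Subgroup G, D.Normal ∧ IsPGroup p D ∧ D ≠ ⊥
      · obtain ⟨D, hDn, hDp, hD0⟩ := hD
        exact perf_pnormal hperf hq D hDp hD0
      · push Not at hD
        by_contra hng
        exact hng (hbase G hG (perf_base hperf hs hD hng) hs)
    · exact perf_normal hs _ hm hR0 hR1

/-- Every nonabelian simple section of `G` of order divisible by `p` satisfies the condition. -/
def CG (p : ℕ) (w : MW) (G : Type) [Group G] : Prop :=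
  ∀ (K : Subgroup G) (T : Type) [Group T] (f : K →* T), Function.Surjective f →
    IsSimpleGroup T → (∃ x y : T, x * y ≠ y * x) → p ∣ Nat.card T →
    ∀ P : Sylow p T, (P : Subgroup T) ≤ closure (GS p w (P : Subgroup T))

theorem CG_sub {p : ℕ} (w : MW) (G : Type) [Group G] (K : Subgroup G) (h : CG p w G) :
    CG p w K := by
  intro L T _ f hf h1 h2 h3
  obtain ⟨e⟩ : Nonempty (L.map K.subtype ≃* L) :=
    ⟨(L.equivMapOfInjective K.subtype K.subtype_injective).symm⟩
  exact h (L.map K.subtype) T (f.comp e.toMonoidHom) (hf.comp e.surjective) h1 h2 h3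

theorem CG_quot {p : ℕ} (w : MW) (G : Type) [Group G] (N : Subgroup G) [N.Normal]
    (h : CG p w G) : CG p w (G ⧸ N) := by
  intro L T _ f hf h1 h2 h3
  exact h (L.comap (QuotientGroup.mk' N)) T (f.comp ((QuotientGroup.mk' N).subgroupComap L))
    (hf.comp (MonoidHom.subgroupComap_surjective_of_surjective _ _
      (QuotientGroup.mk'_surjective N))) h1 h2 h3

/-- **The strong reduction.** -/
theorem strong_all {p : ℕ} [hp : Fact p.Prime] (w : MW) (G : Type) [Group G] [Finite G]
    (hG : CG p w G) : Good p G w := by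
  refine reduction3 w (fun G _ => CG p w G) (fun G _ K h => CG_sub w G K h)
    (fun G _ N _ h => CG_quot w G N h) ?_ _ G hG rfl
  intro E _ _ hE hB hs
  have hk : (QuotientGroup.mk' (frattini E)).ker = frattini E := QuotientGroup.ker_mk' _
  have hsim := hB.simple
  refine strong hB.perfect (QuotientGroup.mk' (frattini E)) (QuotientGroup.mk'_surjective _)
    (by rw [hk]) (by rw [hk]; exact hB.coprime) w hs ?_
  refine hE ⊤ (E ⧸ frattini E) ((QuotientGroup.mk' (frattini E)).comp (⊤ : Subgroup E).subtype)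
    ?_ hsim ?_ hB.dvd
  · intro x
    obtain ⟨y, rfl⟩ := QuotientGroup.mk'_surjective _ x
    exact ⟨⟨y, mem_top y⟩, rfl⟩
  · by_contra hcon
    push Not at hcon
    have h1 : commutator (E ⧸ frattini E) = ⊥ := by
      rw [eq_bot_iff, commutator_def, commutator_le]
      intro x _ y _
      rw [mem_bot, commutatorElement_eq_one_iff_mul_comm]
      exact hcon x y
    have h2 : (commutator E).map (QuotientGroup.mk' (frattini E)) = commutator (E ⧸ frattini E) := by
      rw [commutator_def, map_commutator, ← MonoidHom.range_eq_map,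
        MonoidHom.range_eq_top.2 (QuotientGroup.mk'_surjective _), commutator_def]
    rw [hB.perfect, h1, ← MonoidHom.range_eq_map,
      MonoidHom.range_eq_top.2 (QuotientGroup.mk'_surjective _)] at h2
    exact top_ne_bot h2

/-- The generating pair property. -/
def SO (p : ℕ) (T : Type) [Group T] : Prop :=
  ∃ X : Set T, (∀ t ∈ X, ∃ a ∈ X, ∃ b ∈ X, closure {a, b} = ⊤ ∧ t = ⁅a, b⁆) ∧
    ∀ R : Subgroup T, IsPGroup p R → ∀ t ∈ normalizer (R : Set T),
      (∃ m : ℕ, ¬ p ∣ m ∧ t ^ m = 1) → (∃ x ∈ R, x * t ≠ t * x) → t ∈ X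

theorem GV_of {T : Type} [Group T] (X : Set T)
    (hX : ∀ t ∈ X, ∃ a ∈ X, ∃ b ∈ X, closure {a, b} = ⊤ ∧ t = ⁅a, b⁆) (w : MW) : X ⊆ GV T w := by
  induction w with
  | var => exact fun _ _ => Set.mem_univ _
  | comm u v hu hv =>
    intro t ht
    obtain ⟨a, ha, b, hb, hab, rfl⟩ := hX t ht
    exact ⟨a, hu ha, b, hv hb, hab, rfl⟩

theorem SO_GS {p : ℕ} [hp : Fact p.Prime] {T : Type} [Group T] [Finite T]
    (hT : commutator T = ⊤) (h : SO p T) (w : MW) (P : Sylow p T) :
    (P : Subgroup T) ≤ closure (GS p w (P : Subgroup T)) := by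
  obtain ⟨X, hX, hX2⟩ := h
  obtain ⟨Z, hZ, hZS⟩ := bp_of hT X hX hX2
  refine (hZS P).trans (Subgroup.closure_mono ?_)
  rintro x ⟨R, hRP, hxR, t, htZ, htR, hd⟩
  refine Or.inr (Or.inr ?_)
  have key : ∀ w : MW, ∃ d : ℕ, ∀ r ∈ R, (fun y : T => ⁅y, t⁆)^[d] r ∈ VS p (P : Subgroup T) w ∧
      (fun y : T => ⁅y, t⁆)^[d] r ∈ R := by
    intro w
    induction w with
    | var => exact ⟨0, fun r hr => ⟨hRP hr, hr⟩⟩
    | comm u v hu _ =>
      obtain ⟨d, hd⟩ := hu
      refine ⟨d + 1, fun r hr => ?_⟩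
      obtain ⟨h1, h2⟩ := hd r hr
      rw [Function.iterate_succ_apply']
      have h3 : t * (fun y : T => ⁅y, t⁆)^[d] r * t⁻¹ ∈ R := (htR _).1 h2
      constructor
      · refine Or.inl ⟨_, h1, t, hRP h3, ?_, rfl⟩
        cases v with
        | var => exact trivial
        | comm v₁ v₂ =>
          obtain ⟨a, ha, b, hb, hab, hab2⟩ := hZ t htZ
          refine ⟨a, GV_of Z hZ v₁ ha, b, GV_of Z hZ v₂ hb, hab2, ?_⟩
          rw [hab]
          refine fil_of_le _ _ ?_ le_top
          exact P.isPGroup'.to_le (by rw [zpowers_le]; exact hRP h3)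
      · show ⁅(fun y : T => ⁅y, t⁆)^[d] r, t⁆ ∈ R
        have h4 : ⁅(fun y : T => ⁅y, t⁆)^[d] r, t⁆ = (fun y : T => ⁅y, t⁆)^[d] r *
            (t * (fun y : T => ⁅y, t⁆)^[d] r * t⁻¹)⁻¹ := by
          rw [commutatorElement_def]; group
        rw [h4]
        exact R.mul_mem h2 (R.inv_mem h3)
  obtain ⟨d, hdw⟩ := key w
  obtain ⟨r, hr, rfl⟩ := hd d
  exact (hdw r hr).1

/-- The generating pair criterion. -/
theorem so_all {p : ℕ} [hp : Fact p.Prime] (w : MW) (G : Type) [Group G] [Finite G]
    (hG : ∀ (K : Subgroup G) (T : Type) [Group T] (f : K →* T), Function.Surjective f →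
      IsSimpleGroup T → (∃ x y : T, x * y ≠ y * x) → p ∣ Nat.card T → SO p T) : Good p G w := by
  apply strong_all w G
  intro K T _ f hf h1 h2 h3 P
  have hfin : Finite T := Finite.of_surjective f hf
  have hT : commutator T = ⊤ := by
    rcases (inferInstance : (commutator T).Normal).eq_bot_or_eq_top with h4 | h4
    · exfalso
      obtain ⟨x, y, hxy⟩ := h2
      apply hxy
      have h5 : ⁅x, y⁆ ∈ commutator T := commutator_mem_commutator (mem_top x) (mem_top y)
      rw [h4, mem_bot, commutatorElement_eq_one_iff_mul_comm] at h5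
      exact h5
    · exact h4
  exact SO_GS hT (hG K T f hf h1 h2 h3) w P

end Pool.Agent.Work.MP_8aaf67_al.SR
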