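import Pool.Agent.Work.MP_8aaf67_al.SR.Crit

/-!
# Pairs which generate a proper subgroup
-/

set_option autoImplicit false

namespace Pool.Agent.Work.MP_8aaf67_al.SR

open Subgroup
open scoped commutatorElement

theorem fill2 {E : Type*} [Group E] (C : Subgroup E) [hC : C.Normal]
    (hab : ∀ x ∈ C, ∀ y ∈ C, x * y = y * x) (a b : E) :
    ∃ M : Subgroup E, M ≤ C ∧ (∀ g ∈ closure {a, b}, ∀ c ∈ C, ⁅c, g⁆ ∈ M) ∧
      ∀ c ∈ M, ∃ c₁ ∈ C, ∃ c₂ ∈ C, c * ⁅a, b⁆ = ⁅a * c₁, b * c₂⁆ := by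
  have hcj : ∀ g : E, ∀ c ∈ C, g * c * g⁻¹ ∈ C := fun g c hc => hC.conj_mem c hc g
  have hmem : ∀ g : E, ∀ c ∈ C, ⁅c, g⁆ ∈ C := by
    intro g c hc
    have h1 : ⁅c, g⁆ = c * (g * c⁻¹ * g⁻¹) := by rw [commutatorElement_def]; group
    rw [h1]
    exact C.mul_mem hc (hcj g _ (C.inv_mem hc))
  have hmul : ∀ g : E, ∀ c ∈ C, ∀ d ∈ C, ⁅c * d, g⁆ = ⁅c, g⁆ * ⁅d, g⁆ := by
    intro g c hc d hd
    have h1 : ⁅c * d, g⁆ = c * ⁅d, g⁆ * (g * c⁻¹ * g⁻¹) := by
      simp only [commutatorElement_def]; group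
    rw [h1, mul_assoc, hab _ (hmem g d hd) _ (hcj g _ (C.inv_mem hc)), ← mul_assoc]
    simp only [commutatorElement_def]; group
  have hinv : ∀ g : E, ∀ c ∈ C, ⁅c⁻¹, g⁆ = ⁅c, g⁆⁻¹ := by
    intro g c hc
    rw [eq_inv_iff_mul_eq_one, ← hmul g _ (C.inv_mem hc) _ hc]
    simp
  obtain ⟨M, hM⟩ : ∃ M : Subgroup E, ∀ m, m ∈ M ↔ ∃ c₁ ∈ C, ∃ c₂ ∈ C, m = ⁅c₁, b⁻¹⁆ * ⁅c₂, a⁻¹⁆ :=
    ⟨{ carrier := {m | ∃ c₁ ∈ C, ∃ c₂ ∈ C, m = ⁅c₁, b⁻¹⁆ * ⁅c₂, a⁻¹⁆}
       mul_mem' := by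
         rintro _ _ ⟨c₁, h1, c₂, h2, rfl⟩ ⟨d₁, k1, d₂, k2, rfl⟩
         refine ⟨c₁ * d₁, C.mul_mem h1 k1, c₂ * d₂, C.mul_mem h2 k2, ?_⟩
         rw [hmul _ _ h1 _ k1, hmul _ _ h2 _ k2]
         have := hab _ (hmem b⁻¹ d₁ k1) _ (hmem a⁻¹ c₂ h2)
         rw [mul_assoc, mul_assoc, ← mul_assoc ⁅c₂, a⁻¹⁆, ← mul_assoc ⁅d₁, b⁻¹⁆, this]
       one_mem' := ⟨1, C.one_mem, 1, C.one_mem, by simp⟩
       inv_mem' := by
         rintro _ ⟨c₁, h1, c₂, h2, rfl⟩
         refine ⟨c₁⁻¹, C.inv_mem h1, c₂⁻¹, C.inv_mem h2, ?_⟩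
         rw [hinv _ _ h1, hinv _ _ h2, mul_inv_rev,
           hab _ (C.inv_mem (hmem _ _ h2)) _ (C.inv_mem (hmem _ _ h1))] }, fun _ => Iff.rfl⟩
  have hMC : M ≤ C := by
    intro m hm
    obtain ⟨c₁, h1, c₂, h2, rfl⟩ := (hM m).1 hm
    exact C.mul_mem (hmem _ _ h1) (hmem _ _ h2)
  have hb1 : ∀ c ∈ C, ⁅c, b⁻¹⁆ ∈ M := fun c hc => (hM _).2 ⟨c, hc, 1, C.one_mem, by simp⟩
  have ha1 : ∀ c ∈ C, ⁅c, a⁻¹⁆ ∈ M := fun c hc => (hM _).2 ⟨1, C.one_mem, c, hc, by simp⟩
  have hflip : ∀ g : E, (∀ c ∈ C, ⁅c, g⁻¹⁆ ∈ M) → ∀ c ∈ C, ⁅c, g⁆ ∈ M := by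
    intro g hg c hc
    have h1 := hg (g * c⁻¹ * g⁻¹) (hcj g _ (C.inv_mem hc))
    have h2 : ⁅g * c⁻¹ * g⁻¹, g⁻¹⁆ = (g * c⁻¹ * g⁻¹) * c := by
      simp only [commutatorElement_def]; group
    rw [h2, hab _ (hcj g _ (C.inv_mem hc)) _ hc] at h1
    have h3 : ⁅c, g⁆ = c * (g * c⁻¹ * g⁻¹) := by rw [commutatorElement_def]; group
    rw [h3]; exact h1
  have hcomm : ∀ g ∈ closure {a, b}, ∀ c ∈ C, ⁅c, g⁆ ∈ M := by
    obtain ⟨L, hL⟩ : ∃ L : Subgroup E, ∀ g, g ∈ L ↔ ∀ c ∈ C, ⁅c, g⁆ ∈ M :=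
      ⟨{ carrier := {g | ∀ c ∈ C, ⁅c, g⁆ ∈ M}
         mul_mem' := by
           intro g h hg hh c hc
           have h3 : ⁅c, g * h⁆ = ⁅c, g⁆ * (⁅c, h⁆ * ⁅⁅c, h⁆⁻¹, g⁆) := by
             simp only [commutatorElement_def]; group
           rw [h3]
           exact M.mul_mem (hg c hc) (M.mul_mem (hh c hc) (hg _ (C.inv_mem (hmem h c hc))))
         one_mem' := by
           intro c _
           simp
         inv_mem' := by
           intro g hg
           exact hflip g⁻¹ (by rw [inv_inv]; exact hg) }, fun _ => Iff.rfl⟩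
    have hLt : closure {a, b} ≤ L := by
      rw [closure_le]
      rintro g (rfl | hg)
      · exact (hL _).2 (hflip _ ha1)
      · rw [Set.mem_singleton_iff] at hg
        rw [hg]
        exact (hL _).2 (hflip _ hb1)
    exact fun g hg => (hL g).1 (hLt hg)
  refine ⟨M, hMC, hcomm, fun c hc => ?_⟩
  have hc' := hMC hc
  have habm : (a * b)⁻¹ ∈ closure {a, b} := inv_mem (mul_mem
    (Subgroup.subset_closure (Set.mem_insert _ _))
    (Subgroup.subset_closure (Set.mem_insert_of_mem _ rfl)))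
  have h1 : (a * b)⁻¹ * c * (a * b) ∈ M := by
    have h1 : (a * b)⁻¹ * c * (a * b) = c * ⁅c⁻¹, (a * b)⁻¹⁆ := by
      simp only [commutatorElement_def]; group
    rw [h1]
    exact M.mul_mem hc (hcomm _ habm _ (C.inv_mem hc'))
  obtain ⟨c₁, k1, c₂, k2, hk⟩ := (hM _).1 h1
  refine ⟨c₁⁻¹, C.inv_mem k1, c₂, k2, ?_⟩
  have h2 : c = (a * b) * (⁅c₁, b⁻¹⁆ * ⁅c₂, a⁻¹⁆) * (a * b)⁻¹ := by
    rw [← hk]; group
  have h3 := hab _ k1 _ k2
  have h4 : ⁅a * c₁⁻¹, b * c₂⁆ = a * c₁⁻¹ * b * (c₂ * c₁) * a⁻¹ * c₂⁻¹ * b⁻¹ := by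
    simp only [commutatorElement_def]; group
  rw [h4, ← h3, h2]
  have h5 := hab _ (hcj b⁻¹ _ (C.inv_mem k1)) _ k1
  simp only [inv_inv] at h5
  have h6 : ⁅c₁, b⁻¹⁆ = b⁻¹ * c₁⁻¹ * b * c₁ := by
    rw [h5, commutatorElement_def]; group
  rw [h6]
  simp only [commutatorElement_def]; group

/-- `M = [M, U] + C_M(R)` for all finite irreducible `T`-modules `M` such that the prime divisors
of `|M|` are different from `p` and divide `|T|`. -/
def Fil (p : ℕ) {T : Type} [Group T] (R U : Subgroup T) : Prop :=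
  ∀ (M : Type) [AddCommGroup M] [Finite M] [DistribMulAction T M], ¬ p ∣ Nat.card M →
    (∀ r : ℕ, r.Prime → r ∣ Nat.card M → r ∣ Nat.card T) →
    (∀ N : AddSubgroup M, (∀ g : T, ∀ x ∈ N, g • x ∈ N) → N = ⊥ ∨ N = ⊤) →
    ∀ m : M, ∃ m₁ ∈ AddSubgroup.closure {y : M | ∃ g ∈ U, ∃ x : M, y = g • x - x},
      ∃ m₂ : M, (∀ r ∈ R, r • m₂ = m₂) ∧ m = m₁ + m₂

/-- Prime divisors of the order of the Frattini subgroup. -/
theorem fratt_primes {E : Type*} [Group E] [Finite E] (K : Subgroup E) [hKn : K.Normal]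
    (hK : K ≤ frattini E) (r : ℕ) (hr : r.Prime) (h : r ∣ Nat.card K) : r ∣ K.index := by
  by_contra hcon
  have : Fact r.Prime := ⟨hr⟩
  obtain ⟨P⟩ : Nonempty (Sylow r K) := inferInstance
  obtain ⟨N, hN⟩ : ∃ N : Subgroup E, N = (P : Subgroup K).map K.subtype := ⟨_, rfl⟩
  have hNn : N.Normal := by
    have h1 := Sylow.normalizer_sup_eq_top P
    rw [← hN] at h1
    have h2 := frattini_nongenerating (K := normalizer (N : Set E)) (by
      rw [← top_le_iff, ← h1]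
      exact sup_le_sup_left hK _)
    exact normalizer_eq_top_iff.mp h2
  have hcN : Nat.card N = Nat.card P := by
    rw [hN]
    exact (Nat.card_congr ((P : Subgroup K).equivMapOfInjective _ K.subtype_injective).toEquiv).symm
  have hNK : N ≤ K := by rw [hN]; exact map_subtype_le _
  have hidx : N.index = (P : Subgroup K).index * K.index := by
    have h1 := card_mul_index N
    have h2 := card_mul_index K
    have h3 := card_mul_index (P : Subgroup K)
    rw [← h2, ← h3, hcN, mul_assoc] at h1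
    exact Nat.eq_of_mul_eq_mul_left Nat.card_pos h1
  obtain ⟨k, hk⟩ := IsPGroup.iff_card.1 P.isPGroup'
  have hcop : Nat.Coprime (Nat.card N) N.index := by
    rw [hcN, hidx]
    rw [hk]
    apply Nat.Coprime.pow_left
    rw [Nat.Prime.coprime_iff_not_dvd hr]
    intro hd
    rcases hr.dvd_mul.1 hd with hd | hd
    · exact P.not_dvd_index hd
    · exact hcon hd
  obtain ⟨H, hH⟩ := exists_right_complement'_of_coprime hcop
  have hHt : H = ⊤ := by
    apply frattini_nongenerating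
    rw [← top_le_iff, ← hH.sup_eq_top, sup_comm]
    exact sup_le_sup_left (hNK.trans hK) _
  have hN0 : N = ⊥ := by
    have := hH.isCompl.disjoint
    rw [hHt, disjoint_top] at this
    exact this
  have h1 : Nat.card (P : Subgroup K) = 1 := by
    have : Nat.card N = 1 := by rw [hN0]; simp
    rw [← this, hcN]
  have h2 := P.dvd_card_of_dvd_card h
  rw [h1, Nat.dvd_one] at h2
  exact hr.one_lt.ne' h2

section pair

variable {p : ℕ} [hp : Fact p.Prime]

omit hp in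
/-- Minimal normal subgroups inside the Frattini subgroup. -/
theorem exC {E : Type*} [Group E] [Finite E] (K : Subgroup E) [K.Normal] (hK : K ≤ frattini E)
    (hK0 : K ≠ ⊥) : ∃ C : Subgroup E, C.Normal ∧ C ≤ K ∧ C ≠ ⊥ ∧
      (∀ M : Subgroup E, M.Normal → M ≤ C → M = ⊥ ∨ M = C) ∧
      ∀ k ∈ K, ∀ c ∈ C, k * c * k⁻¹ = c := by
  obtain ⟨C, ⟨hCn, hCK, hC0⟩, hCmin⟩ : ∃ C : Subgroup E, (C.Normal ∧ C ≤ K ∧ C ≠ ⊥) ∧
      ∀ M : Subgroup E, (M.Normal ∧ M ≤ K ∧ M ≠ ⊥) → M ≤ C → C ≤ M := by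
    obtain ⟨C, hC⟩ := (Set.toFinite {C : Subgroup E | C.Normal ∧ C ≤ K ∧ C ≠ ⊥}).exists_minimal
      ⟨K, inferInstance, le_rfl, hK0⟩
    exact ⟨C, hC.prop, fun M hM hMC => hC.le_of_le hM hMC⟩
  have hmin : ∀ M : Subgroup E, M.Normal → M ≤ C → M = ⊥ ∨ M = C := by
    intro M hM hMC
    by_cases h0 : M = ⊥
    · exact Or.inl h0
    · exact Or.inr (le_antisymm hMC (hCmin M ⟨hM, hMC.trans hCK, h0⟩ hMC))
  refine ⟨C, hCn, hCK, hC0, hmin, ?_⟩
  have h1 : ⁅C, frattini E⁆ = ⊥ := by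
    rcases hmin ⁅C, frattini E⁆ inferInstance (commutator_le_left C _) with h0 | h0
    · exact h0
    · exfalso
      have hnil : Group.IsNilpotent (frattini E) := frattini_nilpotent
      obtain ⟨n, hn⟩ := (isNilpotent_iff_lowerCentralSeries (frattini E)).1 hnil
      have h2 : ∀ n, C ≤ (frattini E).lowerCentralSeries n := by
        intro n
        induction n with
        | zero => exact hCK.trans hK
        | succ n ih =>
          rw [Subgroup.lowerCentralSeries_succ]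
          conv_lhs => rw [← h0]
          exact commutator_mono ih le_rfl
      apply hC0
      rw [← le_bot_iff, ← hn]
      exact h2 n
  intro k hk c hc
  have h2 := commutator_mem_commutator hc (hK hk)
  rw [h1, mem_bot, commutatorElement_eq_one_iff_mul_comm] at h2
  rw [← h2]; group

omit hp in
/-- The group version of `Fil`. -/
theorem Fil.app {E T : Type} [Group E] [Group T] [Finite E] (π : E →* T)
    (hπ : Function.Surjective π) (C : Subgroup E) [hC : C.Normal]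
    (hab : ∀ x ∈ C, ∀ y ∈ C, x * y = y * x) (hcen : ∀ k ∈ π.ker, ∀ c ∈ C, k * c * k⁻¹ = c)
    (hpC : ¬ p ∣ Nat.card C) (hrC : ∀ r : ℕ, r.Prime → r ∣ Nat.card C → r ∣ Nat.card T)
    (hmin : ∀ M : Subgroup E, M.Normal → M ≤ C → M = ⊥ ∨ M = C)
    (R U : Subgroup T) (h : Fil p R U) (M : Subgroup E)
    (hM : ∀ g : E, π g ∈ U → ∀ c ∈ C, ⁅c, g⁆ ∈ M) :
    ∀ c ∈ C, ∃ m ∈ M, ∃ z ∈ C, (∀ r : E, π r ∈ R → r * z * r⁻¹ = z) ∧ c = m * z := by
  intro c hc
  let _ : CommGroup C := { (inferInstance : Group C) with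
    mul_comm := fun x y => Subtype.ext (hab x x.2 y y.2) }
  -- the action
  obtain ⟨s, hs⟩ : ∃ s : T → E, ∀ t, π (s t) = t := ⟨fun t => (hπ t).choose, fun t => (hπ t).choose_spec⟩
  have hwd : ∀ g g' : E, π g = π g' → ∀ c ∈ C, g * c * g⁻¹ = g' * c * g'⁻¹ := by
    intro g g' hg c hc
    have h1 : g'⁻¹ * g ∈ π.ker := by
      rw [MonoidHom.mem_ker, map_mul, map_inv, hg, inv_mul_cancel]
    have h2 := hcen _ h1 c hc
    have h3 : g * c * g⁻¹ = g' * ((g'⁻¹ * g) * c * (g'⁻¹ * g)⁻¹) * g'⁻¹ := by group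
    rw [h3, h2]
  let _ : DistribMulAction T (Additive C) :=
    { smul := fun t c => Additive.ofMul ⟨s t * (c.toMul : C) * (s t)⁻¹, hC.conj_mem _ c.toMul.2 _⟩
      one_smul := by
        intro c
        apply Additive.toMul.injective
        apply Subtype.ext
        show s 1 * (c.toMul : C) * (s 1)⁻¹ = (c.toMul : C)
        rw [hwd (s 1) 1 (by rw [hs, map_one]) _ c.toMul.2]; simp
      mul_smul := by
        intro x y c
        apply Additive.toMul.injective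
        apply Subtype.ext
        show s (x * y) * (c.toMul : C) * (s (x * y))⁻¹ =
          s x * (s y * (c.toMul : C) * (s y)⁻¹) * (s x)⁻¹
        rw [hwd (s (x * y)) (s x * s y) (by rw [hs, map_mul, hs, hs]) _ c.toMul.2]
        group
      smul_zero := by
        intro x
        apply Additive.toMul.injective
        apply Subtype.ext
        show s x * ((1 : C) : E) * (s x)⁻¹ = ((1 : C) : E)
        simp
      smul_add := by
        intro x c d
        apply Additive.toMul.injective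
        apply Subtype.ext
        show s x * ((c.toMul : C) * (d.toMul : C) : E) * (s x)⁻¹ =
          (s x * (c.toMul : C) * (s x)⁻¹) * (s x * (d.toMul : C) * (s x)⁻¹)
        group }
  have hsm : ∀ (t : T) (c : Additive C), (((t • c).toMul : C) : E) =
      s t * ((c.toMul : C) : E) * (s t)⁻¹ := fun _ _ => rfl
  have hcd : Nat.card (Additive C) = Nat.card C := Nat.card_congr Additive.toMul
  have hirr : ∀ N : AddSubgroup (Additive C), (∀ g : T, ∀ x ∈ N, g • x ∈ N) → N = ⊥ ∨ N = ⊤ := by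
    intro N hN
    obtain ⟨N', hN'⟩ : ∃ N' : Subgroup E, ∀ x, x ∈ N' ↔ ∃ c ∈ N, (((c : Additive C).toMul : C) : E) = x :=
      ⟨{ carrier := {x | ∃ c ∈ N, (((c : Additive C).toMul : C) : E) = x}
         mul_mem' := by
           rintro _ _ ⟨c, hc, rfl⟩ ⟨d, hd, rfl⟩
           exact ⟨c + d, N.add_mem hc hd, rfl⟩
         one_mem' := ⟨0, N.zero_mem, rfl⟩
         inv_mem' := by
           rintro _ ⟨c, hc, rfl⟩
           exact ⟨-c, N.neg_mem hc, rfl⟩ }, fun _ => Iff.rfl⟩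
    have h1 : N'.Normal := by
      constructor
      intro x hx g
      obtain ⟨c, hc, rfl⟩ := (hN' x).1 hx
      refine (hN' _).2 ⟨π g • c, hN _ c hc, ?_⟩
      rw [hsm]
      exact hwd _ _ (by rw [hs]) _ (c.toMul : C).2
    have h2 : N' ≤ C := by
      intro x hx
      obtain ⟨c, hc, rfl⟩ := (hN' x).1 hx
      exact (c.toMul : C).2
    rcases hmin N' h1 h2 with h3 | h3
    · left
      rw [eq_bot_iff]
      intro c hc
      have h4 : (((c : Additive C).toMul : C) : E) ∈ N' := (hN' _).2 ⟨c, hc, rfl⟩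
      rw [h3, Subgroup.mem_bot] at h4
      rw [AddSubgroup.mem_bot]
      apply Additive.toMul.injective
      exact Subtype.ext h4
    · right
      rw [eq_top_iff]
      intro c _
      have h4 : (((c : Additive C).toMul : C) : E) ∈ N' := by rw [h3]; exact (c.toMul : C).2
      obtain ⟨d, hd, hdc⟩ := (hN' _).1 h4
      have h5 : d = c := Additive.toMul.injective (Subtype.ext hdc)
      rw [← h5]; exact hd
  obtain ⟨m₁, hm₁, m₂, hm₂, hm⟩ := h (Additive C) (by rw [hcd]; exact hpC)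
    (by rw [hcd]; exact hrC) hirr (Additive.ofMul ⟨c, hc⟩)
  refine ⟨((m₁.toMul : C) : E), ?_, ((m₂.toMul : C) : E), (m₂.toMul : C).2, ?_, ?_⟩
  · refine AddSubgroup.closure_induction (p := fun y _ => ((y.toMul : C) : E) ∈ M)
      ?_ ?_ ?_ ?_ hm₁
    · rintro y ⟨g, hg, x, rfl⟩
      rw [sub_eq_add_neg]
      show ((((g • x).toMul : C) * (x.toMul : C)⁻¹ : C) : E) ∈ M
      rw [Subgroup.coe_mul, hsm, Subgroup.coe_inv]
      have h1 := hM (s g) (by rw [hs]; exact hg) _ (C.inv_mem (x.toMul : C).2)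
      have h2 : ⁅((x.toMul : C) : E)⁻¹, s g⁆ = ((x.toMul : C) : E)⁻¹ *
          (s g * ((x.toMul : C) : E) * (s g)⁻¹) := by
        rw [commutatorElement_def]; group
      rw [h2, hab _ (C.inv_mem (x.toMul : C).2) _ (hC.conj_mem _ (x.toMul : C).2 _)] at h1
      exact h1
    · exact M.one_mem
    · intro x y _ _ hx hy
      exact M.mul_mem hx hy
    · intro x _ hx
      exact M.inv_mem hx
  · intro r hr
    have h1 := congrArg (fun z : Additive C => ((z.toMul : C) : E)) (hm₂ (π r) hr)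
    simp only [hsm] at h1
    rw [hwd r (s (π r)) (by rw [hs]) _ (m₂.toMul : C).2]
    exact h1
  · exact congrArg (fun z : Additive C => ((z.toMul : C) : E)) hm

/-- Conjugacy of `p`-elements modulo a normal `p'`-subgroup. -/
theorem adj_elt {E : Type*} [Group E] [Finite E] {C : Subgroup E} [hCn : C.Normal]
    (hpC : ¬ p ∣ Nat.card C) (y c : E) (hc : c ∈ C) (hy : ∃ k : ℕ, y ^ p ^ k = 1)
    (hyc : ∃ k : ℕ, (y * c) ^ p ^ k = 1) : ∃ c₁ ∈ C, c₁ * (y * c) * c₁⁻¹ = y := by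
  have hpg : ∀ z : E, (∃ k : ℕ, z ^ p ^ k = 1) → IsPGroup p (zpowers z) := by
    rintro z ⟨k, hk⟩ ⟨x, hx⟩
    obtain ⟨n, rfl⟩ := hx
    refine ⟨k, Subtype.ext ?_⟩
    show (z ^ n) ^ p ^ k = 1
    rw [← zpow_natCast, ← zpow_mul, mul_comm, zpow_mul, zpow_natCast, hk, one_zpow]
  have hsyl : ∀ z : E, (∃ k : ℕ, z ^ p ^ k = 1) → ∀ M : Subgroup E, M = zpowers z ⊔ C →
      IsSyl p (zpowers z) M := by
    rintro z hz M rfl
    refine ⟨le_sup_left, hpg z hz, ?_⟩
    have h1 := relIndex_mul_relIndex (zpowers z ⊓ C) C (zpowers z ⊔ C) inf_le_right le_sup_right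
    have h2 := relIndex_mul_relIndex (zpowers z ⊓ C) (zpowers z) (zpowers z ⊔ C) inf_le_left
      le_sup_left
    rw [inf_relIndex_left] at h2
    rw [relIndex_sup_right] at h1
    have h3 : C.relIndex (zpowers z) ≠ 0 := by
      have := relIndex_dvd_card C (zpowers z)
      intro h0
      rw [h0, zero_dvd_iff] at this
      exact Nat.card_pos.ne' this
    have h4 : (zpowers z ⊓ C).relIndex C = (zpowers z).relIndex (zpowers z ⊔ C) := by
      apply Nat.eq_of_mul_eq_mul_right (Nat.pos_of_ne_zero h3)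
      rw [h1, ← h2, mul_comm]
    rw [← h4]
    exact fun h => hpC (h.trans (relIndex_dvd_card _ _))
  have e1 : zpowers (y * c) ⊔ C = zpowers y ⊔ C := by
    apply le_antisymm
    · refine sup_le ?_ le_sup_right
      rw [zpowers_le]
      exact mul_mem_sup (mem_zpowers y) hc
    · refine sup_le ?_ le_sup_right
      rw [zpowers_le]
      have h1 : y = (y * c) * c⁻¹ := by group
      rw [h1]
      exact mul_mem_sup (by rw [← h1]; exact mem_zpowers _) (C.inv_mem hc)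
  obtain ⟨m, hm, hmx⟩ := (hsyl (y * c) hyc _ e1.symm).conj (hsyl y hy _ rfl)
  have h1 := hmx _ (mem_zpowers (y * c))
  rw [mem_sup_of_normal_right] at hm
  obtain ⟨s, hs, d, hd, rfl⟩ := hm
  obtain ⟨i, rfl⟩ := hs
  refine ⟨d, hd, ?_⟩
  have h2 : d * (y * c) * d⁻¹ ∈ zpowers y := by
    have h3 : d * (y * c) * d⁻¹ = (y ^ i)⁻¹ * ((y ^ i * d) * (y * c) * (y ^ i * d)⁻¹) * y ^ i := by
      group
    rw [h3]
    exact mul_mem (mul_mem (inv_mem (zpow_mem (mem_zpowers y) i)) h1) (zpow_mem (mem_zpowers y) i)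
  -- compare modulo `C`
  have h3 : y⁻¹ * (d * (y * c) * d⁻¹) ∈ C := by
    have h4 : y⁻¹ * (d * (y * c) * d⁻¹) = (y⁻¹ * d * y) * (c * d⁻¹) := by group
    rw [h4]
    refine C.mul_mem ?_ (C.mul_mem hc (C.inv_mem hd))
    have := hCn.conj_mem d hd y⁻¹
    rwa [inv_inv] at this
  have h4 : y⁻¹ * (d * (y * c) * d⁻¹) ∈ zpowers y := mul_mem (inv_mem (mem_zpowers y)) h2
  have h5 : y⁻¹ * (d * (y * c) * d⁻¹) = 1 := by
    obtain ⟨k, hk⟩ := hpg y hy ⟨_, h4⟩
    have h6 : (y⁻¹ * (d * (y * c) * d⁻¹)) ^ p ^ k = 1 :=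
      congrArg (fun z : zpowers y => (z : E)) hk
    have h7 : orderOf (y⁻¹ * (d * (y * c) * d⁻¹)) ∣ Nat.card C :=
      Subgroup.orderOf_dvd_natCard _ h3
    rw [← orderOf_eq_one_iff]
    exact Nat.eq_one_of_dvd_coprimes (Nat.Coprime.pow_left k
      ((Nat.Prime.coprime_iff_not_dvd hp.out).2 hpC)) (orderOf_dvd_of_pow_eq_one h6) h7
  rw [inv_mul_eq_one] at h5
  exact h5.symm

theorem pair_elt {T : Type} [Group T] (Y : Set T) (u v : MW) (a₀ b₀ : T)
    (ha₀ : ∀ (E : Type) [Group E] (π : E →* T), Function.Surjective π → ∃ a ∈ NV π Y u, π a = a₀)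
    (hb₀ : ∀ (E : Type) [Group E] (π : E →* T), Function.Surjective π → ∃ b ∈ NV π Y v, π b = b₀)
    (z₀ : T)
    (hF : Fil p (zpowers z₀) (closure {a₀, b₀})) :
    ∀ n : ℕ, ∀ (E : Type) [Group E] [Finite E] (π : E →* T), Function.Surjective π →
      π.ker ≤ frattini E → ¬ p ∣ Nat.card π.ker → Nat.card π.ker = n →
      ∀ y z : E, (∃ k : ℕ, y ^ p ^ k = 1) → (∃ k : ℕ, z ^ p ^ k = 1) → π z = z₀ →
      z₀ = ⁅a₀, b₀⁆ * π y * ⁅a₀, b₀⁆⁻¹ →
      ∃ a ∈ NV π Y u, ∃ b ∈ NV π Y v, π a = a₀ ∧ π b = b₀ ∧ ⁅a, b⁆ * y * ⁅a, b⁆⁻¹ = z := by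
  intro n
  induction n using Nat.strong_induction_on with
  | _ n ih =>
    intro E _ _ π hπ hK hpK hn y z hy hz hπz hzy
    by_cases hker : π.ker = ⊥
    · obtain ⟨a, ha, hπa⟩ := ha₀ E π hπ
      obtain ⟨b, hb, hπb⟩ := hb₀ E π hπ
      refine ⟨a, ha, b, hb, hπa, hπb, ?_⟩
      apply (MonoidHom.ker_eq_bot_iff π).1 hker
      rw [hπz, hzy, map_mul, map_mul, map_inv, map_commutatorElement, hπa, hπb]
    obtain ⟨C, hCn, hCK, hC0, hmin, hcenK⟩ := exC π.ker hK hker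
    have hab : ∀ x ∈ C, ∀ y ∈ C, x * y = y * x := by
      intro x hx y hy
      have h1 := hcenK x (hCK hx) y hy
      have h2 : x * y = (x * y * x⁻¹) * x := by group
      rw [h2, h1]
    -- the quotient
    obtain ⟨ρ, hρ⟩ : ∃ ρ : E →* E ⧸ C, ρ = QuotientGroup.mk' C := ⟨_, rfl⟩
    have hρs : Function.Surjective ρ := by rw [hρ]; exact QuotientGroup.mk'_surjective C
    have hρk : ∀ x, ρ x = 1 ↔ x ∈ C := by
      intro x; rw [hρ]; exact QuotientGroup.eq_one_iff x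
    obtain ⟨π', hπ'⟩ : ∃ π' : E ⧸ C →* T, ∀ x, π' (ρ x) = π x :=
      ⟨QuotientGroup.lift C π fun x hx => hCK hx, fun x => by rw [hρ]; rfl⟩
    have hπ's : Function.Surjective π' := by
      intro t
      obtain ⟨x, rfl⟩ := hπ t
      exact ⟨ρ x, hπ' x⟩
    have hk' : π'.ker = π.ker.map ρ := by
      ext y
      obtain ⟨x, rfl⟩ := hρs y
      rw [MonoidHom.mem_ker, hπ']
      constructor
      · intro hx; exact mem_map_of_mem ρ hx
      · rintro ⟨z, hz, hzx⟩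
        rw [← hπ', ← hzx, hπ']; exact hz
    have hcC : 1 < Nat.card C := by
      have h1 : Nat.card C ≠ 1 := fun h => hC0 ((card_eq_one).1 h)
      have := Nat.card_pos (α := C)
      omega
    have hcard : Nat.card π'.ker < Nat.card π.ker := by
      have h1 := card_mul_index π.ker
      have h2 := card_mul_index π'.ker
      have h3 := card_mul_index C
      have h4 : Nat.card (E ⧸ C) = C.index := rfl
      have h5 : π.ker.index = π'.ker.index := by
        rw [index_ker, index_ker, MonoidHom.range_eq_top.2 hπ, MonoidHom.range_eq_top.2 hπ's]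
      have h6 : 0 < π'.ker.index := Nat.pos_of_ne_zero index_ne_zero_of_finite
      have h7 : 0 < Nat.card π'.ker := Nat.card_pos
      rw [h5] at h1
      rw [h4] at h2
      rw [← h3, ← h2] at h1
      by_contra hcon
      push Not at hcon
      have h8 : Nat.card π.ker * π'.ker.index ≤ Nat.card π'.ker * π'.ker.index :=
        Nat.mul_le_mul_right _ hcon
      rw [h1] at h8
      nlinarith [Nat.mul_pos h7 h6]
    have hpC : ¬ p ∣ Nat.card C := fun h => hpK (h.trans (card_dvd_of_le hCK))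
    obtain ⟨a', ha', b', hb', ha'0, hb'0, hconj⟩ := ih (Nat.card π'.ker) (hn ▸ hcard) (E ⧸ C)
      π' hπ's
      (by
        rw [hk', map_le_iff_le_comap]
        exact hK.trans (frattini_le_comap_frattini_of_surjective hρs))
      (fun h => hpK (h.trans (by rw [hk']; exact card_map_dvd _ ρ))) rfl (ρ y) (ρ z)
      (by obtain ⟨k, hk⟩ := hy; exact ⟨k, by rw [← map_pow, hk, map_one]⟩)
      (by obtain ⟨k, hk⟩ := hz; exact ⟨k, by rw [← map_pow, hk, map_one]⟩)
      (by rw [hπ', hπz]) (by rw [hπ', hzy])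
    obtain ⟨a, ha, rfl⟩ := NV_lift π π' ρ hρs hπ' Y u a' ha'
    obtain ⟨b, hb, rfl⟩ := NV_lift π π' ρ hρs hπ' Y v b' hb'
    rw [hπ'] at ha'0 hb'0
    obtain ⟨x, hx⟩ : ∃ x, x = ⁅a, b⁆ := ⟨_, rfl⟩
    have hx1 : z⁻¹ * (x * y * x⁻¹) ∈ C := by
      rw [← hρk, map_mul, map_inv, ← hconj, hx]
      simp only [map_mul, map_inv, map_commutatorElement]
      group
    obtain ⟨c, hc, hcx⟩ := adj_elt hpC z (z⁻¹ * (x * y * x⁻¹)) hx1 hz (by
      obtain ⟨k, hk⟩ := hy
      refine ⟨k, ?_⟩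
      rw [mul_inv_cancel_left, conj_pow, hk]; simp)
    rw [mul_inv_cancel_left] at hcx
    by_cases hcen : ∃ x ∈ C, ∃ y : E, x * y ≠ y * x
    · -- noncentral
      obtain ⟨M, hMC, hM1, hM2⟩ := fill2 C hab a b
      have hM3 : ∀ g : E, π g ∈ closure {a₀, b₀} → ∀ c ∈ C, ⁅c, g⁆ ∈ M := by
        intro g hg c hc
        have h1 : π g ∈ (closure {a, b}).map π := by
          rw [MonoidHom.map_closure, Set.image_pair, ha'0, hb'0]; exact hg
        obtain ⟨h, hh, hhg⟩ := h1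
        have h2 := hM1 h hh c hc
        have h3 : h⁻¹ * g ∈ π.ker := by
          rw [MonoidHom.mem_ker, map_mul, map_inv, hhg, inv_mul_cancel]
        have h4 := hcenK _ h3 _ (C.inv_mem hc)
        have h5 : ⁅c, g⁆ = ⁅c, h⁆ := by
          have h6 : ⁅c, g⁆ = c * (h * ((h⁻¹ * g) * c⁻¹ * (h⁻¹ * g)⁻¹) * h⁻¹) := by
            rw [commutatorElement_def]; group
          rw [h6, h4, commutatorElement_def]; group
        rw [h5]; exact h2
      have hrC : ∀ r : ℕ, r.Prime → r ∣ Nat.card C → r ∣ Nat.card T := by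
        intro r hr h
        have h1 := fratt_primes π.ker hK r hr (h.trans (card_dvd_of_le hCK))
        rwa [index_ker, MonoidHom.range_eq_top.2 hπ, card_top] at h1
      obtain ⟨m, hm, d, hd, hdR, hcmd⟩ := hF.app π hπ C hab hcenK hpC hrC hmin _ _ M hM3 c hc
      obtain ⟨c₁, k1, c₂, k2, hk⟩ := hM2 m hm
      have e1 : a * c₁ = (a * c₁ * a⁻¹) * a := by group
      have e2 : b * c₂ = (b * c₂ * b⁻¹) * b := by group
      refine ⟨a * c₁, ?_, b * c₂, ?_, ?_, ?_, ?_⟩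
      · rw [e1]; exact NV_mul π hK Y C hCK hab hmin hcen u a ha _ (hCn.conj_mem _ k1 a)
      · rw [e2]; exact NV_mul π hK Y C hCK hab hmin hcen v b hb _ (hCn.conj_mem _ k2 b)
      · rw [map_mul, hCK k1, mul_one, ha'0]
      · rw [map_mul, hCK k2, mul_one, hb'0]
      · rw [← hk, ← hx]
        have h2 := hdR z (by rw [hπz]; exact mem_zpowers z₀)
        have h3 : d⁻¹ * z * d = z := by
          have h4 : z * d = d * z := by
            conv_rhs => rw [← h2]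
            group
          rw [mul_assoc, h4]; group
        have h4 : m * x * y * (m * x)⁻¹ = d⁻¹ * (c * (x * y * x⁻¹) * c⁻¹) * d := by
          rw [hcmd, hab m (hMC hm) d hd]; group
        rw [h4, hcx, h3]
    · push Not at hcen
      refine ⟨a, ha, b, hb, ha'0, hb'0, ?_⟩
      rw [← hx, ← hcx, hcen c hc, mul_inv_cancel_right]

end pair

end Pool.Agent.Work.MP_8aaf67_al.SR
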