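import Pool.Agent.Work.MP_8aaf67_al.SR.Psol

/-!
# Reduction to perfect groups which are simple modulo the Frattini subgroup
-/

set_option autoImplicit false

namespace Pool.Agent.Work.MP_8aaf67_al.SR

open Subgroup
open scoped commutatorElement

section red

variable {G : Type*} [Group G] {p : ℕ} [hp : Fact p.Prime]

/-- The derived series of a normal subgroup. -/
def DS (M : Subgroup G) : ℕ → Subgroup G
  | 0 => M
  | n + 1 => ⁅DS M n, DS M n⁆

omit hp in
theorem DS_eq (M : Subgroup G) (n : ℕ) : DS M n = (derivedSeries M n).map M.subtype := by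
  induction n with
  | zero => simp [DS, derivedSeries_zero, ← MonoidHom.range_eq_map]
  | succ n ih => rw [DS, ih, derivedSeries_succ, map_commutator]

omit hp in
theorem DS_normal (M : Subgroup G) [hM : M.Normal] (n : ℕ) : (DS M n).Normal := by
  induction n with
  | zero => exact hM
  | succ n ih => rw [DS]; infer_instance

omit hp in
theorem DS_le (M : Subgroup G) (n : ℕ) : DS M n ≤ M := by
  rw [DS_eq]; exact map_subtype_le _

/-- soluble normal subgroups -/
theorem solv_pser [Finite G] (M : Subgroup G) [hM : M.Normal] (hs : Group.IsSolvable M) : PSer p M := by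
  classical
  intro L hL hLM
  obtain ⟨n, hn⟩ := hs.solvable
  have hex : ∃ i, DS M i ≤ L := ⟨n, by rw [DS_eq, hn, Subgroup.map_bot]; exact bot_le⟩
  obtain ⟨i, hi⟩ : ∃ i, i = Nat.find hex := ⟨_, rfl⟩
  have hi1 : DS M i ≤ L := hi ▸ Nat.find_spec hex
  have hi0 : i ≠ 0 := by
    rintro rfl
    exact not_le_of_gt hLM hi1
  obtain ⟨j, rfl⟩ := Nat.exists_eq_succ_of_ne_zero hi0
  have hj : ¬ DS M j ≤ L := by
    intro hcon
    have := Nat.find_min' hex hcon
    omega
  have hDn := DS_normal M j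
  obtain ⟨A, hA⟩ : ∃ A, A = L ⊔ DS M j := ⟨_, rfl⟩
  have hAn : A.Normal := by rw [hA]; infer_instance
  have hLA : L < A := by
    rw [hA]
    exact lt_of_le_of_ne le_sup_left fun he => hj (he ▸ le_sup_right)
  have hAM : A ≤ M := by rw [hA]; exact sup_le hLM.le (DS_le M j)
  obtain ⟨π, hπ⟩ : ∃ π, π = QuotientGroup.mk' L := ⟨_, rfl⟩
  have hπk : π.ker = L := by rw [hπ]; exact QuotientGroup.ker_mk' L
  have hπs : Function.Surjective π := by rw [hπ]; exact QuotientGroup.mk'_surjective L
  have hAπ : A.map π = (DS M j).map π := by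
    rw [hA, Subgroup.map_sup, (Subgroup.map_eq_bot_iff L).2 hπk.ge, bot_sup_eq]
  have hcomm : ∀ x ∈ A.map π, ∀ y ∈ A.map π, Commute x y := by
    rw [hAπ]
    rintro _ ⟨x, hx, rfl⟩ _ ⟨y, hy, rfl⟩
    rw [← commutatorElement_eq_one_iff_commute, ← map_commutatorElement, ← MonoidHom.mem_ker, hπk]
    exact hi1 (commutator_mem_commutator hx hy)
  obtain ⟨Nb, hNb⟩ : ∃ Nb : Subgroup (G ⧸ L), ∀ z, z ∈ Nb ↔ (z ∈ A.map π ∧ z ^ p = 1) :=
    ⟨{ carrier := {z | z ∈ A.map π ∧ z ^ p = 1}
       mul_mem' := by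
         rintro a b ⟨ha1, ha2⟩ ⟨hb1, hb2⟩
         exact ⟨mul_mem ha1 hb1, by rw [(hcomm a ha1 b hb1).mul_pow, ha2, hb2, one_mul]⟩
       one_mem' := ⟨one_mem _, one_pow _⟩
       inv_mem' := by
         rintro a ⟨ha1, ha2⟩
         exact ⟨inv_mem ha1, by rw [inv_pow, ha2, inv_one]⟩ }, fun z => Iff.rfl⟩
  have hAπn : (A.map π).Normal := hAn.map π hπs
  have hNbn : Nb.Normal := by
    constructor
    intro z hz g
    rw [hNb] at hz ⊢
    refine ⟨hAπn.conj_mem z hz.1 g, ?_⟩
    rw [conj_pow, hz.2]; simp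
  have hrel : ∀ K : Subgroup G, L.relIndex K = Nat.card (K.map π) := by
    intro K
    rw [← relIndex_ker, hπk]
  by_cases hN : Nb = ⊥
  · refine ⟨A, hAn, hLA, hAM, Or.inr ?_⟩
    rw [hrel]
    intro hd
    obtain ⟨z, hz⟩ := exists_prime_orderOf_dvd_card' p hd
    have h1 : (z : G ⧸ L) ∈ Nb := by
      rw [hNb]
      refine ⟨z.2, ?_⟩
      have := pow_orderOf_eq_one z
      rw [hz] at this
      exact congrArg (fun z : A.map π => (z : G ⧸ L)) this
    rw [hN, mem_bot] at h1
    have h2 : z = 1 := Subtype.ext h1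
    rw [h2, orderOf_one] at hz
    exact hp.out.one_lt.ne hz
  · refine ⟨Nb.comap π, hNbn.comap π, ?_, ?_, Or.inl ?_⟩
    · refine lt_of_le_of_ne ?_ ?_
      · intro x hx
        rw [mem_comap]
        have : π x = 1 := by rw [← MonoidHom.mem_ker, hπk]; exact hx
        rw [this]; exact one_mem _
      · intro he
        apply hN
        rw [eq_bot_iff]
        intro z hz
        obtain ⟨x, rfl⟩ := hπs z
        have : x ∈ L := he ▸ (mem_comap.2 hz)
        rw [mem_bot, ← MonoidHom.mem_ker, hπk]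
        exact this
    · intro x hx
      rw [mem_comap, hNb] at hx
      obtain ⟨⟨a, ha, hax⟩, -⟩ := hx
      have h1 : a⁻¹ * x ∈ L := by
        rw [← hπk, MonoidHom.mem_ker, map_mul, map_inv, hax, inv_mul_cancel]
      have h2 : x = a * (a⁻¹ * x) := by group
      rw [h2]
      exact hAM (A.mul_mem ha (hLA.le h1))
    · rw [hrel]
      have h1 : IsPGroup p ((Nb.comap π).map π) := by
        rintro ⟨z, hz⟩
        refine ⟨1, ?_⟩
        have h2 : z ∈ Nb := map_comap_le π Nb hz
        rw [hNb] at h2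
        apply Subtype.ext
        simpa using h2.2
      exact IsPGroup.iff_card.1 h1

omit hp in
theorem ver_perfect (G : Type*) [Group G] (h : commutator G = ⊤) (w : MW) : ver G w = ⊤ := by
  induction w with
  | var => rw [ver, val, Subgroup.closure_univ]
  | comm u v hu hv => rw [ver_comm, hu, hv]; exact h

/-- A proper nontrivial perfect normal subgroup. -/
theorem perf_normal [Finite G] {w : MW} (hs : ∀ K : Subgroup G, K ≠ ⊤ → Good p K w)
    (R : Subgroup G) [hRn : R.Normal] (hR : ⁅R, R⁆ = R) (hR0 : R ≠ ⊥) (hR1 : R ≠ ⊤) :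
    Good p G w := by
  have hns : ¬ Group.IsSolvable R := by
    intro hs
    apply hR0
    have h1 : ∀ n, DS R n = R := by
      intro n
      induction n with
      | zero => rfl
      | succ n ih => rw [DS, ih, hR]
    obtain ⟨n, hn⟩ := hs.solvable
    rw [← h1 n, DS_eq, hn, Subgroup.map_bot]
  obtain ⟨K, hK, hRK⟩ : ∃ K : Subgroup G, IsCoatom K ∧ ¬ R ≤ K := by
    by_contra hcon
    push Not at hcon
    have h1 : R ≤ frattini G := by
      rw [frattini, Order.radical]
      exact le_iInf₂ fun K hK => hcon K hK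
    apply hns
    have := frattini_nilpotent (G := G)
    exact Group.isSolvable_of_isSolvable_injective (f := inclusion h1) (inclusion_injective h1)
  have hRK' : R ⊔ K = ⊤ := by
    apply hK.2
    exact lt_of_le_of_ne le_sup_right fun he => hRK (he ▸ le_sup_left)
  obtain ⟨S, hS⟩ := supp R K hRK' (hs K hK.1)
  refine good_of_exists ⟨S, hS.trans (sup_le le_rfl ?_)⟩
  have sR : IsSyl p ((S : Subgroup G) ⊓ R) R := (isSyl_top S).inf_normal hRn le_top
  obtain ⟨T, hT⟩ : ∃ T : Sylow p R, (T : Subgroup R) = ((S : Subgroup G) ⊓ R).subgroupOf R :=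
    ⟨(sR.2.1.comap_subtype).toSylow (by exact sR.2.2), by simp⟩
  have hperf : commutator R = ⊤ := by
    apply (map_injective (R.subtype_injective))
    rw [_root_.commutator_def, map_commutator, ← MonoidHom.range_eq_map, range_subtype, hR]
  have h1 := hs R hR1 T
  rw [ver_perfect R hperf w, inf_top_eq] at h1
  intro x hx
  have h2 : (⟨x, hx.2⟩ : R) ∈ (T : Subgroup R) := by
    rw [hT, mem_subgroupOf]; exact hx
  have h3 := Qs_map w R.subtype (T : Subgroup R) (mem_map_of_mem R.subtype (h1 h2))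
  refine Qs_mono w ?_ h3
  rw [hT, subgroupOf_map_subtype]
  exact inf_le_left.trans inf_le_left

/-- Perfect groups with a normal `p`-subgroup. -/
theorem perf_pnormal [Finite G] {w : MW} (hG : commutator G = ⊤)
    (hq : ∀ D : Subgroup G, ∀ _ : D.Normal, IsPGroup p D → D ≠ ⊥ → Good p (G ⧸ D) w)
    (D : Subgroup G) [hD : D.Normal] (hDp : IsPGroup p D) (hD0 : D ≠ ⊥) : Good p G w := by
  by_contra hng
  obtain ⟨S⟩ : Nonempty (Sylow p G) := inferInstance
  have hno : ¬ ((S : Subgroup G) ⊓ ver G w ≤ Qs w (S : Subgroup G)) :=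
    fun h => hng (good_of_exists ⟨S, h⟩)
  have hW : ver G w = ⊤ := ver_perfect G hG w
  rw [hW, inf_top_eq] at hno
  have hq' : ∀ E : Subgroup G, E.Normal → IsPGroup p E → E ≠ ⊥ →
      (S : Subgroup G) ≤ Qs w (S : Subgroup G) ⊔ E := by
    intro E hE hEp hE0
    have := quot E hEp (hq E hE hEp hE0) S
    rwa [hW, inf_top_eq] at this
  -- no values in `D`
  have hval : closure (val G w ∩ D) = ⊥ := by
    by_contra h0
    have h1 := hq' (closure (val G w ∩ D)) (inter_normal w D)
      (hDp.to_le ((closure_le _).2 Set.inter_subset_right)) h0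
    have h2 : closure (val G w ∩ D) ≤ Qs w (S : Subgroup G) :=
      Subgroup.closure_mono (Set.inter_subset_inter_right _ (hDp.le_sylow_of_normal S))
    rw [sup_eq_left.2 h2] at h1
    exact hno h1
  have hcen : ∀ x ∈ D, ∀ y : G, x * y = y * x := by
    intro x hx y
    have h1 := marg w D (commutator_mem_commutator hx (hW ▸ mem_top y))
    rw [hval] at h1
    exact commutatorElement_eq_one_iff_mul_comm.1 (mem_bot.1 h1)
  have hSQ := hq' D hD hDp hD0
  have hDS : D ≤ (S : Subgroup G) := hDp.le_sylow_of_normal S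
  -- commutators of `S`
  have hSS : ∀ x ∈ (S : Subgroup G), ∀ y ∈ (S : Subgroup G), ⁅x, y⁆ ∈ Qs w (S : Subgroup G) := by
    intro x hx y hy
    obtain ⟨a, ha, d, hd, rfl⟩ := mem_sup_of_normal_right.1 (hSQ hx)
    obtain ⟨b, hb, e, he, rfl⟩ := mem_sup_of_normal_right.1 (hSQ hy)
    have h1 : ⁅a * d, b * e⁆ = ⁅a, b⁆ := by
      have c1 := hcen d hd
      have c2 := hcen e he
      rw [commutatorElement_def, commutatorElement_def]
      calc a * d * (b * e) * (a * d)⁻¹ * (b * e)⁻¹
          = a * (d * (b * e)) * d⁻¹ * a⁻¹ * e⁻¹ * b⁻¹ := by group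
        _ = a * b * (e * a⁻¹) * e⁻¹ * b⁻¹ := by rw [c1 (b * e)]; group
        _ = a * b * a⁻¹ * b⁻¹ := by rw [c2 a⁻¹]; group
    rw [h1, commutatorElement_def]
    exact mul_mem (mul_mem (mul_mem ha hb) (inv_mem ha)) (inv_mem hb)
  -- transfer
  have hDQ : D ≤ Qs w (S : Subgroup G) := by
    intro z hz
    obtain ⟨T, hT⟩ : ∃ T : G →* Abelianization (S : Subgroup G),
      T = MonoidHom.transfer (Abelianization.of (G := (S : Subgroup G))) := ⟨_, rfl⟩
    have hT1 : T z = 1 := by
      have h1 : commutator G ≤ T.ker := Abelianization.commutator_subset_ker T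
      rw [hG] at h1
      exact MonoidHom.mem_ker.1 (h1 (mem_top z))
    have key : ∀ (k : ℕ) (g₀ : G), g₀⁻¹ * z ^ k * g₀ ∈ (S : Subgroup G) →
        g₀⁻¹ * z ^ k * g₀ = z ^ k := by
      intro k g₀ _
      have h1 : z ^ k ∈ D := D.pow_mem hz k
      rw [mul_assoc, hcen _ h1 g₀]; group
    rw [hT, MonoidHom.transfer_eq_pow _ z key] at hT1
    have h2 : (⟨z ^ (S : Subgroup G).index, MonoidHom.transfer_eq_pow_aux z key⟩ :
        (S : Subgroup G)) ∈ commutator (S : Subgroup G) := by
      rw [← Abelianization.ker_of, MonoidHom.mem_ker]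
      exact hT1
    have h3 : (commutator (S : Subgroup G)).map (S : Subgroup G).subtype ≤
        Qs w (S : Subgroup G) := by
      rw [_root_.commutator_def, map_commutator, ← MonoidHom.range_eq_map, range_subtype,
        commutator_le]
      exact hSS
    have h4 : z ^ (S : Subgroup G).index ∈ Qs w (S : Subgroup G) :=
      h3 (mem_map_of_mem (S : Subgroup G).subtype h2)
    -- `z` is a power of this element
    obtain ⟨n, hn⟩ := hDp ⟨z, hz⟩
    have hn' : z ^ (p ^ n) = 1 := congrArg (fun x : D => (x : G)) hn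
    have hcop : Nat.Coprime (S : Subgroup G).index (p ^ n) :=
      (Nat.Coprime.pow_left n ((Nat.Prime.coprime_iff_not_dvd hp.out).2 S.not_dvd_index)).symm
    obtain ⟨m, hm⟩ := exists_pow_eq_self_of_coprime
      (hcop.coprime_dvd_right (orderOf_dvd_of_pow_eq_one hn'))
    rw [← hm]
    exact pow_mem h4 m
  rw [sup_eq_left.2 hDQ] at hSQ
  exact hno hSQ

end red

end Pool.Agent.Work.MP_8aaf67_al.SR
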