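import Pool.Agent.Work.MP_8aaf67_al.SR.Pair
import Pool.Agent.Work.MP_8aaf67_al.SR.Bridge

/-!
# The strong reduction
-/

set_option autoImplicit false

namespace Pool.Agent.Work.MP_8aaf67_al.SR

open Subgroup
open scoped commutatorElement

/-- Iterated commutators of generating pairs of `T`, following the word. -/
def GV (T : Type) [Group T] : MW → Set T
  | .var => Set.univ
  | .comm u v => {t | ∃ a ∈ GV T u, ∃ b ∈ GV T v, closure {a, b} = ⊤ ∧ t = ⁅a, b⁆}

/-- `t` is arbitrary (for a variable), or `t = [a, b]` with `a, b` as in `GV` and the condition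
`Fil` for the group generated by `a, b` and the element `z`. -/
def AD (p : ℕ) (T : Type) [Group T] : MW → T → T → Prop
  | .var, _, _ => True
  | .comm u v, t, z => ∃ a ∈ GV T u, ∃ b ∈ GV T v, t = ⁅a, b⁆ ∧
      Fil p (zpowers z) (closure {a, b})

/-- Elements of `P` which are commutators following the word `w`, with one entry in `P`. -/
def VS (p : ℕ) {T : Type} [Group T] (P : Subgroup T) : MW → Set T
  | .var => P
  | .comm u v =>
      {x | ∃ y ∈ VS p P u, ∃ t : T, t * y * t⁻¹ ∈ P ∧ AD p T v t (t * y * t⁻¹) ∧ x = ⁅y, t⁆} ∪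
      {x | ∃ y ∈ VS p P v, ∃ t : T, t * y * t⁻¹ ∈ P ∧ AD p T u t (t * y * t⁻¹) ∧ x = ⁅t, y⁆}

/-- The elements of `P` which are under control. -/
def GS (p : ℕ) (w : MW) {T : Type} [Group T] (P : Subgroup T) : Set T :=
  {x | (∃ Y Q : Subgroup T, Y ≠ ⊤ ∧ Q ≤ Y ∧ Q ≤ P ∧ ¬ p ∣ Q.relIndex Y ∧ x ∈ Q ∧
      x ∈ (ver Y w).map Y.subtype) ∨
    (∃ R : Subgroup T, R ≤ P ∧ x ∈ ⁅R, (ver (normalizer (R : Set T)) w).map
      (normalizer (R : Set T)).subtype⁆) ∨ x ∈ VS p P w}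

section strong

variable {p : ℕ} [hp : Fact p.Prime] {E T : Type} [Group E] [Group T] [Finite E]

theorem inj_on (π : E →* T) (hpK : ¬ p ∣ Nat.card π.ker) {S : Subgroup E} (hS : IsPGroup p S) :
    ∀ x ∈ S, ∀ y ∈ S, π x = π y → x = y := by
  have hinj : ∀ x ∈ S, π x = 1 → x = 1 := by
    intro x hx hx1
    have h1 : orderOf x ∣ Nat.card π.ker := Subgroup.orderOf_dvd_natCard _ hx1
    obtain ⟨k, hk⟩ := hS ⟨x, hx⟩
    have h2 : x ^ p ^ k = 1 := congrArg (fun z : S => (z : E)) hk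
    rw [← orderOf_eq_one_iff]
    exact Nat.eq_one_of_dvd_coprimes (Nat.Coprime.pow_left k
      ((Nat.Prime.coprime_iff_not_dvd hp.out).2 hpK)) (orderOf_dvd_of_pow_eq_one h2) h1
  intro x hx y hy hxy
  have := hinj (x * y⁻¹) (S.mul_mem hx (S.inv_mem hy))
    (by rw [map_mul, map_inv, hxy, mul_inv_cancel])
  rwa [mul_inv_eq_one] at this

/-- Case (a): Sylow subgroups of proper subgroups. -/
theorem caseA (π : E →* T) (hπ : Function.Surjective π)
    (hpK : ¬ p ∣ Nat.card π.ker) (w : MW) (hs : ∀ K : Subgroup E, K ≠ ⊤ → Good p K w)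
    (S : Sylow p E) (Y Q : Subgroup T) (hY : Y ≠ ⊤) (hQY : Q ≤ Y)
    (hQS : Q ≤ (S : Subgroup E).map π) (hQ : ¬ p ∣ Q.relIndex Y) (x : T) (hxQ : x ∈ Q)
    (hx : x ∈ (ver Y w).map Y.subtype) : x ∈ (Qs w (S : Subgroup E)).map π := by
  obtain ⟨Y', hY'⟩ : ∃ Y', Y' = Y.comap π := ⟨_, rfl⟩
  obtain ⟨Q', hQ'⟩ : ∃ Q', Q' = (S : Subgroup E) ⊓ Q.comap π := ⟨_, rfl⟩
  have hQ'S : Q' ≤ (S : Subgroup E) := by rw [hQ']; exact inf_le_left
  have hQ'Q : Q' ≤ Q.comap π := by rw [hQ']; exact inf_le_right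
  have hQY' : Q' ≤ Y' := by rw [hY']; exact hQ'Q.trans (comap_mono hQY)
  have hQ'p : IsPGroup p Q' := S.isPGroup'.to_le hQ'S
  have hYt : Y' ≠ ⊤ := by
    intro h
    apply hY
    rw [eq_top_iff]
    intro t _
    obtain ⟨e, rfl⟩ := hπ t
    have : e ∈ Y' := h ▸ mem_top e
    rw [hY'] at this
    exact this
  have hsyl : IsSyl p Q' Y' := by
    refine ⟨hQY', hQ'p, ?_⟩
    have h1 : Q.comap π ≤ Q' ⊔ π.ker := by
      intro e he
      obtain ⟨s, hs, hse⟩ := hQS (show π e ∈ Q from he)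
      have h2 : s⁻¹ * e ∈ π.ker := by rw [MonoidHom.mem_ker, map_mul, map_inv, hse, inv_mul_cancel]
      have h3 : e = s * (s⁻¹ * e) := by group
      rw [h3]
      refine mul_mem_sup ?_ h2
      rw [hQ']
      refine ⟨hs, ?_⟩
      show π s ∈ Q
      rw [hse]; exact he
    have h2 := relIndex_mul_relIndex Q' (Q.comap π) Y' hQ'Q (by rw [hY']; exact comap_mono hQY)
    have h3 : (Q.comap π).relIndex Y' = Q.relIndex Y := by
      rw [relIndex_comap, hY', map_comap_eq_self_of_surjective hπ]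
    have h4 : Q'.relIndex (Q.comap π) ∣ Nat.card π.ker := by
      have h5 : Q'.relIndex (Q.comap π) ∣ Q'.relIndex (Q' ⊔ π.ker) :=
        ⟨_, (relIndex_mul_relIndex Q' (Q.comap π) (Q' ⊔ π.ker) hQ'Q h1).symm⟩
      have h6 := relIndex_mul_relIndex (Q' ⊓ π.ker) π.ker (Q' ⊔ π.ker) inf_le_right le_sup_right
      have h7 := relIndex_mul_relIndex (Q' ⊓ π.ker) Q' (Q' ⊔ π.ker) inf_le_left le_sup_left
      rw [inf_relIndex_left] at h7
      rw [relIndex_sup_right] at h6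
      have h8 : π.ker.relIndex Q' ≠ 0 := by
        have := relIndex_dvd_card π.ker Q'
        intro h0
        rw [h0, zero_dvd_iff] at this
        exact Nat.card_pos.ne' this
      have h9 : (Q' ⊓ π.ker).relIndex π.ker = Q'.relIndex (Q' ⊔ π.ker) := by
        apply Nat.eq_of_mul_eq_mul_right (Nat.pos_of_ne_zero h8)
        rw [h6, ← h7, mul_comm]
      rw [← h9] at h5
      exact h5.trans (relIndex_dvd_card _ _)
    rw [h3] at h2
    rw [← h2]
    intro h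
    rcases hp.out.dvd_mul.1 h with h | h
    · exact hpK (h.trans h4)
    · exact hQ h
  -- the Sylow subgroup of `Y'`
  obtain ⟨P, hP⟩ : ∃ P : Sylow p Y', (P : Subgroup Y') = Q'.subgroupOf Y' :=
    ⟨(hQ'p.comap_subtype : IsPGroup p (Q'.subgroupOf Y')).toSylow (by exact hsyl.2.2), by simp⟩
  obtain ⟨x', hx'S, hx'⟩ := hQS hxQ
  have hx'Q : x' ∈ Q' := by
    rw [hQ']
    exact ⟨hx'S, by show π x' ∈ Q; rw [hx']; exact hxQ⟩
  have hx'Y : x' ∈ Y' := hQY' hx'Q
  -- it lies in `w(Y')`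
  obtain ⟨y, hy, hyx⟩ := hx
  have hver : (⟨x', hx'Y⟩ : Y') ∈ ver Y' w := by
    subst hY'
    have h1 := ver_map (π.subgroupComap Y) (MonoidHom.subgroupComap_surjective_of_surjective π Y hπ) w
    rw [← h1] at hy
    obtain ⟨z, hz, hzy⟩ := hy
    have h2 : π z = x := by
      rw [← hyx, ← hzy]; rfl
    have h3 : (z : E)⁻¹ * x' ∈ π.ker := by
      rw [MonoidHom.mem_ker, map_mul, map_inv, h2, hx', inv_mul_cancel]
    rw [← QuotientGroup.eq_one_iff, ← orderOf_eq_one_iff]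
    obtain ⟨k, hk⟩ := S.isPGroup' ⟨x', hx'S⟩
    have h4 : x' ^ p ^ k = 1 := congrArg (fun z : (S : Subgroup E) => (z : E)) hk
    have h5 : (QuotientGroup.mk ⟨x', hx'Y⟩ : Y.comap π ⧸ ver (Y.comap π) w) ^ p ^ k = 1 := by
      rw [← QuotientGroup.mk_pow]
      have : (⟨x', hx'Y⟩ : Y.comap π) ^ p ^ k = 1 := Subtype.ext h4
      rw [this]; rfl
    have h6 : ((z : E)⁻¹ * x') ^ Nat.card π.ker = 1 := by
      have := pow_card_eq_one' (x := (⟨(z : E)⁻¹ * x', h3⟩ : π.ker))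
      exact congrArg (fun z : π.ker => (z : E)) this
    have h7 : (QuotientGroup.mk ⟨x', hx'Y⟩ : Y.comap π ⧸ ver (Y.comap π) w) ^ Nat.card π.ker = 1 := by
      have h8 : (QuotientGroup.mk ⟨x', hx'Y⟩ : Y.comap π ⧸ ver (Y.comap π) w) =
          QuotientGroup.mk (z⁻¹ * ⟨x', hx'Y⟩) := by
        rw [QuotientGroup.mk_mul, QuotientGroup.mk_inv, (QuotientGroup.eq_one_iff z).2 hz]
        simp
      rw [h8, ← QuotientGroup.mk_pow]
      have : (z⁻¹ * ⟨x', hx'Y⟩ : Y.comap π) ^ Nat.card π.ker = 1 := Subtype.ext h6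
      rw [this]; rfl
    exact Nat.eq_one_of_dvd_coprimes (Nat.Coprime.pow_left k
      ((Nat.Prime.coprime_iff_not_dvd hp.out).2 hpK)) (orderOf_dvd_of_pow_eq_one h5)
      (orderOf_dvd_of_pow_eq_one h7)
  have h1 := hs Y' hYt P ⟨show (⟨x', hx'Y⟩ : Y') ∈ (P : Subgroup Y') by rw [hP]; exact hx'Q, hver⟩
  have h2 := Qs_map w Y'.subtype _ (mem_map_of_mem Y'.subtype h1)
  rw [hP, map_subgroupOf_eq_of_le hQY'] at h2
  exact ⟨x', Qs_mono w hQ'S h2, hx'⟩

/-- Lifting the normaliser. -/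
theorem lift_norm (π : E →* T) (hπ : Function.Surjective π) (hpK : ¬ p ∣ Nat.card π.ker)
    (S : Sylow p E) (R : Subgroup T) (hRS : R ≤ (S : Subgroup E).map π) (t : T)
    (ht : t ∈ normalizer (R : Set T)) :
    ∃ h ∈ normalizer (((S : Subgroup E) ⊓ R.comap π : Subgroup E) : Set E), π h = t := by
  obtain ⟨R', hR'⟩ : ∃ R' : Subgroup E, R' = (S : Subgroup E) ⊓ R.comap π := ⟨_, rfl⟩
  rw [← hR']
  have hR'p : IsPGroup p R' := S.isPGroup'.to_le (by rw [hR']; exact inf_le_left)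
  obtain ⟨e, he⟩ := hπ t
  obtain ⟨c, hc, hce⟩ := adj (C := π.ker) hR'p hpK e (by
    intro r hr
    have hr2 : π r ∈ R := by rw [hR'] at hr; exact hr.2
    have h1 : π (e * r * e⁻¹) ∈ R := by
      rw [map_mul, map_mul, map_inv, he]
      exact (ht _).1 hr2
    obtain ⟨s, hs, hse⟩ := hRS h1
    have h2 : s⁻¹ * (e * r * e⁻¹) ∈ π.ker := by
      rw [MonoidHom.mem_ker, map_mul, map_inv, hse, inv_mul_cancel]
    have h3 : e * r * e⁻¹ = s * (s⁻¹ * (e * r * e⁻¹)) := by group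
    rw [h3]
    refine mul_mem_sup ?_ h2
    rw [hR']
    exact ⟨hs, by show π s ∈ R; rw [hse]; exact h1⟩)
  exact ⟨c * e, norm_of_le hce, by rw [map_mul, hc, one_mul, he]⟩

/-- Case (c). -/
theorem caseC (π : E →* T) (hπ : Function.Surjective π)
    (hpK : ¬ p ∣ Nat.card π.ker) (w : MW) (S : Sylow p E) (R : Subgroup T)
    (hRS : R ≤ (S : Subgroup E).map π) :
    ⁅R, (ver (normalizer (R : Set T)) w).map (normalizer (R : Set T)).subtype⁆ ≤
      (Qs w (S : Subgroup E)).map π := by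
  obtain ⟨R', hR'⟩ : ∃ R' : Subgroup E, R' = (S : Subgroup E) ⊓ R.comap π := ⟨_, rfl⟩
  have hR'S : R' ≤ (S : Subgroup E) := by rw [hR']; exact inf_le_left
  have hmap : R'.map π = R := by
    apply le_antisymm
    · rintro _ ⟨r, hr, rfl⟩
      rw [hR'] at hr; exact hr.2
    · intro r hr
      obtain ⟨s, hs, rfl⟩ := hRS hr
      exact ⟨s, by rw [hR']; exact ⟨hs, hr⟩, rfl⟩
  obtain ⟨N', hN'⟩ : ∃ N', N' = normalizer (R' : Set E) := ⟨_, rfl⟩
  have hN : ∀ e : N', π e ∈ normalizer (R : Set T) := by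
    have hfin : Finite R := by
      rw [← hmap]
      have := ((Set.toFinite (R' : Set E)).image π)
      exact this.to_subtype
    intro e t
    have he : (e : E) ∈ normalizer (R' : Set E) := by rw [← hN']; exact e.2
    constructor
    · intro ht
      rw [← hmap] at ht
      obtain ⟨r, hr, rfl⟩ := ht
      rw [← hmap]
      exact ⟨e * r * (e : E)⁻¹, (he r).1 hr, by simp⟩
    · intro ht
      rw [← hmap] at ht
      obtain ⟨r, hr, hrt⟩ := ht
      rw [← hmap]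
      refine ⟨(e : E)⁻¹ * r * e, ?_, ?_⟩
      · have h1 := (inv_mem he : (e : E)⁻¹ ∈ normalizer (R' : Set E))
        have := (h1 r).1 hr
        rwa [inv_inv] at this
      · rw [map_mul, map_mul, hrt, map_inv]; group
  obtain ⟨f, hf⟩ : ∃ f : N' →* normalizer (R : Set T), ∀ e : N', (f e : T) = π e :=
    ⟨(π.comp N'.subtype).codRestrict _ hN, fun e => rfl⟩
  have hfs : Function.Surjective f := by
    intro t
    obtain ⟨h, hh, hht⟩ := lift_norm π hπ hpK S R hRS t t.2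
    rw [← hR', ← hN'] at hh
    exact ⟨⟨h, hh⟩, Subtype.ext (by rw [hf]; exact hht)⟩
  have hRn : (R'.subgroupOf N').Normal := by
    rw [hN']; infer_instance
  have h1 := marg w (R'.subgroupOf N')
  have h2 := Subgroup.map_mono (f := N'.subtype) h1
  rw [map_commutator, map_subgroupOf_eq_of_le (by rw [hN']; exact le_normalizer)] at h2
  have h3 : (closure (val N' w ∩ (R'.subgroupOf N' : Set N'))).map N'.subtype ≤
      Qs w (S : Subgroup E) := by
    rw [MonoidHom.map_closure, closure_le]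
    rintro _ ⟨y, ⟨hy1, hy2⟩, rfl⟩
    exact Subgroup.subset_closure ⟨val_map N'.subtype w y hy1, hR'S hy2⟩
  have h4 := Subgroup.map_mono (f := π) (h2.trans h3)
  rw [map_commutator, hmap] at h4
  refine le_trans (commutator_mono le_rfl ?_) h4
  rintro _ ⟨y, hy, rfl⟩
  rw [← ver_map f hfs] at hy
  obtain ⟨z, hz, rfl⟩ := hy
  exact ⟨z, ⟨z, hz, rfl⟩, (hf z).symm⟩

theorem VS_sub (P : Subgroup T) (w : MW) : VS p P w ⊆ P := by
  induction w with
  | var => exact le_rfl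
  | comm u v hu hv =>
    rintro x (⟨y, hy, t, h1, -, rfl⟩ | ⟨y, hy, t, h1, -, rfl⟩)
    · have h2 : ⁅y, t⁆ = y * (t * y * t⁻¹)⁻¹ := by
        rw [commutatorElement_def y]; group
      rw [h2]
      exact P.mul_mem (hu hy) (P.inv_mem h1)
    · have h2 : ⁅t, y⁆ = (t * y * t⁻¹) * y⁻¹ := by
        rw [commutatorElement_def t]
      rw [h2]
      exact P.mul_mem h1 (P.inv_mem (hv hy))

theorem NV_GV {E : Type} [Group E] (π : E →* T) (hπ : Function.Surjective π) (w : MW) :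
    ∀ t ∈ GV T w, ∃ x ∈ NV π Set.univ w, π x = t := by
  induction w with
  | var => intro t _; obtain ⟨x, rfl⟩ := hπ t; exact ⟨x, Set.mem_univ _, rfl⟩
  | comm u v hu hv =>
    rintro t ⟨a, ha, b, hb, hab, rfl⟩
    obtain ⟨a', ha', rfl⟩ := hu a ha
    obtain ⟨b', hb', rfl⟩ := hv b hb
    exact ⟨⁅a', b'⁆, ⟨a', ha', b', hb', hab, rfl⟩, map_commutatorElement π a' b'⟩

/-- A `v`-value with a given action on one element. -/
theorem ad_val (π : E →* T) (hπ : Function.Surjective π) (hK : π.ker ≤ frattini E)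
    (hpK : ¬ p ∣ Nat.card π.ker) (v : MW) (t : T) (y z : E) (hy : ∃ k : ℕ, y ^ p ^ k = 1)
    (hz : ∃ k : ℕ, z ^ p ^ k = 1) (hzy : π z = t * π y * t⁻¹)
    (h : AD p T v t (t * π y * t⁻¹)) : ∃ g ∈ val E v, g * y * g⁻¹ = z := by
  cases v with
  | var =>
    obtain ⟨e, he⟩ := hπ t
    have h1 : z⁻¹ * (e * y * e⁻¹) ∈ π.ker := by
      rw [MonoidHom.mem_ker]
      simp only [map_mul, map_inv, he, hzy]
      group
    obtain ⟨c, hc, hcx⟩ := adj_elt hpK z _ h1 hz (by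
      obtain ⟨k, hk⟩ := hy
      refine ⟨k, ?_⟩
      rw [mul_inv_cancel_left, conj_pow, hk]; simp)
    rw [mul_inv_cancel_left] at hcx
    refine ⟨c * e, Set.mem_univ _, ?_⟩
    rw [← hcx]; group
  | comm v₁ v₂ =>
    obtain ⟨a, ha, b, hb, rfl, hF⟩ := h
    obtain ⟨a', ha', b', hb', -, -, hn⟩ := pair_elt (p := p) Set.univ v₁ v₂ a b
      (fun E _ π hπ => NV_GV π hπ v₁ a ha) (fun E _ π hπ => NV_GV π hπ v₂ b hb) _ hF _ E π
      hπ hK hpK rfl y z hy hz hzy rfl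
    exact ⟨⁅a', b'⁆, ⟨a', NV_val π _ v₁ a' ha', b', NV_val π _ v₂ b' hb', rfl⟩, hn⟩

/-- Case (b). -/
theorem caseB (π : E →* T) (hπ : Function.Surjective π) (hK : π.ker ≤ frattini E)
    (hpK : ¬ p ∣ Nat.card π.ker) (S : Sylow p E) (w : MW) :
    ∀ x ∈ VS p ((S : Subgroup E).map π) w, ∀ x' ∈ (S : Subgroup E), π x' = x → x' ∈ val E w := by
  have hpe : ∀ s ∈ (S : Subgroup E), ∃ k : ℕ, s ^ p ^ k = 1 := by
    intro s hs
    obtain ⟨k, hk⟩ := S.isPGroup' ⟨s, hs⟩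
    exact ⟨k, congrArg (fun z : (S : Subgroup E) => (z : E)) hk⟩
  induction w with
  | var => exact fun _ _ _ _ _ => Set.mem_univ _
  | comm u v hu hv =>
    rintro x (⟨y, hy, t, h1, h2, rfl⟩ | ⟨y, hy, t, h1, h2, rfl⟩) x' hx'S hx'
    · obtain ⟨y', hy'S, rfl⟩ := VS_sub _ u hy
      obtain ⟨z', hz'S, hz'⟩ := h1
      obtain ⟨g, hg, hgy⟩ := ad_val π hπ hK hpK v t y' z' (hpe _ hy'S) (hpe _ hz'S) hz' h2
      have e1 : ⁅y', g⁆ = y' * z'⁻¹ := by
        rw [← hgy, commutatorElement_def]; group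
      have e2 : x' = ⁅y', g⁆ := by
        apply inj_on π hpK S.isPGroup' _ hx'S
        · rw [e1]; exact (S : Subgroup E).mul_mem hy'S ((S : Subgroup E).inv_mem hz'S)
        · rw [hx', e1, map_mul, map_inv, hz', commutatorElement_def]; group
      rw [e2]
      exact ⟨y', hu _ hy y' hy'S rfl, g, hg, rfl⟩
    · obtain ⟨y', hy'S, rfl⟩ := VS_sub _ v hy
      obtain ⟨z', hz'S, hz'⟩ := h1
      obtain ⟨g, hg, hgy⟩ := ad_val π hπ hK hpK u t y' z' (hpe _ hy'S) (hpe _ hz'S) hz' h2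
      have e1 : ⁅g, y'⁆ = z' * y'⁻¹ := by
        rw [← hgy, commutatorElement_def]
      have e2 : x' = ⁅g, y'⁆ := by
        apply inj_on π hpK S.isPGroup' _ hx'S
        · rw [e1]; exact (S : Subgroup E).mul_mem hz'S ((S : Subgroup E).inv_mem hy'S)
        · rw [hx', e1, map_mul, map_inv, hz', commutatorElement_def]
      rw [e2]
      exact ⟨g, hg, y', hv _ hy y' hy'S rfl, rfl⟩

theorem strong (hE : commutator E = ⊤)
    (π : E →* T) (hπ : Function.Surjective π) (hK : π.ker ≤ frattini E)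
    (hpK : ¬ p ∣ Nat.card π.ker) (w : MW) (hs : ∀ K : Subgroup E, K ≠ ⊤ → Good p K w)
    (hT : ∀ P : Sylow p T, (P : Subgroup T) ≤ closure (GS p w (P : Subgroup T))) :
    Good p E w := by
  intro S
  rw [ver_perfect E hE, inf_top_eq]
  have hS1 := hT (S.mapSurjective hπ)
  rw [Sylow.coe_mapSurjective] at hS1
  have key : GS p w ((S : Subgroup E).map π) ⊆ (Qs w (S : Subgroup E)).map π := by
    rintro x (⟨Y, Q, h1, h2, h3, h4, h5, h6⟩ | ⟨R, h1, h2⟩ | h1)
    · exact caseA π hπ hpK w hs S Y Q h1 h2 h3 h4 x h5 h6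
    · exact caseC π hπ hpK w S R h1 h2
    · obtain ⟨x', hx'S, hx'⟩ := VS_sub _ w h1
      exact ⟨x', Subgroup.subset_closure ⟨caseB π hπ hK hpK S w x h1 x' hx'S hx', hx'S⟩, hx'⟩
  intro x hx
  have h1 : π x ∈ (Qs w (S : Subgroup E)).map π :=
    ((hS1.trans ((closure_le _).2 key)) (mem_map_of_mem π hx))
  obtain ⟨y, hy, hyx⟩ := h1
  rw [← inj_on π hpK S.isPGroup' y (Qs_le w _ hy) x hx hyx]
  exact hy

end strong

end Pool.Agent.Work.MP_8aaf67_al.SR
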