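import Pool.Agent.Work.MP_8aaf67_al.SR.Words

/-!
# Sylow subgroups of subgroups, reduction lemmas
-/

set_option autoImplicit false

namespace Pool.Agent.Work.MP_8aaf67_al.SR

open Subgroup
open scoped commutatorElement

/-- `P` is a Sylow `p`-subgroup of `K`. -/
def IsSyl {G : Type*} [Group G] (p : ℕ) (P K : Subgroup G) : Prop :=
  P ≤ K ∧ IsPGroup p P ∧ ¬ p ∣ P.relIndex K

section syl

variable {G H : Type*} [Group G] [Group H] {p : ℕ} [hp : Fact p.Prime]

theorem isSyl_top [Finite G] (S : Sylow p G) : IsSyl p (S : Subgroup G) ⊤ := by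
  refine ⟨le_top, S.isPGroup', ?_⟩
  rw [relIndex_top_right]
  exact S.not_dvd_index

theorem IsSyl.inf_normal [Finite G] {P K N : Subgroup G} (h : IsSyl p P K) (hN : N.Normal)
    (hNK : N ≤ K) : IsSyl p (P ⊓ N) N := by
  refine ⟨inf_le_right, h.2.1.to_le inf_le_left, ?_⟩
  have h1 := relIndex_mul_relIndex (P ⊓ N) N (P ⊔ N) inf_le_right le_sup_right
  have h2 := relIndex_mul_relIndex (P ⊓ N) P (P ⊔ N) inf_le_left le_sup_left
  rw [inf_relIndex_left] at h2
  rw [relIndex_sup_right] at h1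
  have h3 : N.relIndex P ≠ 0 := by
    have := relIndex_dvd_card N P
    intro h0
    rw [h0, zero_dvd_iff] at this
    exact Nat.card_pos.ne' this
  have h4 : (P ⊓ N).relIndex N = P.relIndex (P ⊔ N) := by
    apply Nat.eq_of_mul_eq_mul_right (Nat.pos_of_ne_zero h3)
    rw [h1, ← h2, mul_comm]
  rw [h4]
  intro hd
  exact h.2.2 (hd.trans ⟨_, (relIndex_mul_relIndex P (P ⊔ N) K le_sup_left
    (sup_le h.1 hNK)).symm⟩)

theorem IsSyl.map {P K : Subgroup G} (h : IsSyl p P K) (f : G →* H) :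
    IsSyl p (P.map f) (K.map f) := by
  refine ⟨map_mono h.1, h.2.1.map f, ?_⟩
  rw [← relIndex_comap]
  intro hd
  exact h.2.2 (hd.trans (relIndex_dvd_of_le_left K (le_comap_map f P)))

theorem IsSyl.eq_of_le [Finite G] {P K X : Subgroup G} (h : IsSyl p P K) (hX : IsPGroup p X)
    (hPX : P ≤ X) (hXK : X ≤ K) : X = P := by
  refine le_antisymm ?_ hPX
  rw [← relIndex_eq_one]
  obtain ⟨n, hn⟩ := IsPGroup.iff_card.1 hX
  have h1 : P.relIndex X ∣ p ^ n := hn ▸ relIndex_dvd_card P X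
  obtain ⟨k, -, hk⟩ := (Nat.dvd_prime_pow hp.out).1 h1
  rcases Nat.eq_zero_or_pos k with rfl | hk0
  · simpa using hk
  · exfalso
    apply h.2.2
    have h2 : P.relIndex X ∣ P.relIndex K := ⟨_, (relIndex_mul_relIndex P X K hPX hXK).symm⟩
    exact ((dvd_pow_self p (by omega)).trans (dvd_of_eq hk.symm)).trans h2

theorem IsSyl.frattini [Finite G] {P K : Subgroup G} (h : IsSyl p P K) [K.Normal] :
    normalizer (P : Set G) ⊔ K = ⊤ := by
  have h1 : IsPGroup p (P.subgroupOf K) := h.2.1.comap_subtype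
  obtain ⟨S, hS⟩ : ∃ S : Sylow p K, (S : Subgroup K) = P.subgroupOf K :=
    ⟨h1.toSylow (by exact h.2.2), by simp⟩
  have h2 := Sylow.normalizer_sup_eq_top S
  rw [hS] at h2
  rwa [map_subgroupOf_eq_of_le h.1] at h2

/-- Image of the intersection with a normal subgroup. -/
theorem map_inf [Finite G] (S : Sylow p G) (N : Subgroup G) [hN : N.Normal] (f : G →* H) :
    ((S : Subgroup G) ⊓ N).map f = (S : Subgroup G).map f ⊓ N.map f := by
  have h1 : IsSyl p (((S : Subgroup G) ⊓ N).map f) (N.map f) :=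
    ((isSyl_top S).inf_normal hN le_top).map f
  -- work inside the finite group `range f`
  refine le_antisymm (Subgroup.map_inf_le _ _ f) ?_
  have hX : IsPGroup p ((S : Subgroup G).map f ⊓ N.map f : Subgroup H) :=
    (S.isPGroup'.map f).to_le inf_le_left
  rw [← relIndex_eq_one]
  have hfin : Finite ((S : Subgroup G).map f) := by
    have := (Set.toFinite ((S : Subgroup G) : Set G)).image f
    exact this.to_subtype
  have : Finite ((S : Subgroup G).map f ⊓ N.map f : Subgroup H) :=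
    Finite.of_injective (inclusion (inf_le_left : (S : Subgroup G).map f ⊓ N.map f ≤
      (S : Subgroup G).map f)) (inclusion_injective _)
  obtain ⟨n, hn⟩ := IsPGroup.iff_card.1 hX
  have h2 : (((S : Subgroup G) ⊓ N).map f).relIndex ((S : Subgroup G).map f ⊓ N.map f) ∣ p ^ n :=
    hn ▸ relIndex_dvd_card _ _
  obtain ⟨k, -, hk⟩ := (Nat.dvd_prime_pow hp.out).1 h2
  rcases Nat.eq_zero_or_pos k with rfl | hk0
  · simpa using hk
  · exfalso
    apply h1.2.2
    have h3 := relIndex_mul_relIndex (((S : Subgroup G) ⊓ N).map f)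
      ((S : Subgroup G).map f ⊓ N.map f) (N.map f) (Subgroup.map_inf_le _ _ f) inf_le_right
    exact ((dvd_pow_self p (by omega)).trans (dvd_of_eq hk.symm)).trans ⟨_, h3.symm⟩

end syl

/-- The subgroup generated by the `w`-values in `S`. -/
def Qs {G : Type*} [Group G] (w : MW) (S : Subgroup G) : Subgroup G := closure (val G w ∩ S)

/-- The Sylow `p`-subgroups of `w(G)` are generated by `w`-values. -/
def Good (p : ℕ) (G : Type*) [Group G] (w : MW) : Prop :=
  ∀ S : Sylow p G, (S : Subgroup G) ⊓ ver G w ≤ Qs w (S : Subgroup G)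

section good

variable {G H : Type*} [Group G] [Group H] {p : ℕ} [hp : Fact p.Prime]

theorem Qs_le (w : MW) (S : Subgroup G) : Qs w S ≤ S := by
  rw [Qs, closure_le]; exact Set.inter_subset_right

theorem Qs_mono (w : MW) {S T : Subgroup G} (h : S ≤ T) : Qs w S ≤ Qs w T :=
  Subgroup.closure_mono (Set.inter_subset_inter_right _ h)

theorem Qs_map (w : MW) (f : G →* H) (S : Subgroup G) : (Qs w S).map f ≤ Qs w (S.map f) := by
  rw [Qs, Qs, MonoidHom.map_closure]
  apply Subgroup.closure_mono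
  rintro _ ⟨x, ⟨h1, h2⟩, rfl⟩
  exact ⟨val_map f w x h1, mem_map_of_mem f h2⟩

theorem good_of_exists [Finite G] {w : MW}
    (h : ∃ S : Sylow p G, (S : Subgroup G) ⊓ ver G w ≤ Qs w (S : Subgroup G)) : Good p G w := by
  obtain ⟨S, hS⟩ := h
  intro T x hx
  obtain ⟨g, rfl⟩ := MulAction.exists_smul_eq G S T
  have hT : ((g • S : Sylow p G) : Subgroup G) = (S : Subgroup G).map (MulAut.conj g).toMonoidHom := rfl
  rw [hT] at hx ⊢
  apply Qs_map
  obtain ⟨⟨y, hy, hyx⟩, hx2⟩ := hx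
  refine ⟨y, hS ⟨hy, ?_⟩, hyx⟩
  have h1 : y = g⁻¹ * x * g⁻¹⁻¹ := by
    rw [← hyx]; simp; group
  rw [h1]
  exact (ver_normal w).conj_mem x hx2 g⁻¹

/-- Supplements. -/
theorem supp [Finite G] {w : MW} (M K : Subgroup G) [hM : M.Normal] (hMK : M ⊔ K = ⊤)
    (hK : Good p K w) :
    ∃ S : Sylow p G, (S : Subgroup G) ⊓ ver G w ≤ Qs w (S : Subgroup G) ⊔ ((S : Subgroup G) ⊓ M) := by
  obtain ⟨S0⟩ : Nonempty (Sylow p K) := inferInstance
  obtain ⟨S, hS⟩ := (S0.isPGroup'.map K.subtype).exists_le_sylow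
  refine ⟨S, ?_⟩
  obtain ⟨π, hπ⟩ : ∃ π, π = QuotientGroup.mk' M := ⟨_, rfl⟩
  have hπs : Function.Surjective π := by rw [hπ]; exact QuotientGroup.mk'_surjective M
  have hφs : Function.Surjective (π.comp K.subtype) := by
    intro y
    obtain ⟨x, rfl⟩ := hπs y
    have hx : x ∈ M ⊔ K := hMK ▸ mem_top x
    rw [mem_sup_of_normal_left] at hx
    obtain ⟨m, hm, k, hk, rfl⟩ := hx
    refine ⟨⟨k, hk⟩, ?_⟩
    have : π m = 1 := by rw [hπ]; exact (QuotientGroup.eq_one_iff m).2 hm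
    simp [this]
  -- images of the Sylow subgroups
  have e1 : (S : Subgroup G).map π = (S0 : Subgroup K).map (π.comp K.subtype) := by
    have h1 : IsSyl p ((S0 : Subgroup K).map (π.comp K.subtype)) ((⊤ : Subgroup K).map
      (π.comp K.subtype)) := (isSyl_top S0).map _
    refine h1.eq_of_le (S.isPGroup'.map π) ?_ ?_
    · rw [← map_map]; exact map_mono hS
    · rw [← MonoidHom.range_eq_map, MonoidHom.range_eq_top.2 hφs]; exact le_top
  have e2 := map_inf S0 (ver K w) (π.comp K.subtype)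
  rw [ver_map _ hφs, ← e1] at e2
  rintro x ⟨hxS, hxW⟩
  have h3 : π x ∈ (S : Subgroup G).map π ⊓ ver (G ⧸ M) w := by
    refine ⟨mem_map_of_mem π hxS, ?_⟩
    rw [← ver_map π hπs]
    exact mem_map_of_mem π hxW
  rw [← e2] at h3
  obtain ⟨y, hy, hyx⟩ := h3
  have h4 : (y : G) ∈ Qs w (S : Subgroup G) := by
    have h5 := Qs_map w K.subtype (S0 : Subgroup K) (mem_map_of_mem K.subtype (hK S0 hy))
    exact Qs_mono w hS h5
  have h5 : (y : G)⁻¹ * x ∈ M := by
    rw [← QuotientGroup.eq, ← QuotientGroup.mk'_apply, ← QuotientGroup.mk'_apply, ← hπ]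
    exact hyx
  have h6 : x = y * ((y : G)⁻¹ * x) := by group
  rw [h6]
  refine mul_mem_sup h4 ⟨?_, h5⟩
  exact (S : Subgroup G).mul_mem ((S : Subgroup G).inv_mem (Qs_le w _ h4)) hxS

/-- Quotients by normal `p`-subgroups. -/
theorem quot [Finite G] {w : MW} (D : Subgroup G) [hD : D.Normal] (hDp : IsPGroup p D)
    (h : Good p (G ⧸ D) w) (S : Sylow p G) :
    (S : Subgroup G) ⊓ ver G w ≤ Qs w (S : Subgroup G) ⊔ D := by
  obtain ⟨π, hπ⟩ : ∃ π, π = QuotientGroup.mk' D := ⟨_, rfl⟩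
  have hπs : Function.Surjective π := by rw [hπ]; exact QuotientGroup.mk'_surjective D
  have hDS : D ≤ (S : Subgroup G) := hDp.le_sylow_of_normal S
  have hker : ∀ x y : G, π x = π y → x⁻¹ * y ∈ D := by
    intro x y hxy
    rw [← QuotientGroup.eq, ← QuotientGroup.mk'_apply, ← QuotientGroup.mk'_apply, ← hπ]
    exact hxy
  have h1 := h (S.mapSurjective hπs)
  rw [Sylow.coe_mapSurjective] at h1
  have h2 : Qs w ((S : Subgroup G).map π) ≤ (Qs w (S : Subgroup G)).map π := by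
    rw [Qs, closure_le]
    rintro y ⟨hy, ⟨s, hs, hsy⟩⟩
    obtain ⟨z, hz, rfl⟩ := val_surj π hπs w y hy
    refine ⟨z, subset_closure ⟨hz, ?_⟩, rfl⟩
    have h3 := hDS (hker s z hsy)
    have h4 : z = s * (s⁻¹ * z) := by group
    rw [h4]
    exact mul_mem hs h3
  rintro x ⟨hxS, hxW⟩
  have h3 : π x ∈ (Qs w (S : Subgroup G)).map π := by
    apply h2
    apply h1
    refine ⟨mem_map_of_mem π hxS, ?_⟩
    rw [← ver_map π hπs]
    exact mem_map_of_mem π hxW
  obtain ⟨y, hy, hyx⟩ := h3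
  have h6 : x = y * (y⁻¹ * x) := by group
  rw [h6]
  exact mul_mem_sup hy (hker y x hyx)

end good

end Pool.Agent.Work.MP_8aaf67_al.SR
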