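import Mathlib

/-!
# Multilinear commutator words: values and verbal subgroups
-/

set_option autoImplicit false

namespace Pool.Agent.Work.MP_8aaf67_al.SR

open Subgroup
open scoped commutatorElement

/-- The shape of a multilinear commutator word: a variable, or `[u, v]`. -/
inductive MW : Type
  | var : MW
  | comm : MW → MW → MW

/-- The values of the word in the group `G`. -/
def val (G : Type*) [Group G] : MW → Set G
  | .var => Set.univ
  | .comm u v => {x | ∃ a ∈ val G u, ∃ b ∈ val G v, x = ⁅a, b⁆}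

/-- The verbal subgroup. -/
def ver (G : Type*) [Group G] (w : MW) : Subgroup G := closure (val G w)

section basic

variable {G H : Type*} [Group G] [Group H]

theorem one_mem_val (w : MW) : (1 : G) ∈ val G w := by
  induction w with
  | var => exact Set.mem_univ _
  | comm u v hu hv => exact ⟨1, hu, 1, hv, by simp⟩

theorem val_map (f : G →* H) (w : MW) : ∀ x ∈ val G w, f x ∈ val H w := by
  induction w with
  | var => intro x _; exact Set.mem_univ _
  | comm u v hu hv =>
    rintro x ⟨a, ha, b, hb, rfl⟩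
    exact ⟨f a, hu a ha, f b, hv b hb, map_commutatorElement f a b⟩

theorem val_surj (f : G →* H) (hf : Function.Surjective f) (w : MW) :
    ∀ y ∈ val H w, ∃ x ∈ val G w, f x = y := by
  induction w with
  | var => intro y _; obtain ⟨x, hx⟩ := hf y; exact ⟨x, Set.mem_univ _, hx⟩
  | comm u v hu hv =>
    rintro y ⟨a, ha, b, hb, rfl⟩
    obtain ⟨a', ha', rfl⟩ := hu a ha
    obtain ⟨b', hb', rfl⟩ := hv b hb
    exact ⟨⁅a', b'⁆, ⟨a', ha', b', hb', rfl⟩, map_commutatorElement f a' b'⟩

theorem val_conj (w : MW) (g x : G) (hx : x ∈ val G w) : g * x * g⁻¹ ∈ val G w := by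
  have := val_map (MulAut.conj g).toMonoidHom w x hx
  simpa using this

theorem val_le_ver {w : MW} {x : G} (hx : x ∈ val G w) : x ∈ ver G w := subset_closure hx

theorem closure_normal {s : Set G} (hs : ∀ g x, x ∈ s → g * x * g⁻¹ ∈ s) : (closure s).Normal := by
  constructor
  intro n hn g
  induction hn using closure_induction with
  | mem x hx => exact subset_closure (hs g x hx)
  | one => simp
  | mul x y _ _ hx hy =>
    have : g * (x * y) * g⁻¹ = (g * x * g⁻¹) * (g * y * g⁻¹) := by group
    rw [this]; exact mul_mem hx hy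
  | inv x _ hx =>
    have : g * x⁻¹ * g⁻¹ = (g * x * g⁻¹)⁻¹ := by group
    rw [this]; exact inv_mem hx

instance ver_normal (w : MW) : (ver G w).Normal := closure_normal fun g x hx => val_conj w g x hx

/-- The values of `w` in a normal subgroup generate a normal subgroup. -/
theorem inter_normal (w : MW) (N : Subgroup G) [hN : N.Normal] :
    (closure (val G w ∩ N)).Normal :=
  closure_normal fun g x hx => ⟨val_conj w g x hx.1, hN.conj_mem x hx.2 g⟩

theorem ver_map (f : G →* H) (hf : Function.Surjective f) (w : MW) :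
    (ver G w).map f = ver H w := by
  rw [ver, ver, MonoidHom.map_closure]
  congr 1
  ext y
  constructor
  · rintro ⟨x, hx, rfl⟩; exact val_map f w x hx
  · intro hy; obtain ⟨x, hx, h⟩ := val_surj f hf w y hy; exact ⟨x, hx, h⟩

/-- Elements which commute modulo a normal subgroup. -/
theorem closure_comm {s t : Set G} {N : Subgroup G} [hN : N.Normal]
    (h : ∀ a ∈ s, ∀ b ∈ t, ⁅a, b⁆ ∈ N) : ⁅closure s, closure t⁆ ≤ N := by
  have e : ∀ a b : G, ⁅a, b⁆ ∈ N ↔ Commute (QuotientGroup.mk' N a) (QuotientGroup.mk' N b) := by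
    intro a b
    rw [← commutatorElement_eq_one_iff_commute, ← map_commutatorElement]
    exact (QuotientGroup.eq_one_iff ⁅a, b⁆).symm
  rw [commutator_le]
  intro a ha b hb
  rw [e]
  have h1 : ∀ b ∈ t, Commute (QuotientGroup.mk' N a) (QuotientGroup.mk' N b) := by
    intro b hb
    have h2 : closure s ≤ (centralizer {QuotientGroup.mk' N b}).comap (QuotientGroup.mk' N) := by
      rw [closure_le]
      intro a ha
      rw [SetLike.mem_coe, mem_comap, mem_centralizer_iff]
      rintro _ rfl
      exact ((e a b).1 (h a ha b hb)).symm.eq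
    have h3 := h2 ha
    rw [mem_comap, mem_centralizer_iff] at h3
    exact (h3 _ rfl : _ = _).symm
  have h2 : closure t ≤ (centralizer {QuotientGroup.mk' N a}).comap (QuotientGroup.mk' N) := by
    rw [closure_le]
    intro b hb
    rw [SetLike.mem_coe, mem_comap, mem_centralizer_iff]
    rintro _ rfl
    exact (h1 b hb).eq
  have h3 := h2 hb
  rw [mem_comap, mem_centralizer_iff] at h3
  exact h3 _ rfl

theorem ver_comm (u v : MW) : ver G (.comm u v) = ⁅ver G u, ver G v⁆ := by
  apply le_antisymm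
  · rw [ver, closure_le]
    rintro x ⟨a, ha, b, hb, rfl⟩
    exact commutator_mem_commutator (val_le_ver ha) (val_le_ver hb)
  · exact closure_comm fun a ha b hb => val_le_ver ⟨a, ha, b, hb, rfl⟩

/-- three subgroups lemma for normal subgroups. -/
theorem three (A B C : Subgroup G) [A.Normal] [B.Normal] [C.Normal] :
    ⁅A, ⁅B, C⁆⁆ ≤ ⁅⁅A, B⁆, C⁆ ⊔ ⁅⁅A, C⁆, B⁆ := by
  obtain ⟨N, hN⟩ : ∃ N, N = ⁅⁅A, B⁆, C⁆ ⊔ ⁅⁅A, C⁆, B⁆ := ⟨_, rfl⟩
  have : N.Normal := by rw [hN]; infer_instance
  rw [← hN]
  obtain ⟨f, hf⟩ : ∃ f, f = QuotientGroup.mk' N := ⟨_, rfl⟩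
  have k : ∀ X : Subgroup G, X.map f = ⊥ ↔ X ≤ N := by
    intro X
    rw [Subgroup.map_eq_bot_iff, hf, QuotientGroup.ker_mk']
  rw [← k, map_commutator, map_commutator, commutator_comm]
  apply commutator_commutator_eq_bot_of_rotate
  · rw [commutator_comm (C.map f) (A.map f), ← map_commutator, ← map_commutator, k, hN]
    exact le_sup_right
  · rw [← map_commutator, ← map_commutator, k, hN]
    exact le_sup_left

/-- `[N, w(G)]` is generated by `w`-values in `N`. -/
theorem marg (w : MW) (N : Subgroup G) [hN : N.Normal] :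
    ⁅N, ver G w⁆ ≤ closure (val G w ∩ N) := by
  -- subgroups generated by values with an entry in `N`
  have key : ∀ w : MW, ∃ s : Set G, s ⊆ val G w ∩ N ∧ (∀ g x, x ∈ s → g * x * g⁻¹ ∈ s) ∧
      ⁅N, ver G w⁆ ≤ closure s := by
    intro w
    induction w with
    | var =>
      refine ⟨N, fun x hx => ⟨Set.mem_univ _, hx⟩, fun g x hx => hN.conj_mem x hx g, ?_⟩
      rw [closure_eq]
      exact commutator_le_left N _
    | comm u v hu hv =>
      obtain ⟨s, hs1, hs2, hs3⟩ := hu
      obtain ⟨t, ht1, ht2, ht3⟩ := hv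
      have : (closure s).Normal := closure_normal hs2
      have : (closure t).Normal := closure_normal ht2
      have hc : ∀ g a b : G, g * ⁅a, b⁆ * g⁻¹ = ⁅g * a * g⁻¹, g * b * g⁻¹⁆ := by
        intro g a b
        rw [commutatorElement_def, commutatorElement_def]
        group
      refine ⟨{x | (∃ a ∈ s, ∃ b ∈ val G v, x = ⁅a, b⁆) ∨ (∃ a ∈ val G u, ∃ b ∈ t, x = ⁅a, b⁆)},
        ?_, ?_, ?_⟩
      · rintro x (⟨a, ha, b, hb, rfl⟩ | ⟨a, ha, b, hb, rfl⟩)
        · refine ⟨⟨a, (hs1 ha).1, b, hb, rfl⟩, ?_⟩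
          exact commutator_le_left N ⊤ (commutator_mem_commutator (hs1 ha).2 (mem_top b))
        · refine ⟨⟨a, ha, b, (ht1 hb).1, rfl⟩, ?_⟩
          exact commutator_le_right ⊤ N (commutator_mem_commutator (mem_top a) (ht1 hb).2)
      · rintro g x (⟨a, ha, b, hb, rfl⟩ | ⟨a, ha, b, hb, rfl⟩)
        · exact Or.inl ⟨_, hs2 g a ha, _, val_conj v g b hb, hc g a b⟩
        · exact Or.inr ⟨_, val_conj u g a ha, _, ht2 g b hb, hc g a b⟩
      · rw [ver_comm]
        refine (three N (ver G u) (ver G v)).trans ?_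
        obtain ⟨r, hr⟩ : ∃ r : Set G, r = {x | (∃ a ∈ s, ∃ b ∈ val G v, x = ⁅a, b⁆) ∨
          (∃ a ∈ val G u, ∃ b ∈ t, x = ⁅a, b⁆)} := ⟨_, rfl⟩
        rw [← hr]
        have : (closure r).Normal := by
          apply closure_normal
          rw [hr]
          rintro g x (⟨a, ha, b, hb, rfl⟩ | ⟨a, ha, b, hb, rfl⟩)
          · exact Or.inl ⟨_, hs2 g a ha, _, val_conj v g b hb, hc g a b⟩
          · exact Or.inr ⟨_, val_conj u g a ha, _, ht2 g b hb, hc g a b⟩
        have h1 : ⁅closure s, ver G v⁆ ≤ closure r := closure_comm fun a ha b hb => by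
          apply Subgroup.subset_closure
          rw [hr]
          exact Or.inl ⟨a, ha, b, hb, rfl⟩
        have h2 : ⁅ver G u, closure t⁆ ≤ closure r := closure_comm fun a ha b hb => by
          apply Subgroup.subset_closure
          rw [hr]
          exact Or.inr ⟨a, ha, b, hb, rfl⟩
        refine sup_le ((commutator_mono hs3 le_rfl).trans h1) ?_
        rw [commutator_comm] 
        exact (commutator_mono le_rfl ht3).trans h2
  obtain ⟨s, hs1, -, hs3⟩ := key w
  exact hs3.trans (closure_mono hs1)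

end basic

end Pool.Agent.Work.MP_8aaf67_al.SR
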